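import Mathlib

/-!
# Chaining the paths of a partial injective function, and a machine with tower growth
-/

set_option autoImplicit false

namespace R336.AutChain

variable {X : Type}

/-- `a'` is the next element of `A` after `a`, in the order given by `ρ`. -/
def Nx (A : X → Prop) (ρ : X → ℕ) (a a' : X) : Prop :=
  A a ∧ A a' ∧ ρ a < ρ a' ∧ ∀ w, ¬ (A w ∧ ρ a < ρ w ∧ ρ w < ρ a')

theorem Nx.func {A : X → Prop} {ρ : X → ℕ} (hρ : Function.Injective ρ) {a b c : X}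
    (h : Nx A ρ a b) (h' : Nx A ρ a c) : b = c := by
  obtain ⟨_, hb, h1, h2⟩ := h
  obtain ⟨_, hc, h3, h4⟩ := h'
  rcases lt_trichotomy (ρ b) (ρ c) with h5 | h5 | h5
  · exact absurd ⟨hb, h1, h5⟩ (h4 b)
  · exact hρ h5
  · exact absurd ⟨hc, h3, h5⟩ (h2 c)

theorem Nx.inj {A : X → Prop} {ρ : X → ℕ} (hρ : Function.Injective ρ) {a b c : X}
    (h : Nx A ρ a c) (h' : Nx A ρ b c) : a = b := by
  obtain ⟨ha, _, h1, h2⟩ := h
  obtain ⟨hb, _, h3, h4⟩ := h'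
  rcases lt_trichotomy (ρ a) (ρ b) with h5 | h5 | h5
  · exact absurd ⟨hb, h5, h3⟩ (h2 b)
  · exact hρ h5
  · exact absurd ⟨ha, h5, h1⟩ (h4 a)

theorem Nx.exists_next {A : X → Prop} {ρ : X → ℕ} (hinf : ∀ N, ∃ a, A a ∧ N ≤ ρ a)
    {a : X} (ha : A a) : ∃ b, Nx A ρ a b := by
  classical
  have hex : ∃ m, ∃ b, A b ∧ ρ b = m ∧ ρ a < m := by
    obtain ⟨b, hb, hN⟩ := hinf (ρ a + 1)
    exact ⟨ρ b, b, hb, rfl, hN⟩
  obtain ⟨b, hb, hm, hlt⟩ := Nat.find_spec hex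
  refine ⟨b, ha, hb, by omega, ?_⟩
  rintro w ⟨hw, h1, h2⟩
  exact Nat.find_min hex (m := ρ w) (by omega) ⟨w, hw, rfl, h1⟩

theorem Nx.exists_prev {A : X → Prop} {ρ : X → ℕ} {a b : X} (ha : A a) (hb : A b)
    (hab : ρ b < ρ a) : ∃ c, Nx A ρ c a := by
  classical
  obtain ⟨m, ⟨c, hc, hcm, hlt⟩, hmax⟩ :
      ∃ m, (∃ c, A c ∧ ρ c = m ∧ m < ρ a) ∧
        ∀ m', (∃ c, A c ∧ ρ c = m' ∧ m' < ρ a) → m' ≤ m := by
    have hex : ∃ m, (∃ c, A c ∧ ρ c = m ∧ m < ρ a) := ⟨ρ b, b, hb, rfl, hab⟩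
    have hbd : ∀ m, (∃ c, A c ∧ ρ c = m ∧ m < ρ a) → m ≤ ρ a := by
      rintro m ⟨_, _, _, h⟩; omega
    obtain ⟨m, hm⟩ := hex
    have h1 := Nat.findGreatest_spec (P := fun m => ∃ c, A c ∧ ρ c = m ∧ m < ρ a)
      (hbd m hm) hm
    refine ⟨_, h1, fun m' hm' => ?_⟩
    exact Nat.le_findGreatest (hbd m' hm') hm'
  refine ⟨c, hc, ha, by omega, ?_⟩
  rintro w ⟨hw, h1, h2⟩
  have := hmax (ρ w) ⟨w, hw, rfl, h2⟩
  omega

/-- a partial injective function without infinite forward or backward paths -/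
structure Sys (X : Type) where
  V : X → Prop
  st : X → X → Prop
  ρ : X → ℕ
  dom : ∀ x y, st x y → V x ∧ V y
  func : ∀ x y z, st x y → st x z → y = z
  inj : ∀ x y z, st x z → st y z → x = y
  fw : WellFounded (fun y x => st x y)
  bw : WellFounded (fun x y => st x y)
  ρinj : Function.Injective ρ

namespace Sys

/-- starts -/
def A (S : Sys X) (x : X) : Prop := S.V x ∧ ¬ ∃ y, S.st y x

/-- ends -/
def E (S : Sys X) (x : X) : Prop := S.V x ∧ ¬ ∃ y, S.st x y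

/-- the successor relation of the chain -/
def F (S : Sys X) (p q : X × Bool) : Prop :=
  ((p.2 = true ∧ q.2 = true) ∧ S.st p.1 q.1) ∨ ((p.2 = true ∧ q.2 = false) ∧ S.E p.1 ∧ p.1 = q.1) ∨
  ((p.2 = false ∧ q.2 = false) ∧ S.st q.1 p.1) ∨
  ((p.2 = false ∧ q.2 = true) ∧ Nx S.A S.ρ p.1 q.1)

/-- paths with `n` steps -/
inductive Pn (S : Sys X) : ℕ → X → X → Prop
  | zero (x : X) : Pn S 0 x x
  | succ {n : ℕ} {x y z : X} : S.st x y → Pn S n y z → Pn S (n + 1) x z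

theorem Pn.trans {S : Sys X} {n : ℕ} {x y : X} (h : S.Pn n x y) :
    ∀ {m : ℕ} {z : X}, S.Pn m y z → S.Pn (n + m) x z := by
  induction h with
  | zero x => intro m z h; rwa [Nat.zero_add]
  | succ h1 _ ih =>
    intro m z h
    have := Pn.succ h1 (ih h)
    rwa [Nat.add_right_comm] at this

theorem F_dom (S : Sys X) {p q : X × Bool} (h : S.F p q) : S.V p.1 ∧ S.V q.1 := by
  rcases h with ⟨_, h⟩ | ⟨_, h, he⟩ | ⟨_, h⟩ | ⟨_, h⟩
  · exact S.dom _ _ h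
  · exact ⟨h.1, he ▸ h.1⟩
  · exact (S.dom _ _ h).symm
  · exact ⟨h.1.1, h.2.1.1⟩

theorem F_func (S : Sys X) {p q q' : X × Bool} (h : S.F p q) (h' : S.F p q') : q = q' := by
  obtain ⟨x, e⟩ := p
  obtain ⟨y, e1⟩ := q
  obtain ⟨z, e2⟩ := q'
  simp only [F] at h h'
  rcases h with ⟨⟨h1, h2⟩, h⟩ | ⟨⟨h1, h2⟩, h, he⟩ | ⟨⟨h1, h2⟩, h⟩ | ⟨⟨h1, h2⟩, h⟩ <;>
  rcases h' with ⟨⟨h3, h4⟩, h'⟩ | ⟨⟨h3, h4⟩, h', he'⟩ | ⟨⟨h3, h4⟩, h'⟩ | ⟨⟨h3, h4⟩, h'⟩ <;>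
  subst h1 h2 h4 <;> (try (exact absurd h3 (by decide)))
  · rw [S.func _ _ _ h h']
  · exact absurd ⟨_, h⟩ h'.2
  · exact absurd ⟨_, h'⟩ h.2
  · rw [← he, ← he']
  · rw [S.inj _ _ _ h h']
  · exact absurd ⟨_, h⟩ h'.1.2
  · exact absurd ⟨_, h'⟩ h.1.2
  · rw [h.func S.ρinj h']

theorem F_inj (S : Sys X) {p p' q : X × Bool} (h : S.F p q) (h' : S.F p' q) : p = p' := by
  obtain ⟨x, e⟩ := p
  obtain ⟨y, e1⟩ := p'
  obtain ⟨z, e2⟩ := q
  simp only [F] at h h'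
  rcases h with ⟨⟨h1, h2⟩, h⟩ | ⟨⟨h1, h2⟩, h, he⟩ | ⟨⟨h1, h2⟩, h⟩ | ⟨⟨h1, h2⟩, h⟩ <;>
  rcases h' with ⟨⟨h3, h4⟩, h'⟩ | ⟨⟨h3, h4⟩, h', he'⟩ | ⟨⟨h3, h4⟩, h'⟩ | ⟨⟨h3, h4⟩, h'⟩ <;>
  subst h1 h2 h3 <;> (try (exact absurd h4 (by decide)))
  · rw [S.inj _ _ _ h h']
  · exact absurd ⟨_, h⟩ h'.2.1.2
  · rw [he, he']
  · subst he; exact absurd ⟨_, h'⟩ h.2
  · subst he'; exact absurd ⟨_, h⟩ h'.2
  · rw [S.func _ _ _ h h']
  · exact absurd ⟨_, h'⟩ h.2.1.2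
  · rw [h.inj S.ρinj h']

theorem F_total (S : Sys X) (hinf : ∀ N, ∃ a, S.A a ∧ N ≤ S.ρ a) (p : X × Bool)
    (hp : S.V p.1) : ∃ q, S.F p q := by
  obtain ⟨x, e⟩ := p
  cases e with
  | true =>
    by_cases h : ∃ y, S.st x y
    · obtain ⟨y, hy⟩ := h
      exact ⟨(y, true), Or.inl ⟨⟨rfl, rfl⟩, hy⟩⟩
    · exact ⟨(x, false), Or.inr (Or.inl ⟨⟨rfl, rfl⟩, ⟨hp, h⟩, rfl⟩)⟩
  | false =>
    by_cases h : ∃ y, S.st y x
    · obtain ⟨y, hy⟩ := h
      exact ⟨(y, false), Or.inr (Or.inr (Or.inl ⟨⟨rfl, rfl⟩, hy⟩))⟩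
    · obtain ⟨b, hb⟩ := Nx.exists_next hinf (a := x) (⟨hp, h⟩ : S.A x)
      exact ⟨(b, true), Or.inr (Or.inr (Or.inr ⟨⟨rfl, rfl⟩, hb⟩))⟩

theorem exists_end (S : Sys X) (x : X) (hx : S.V x) : ∃ b n, S.E b ∧ S.Pn n x b := by
  induction x using S.fw.induction with
  | _ x ih =>
    by_cases h : ∃ y, S.st x y
    · obtain ⟨y, hy⟩ := h
      obtain ⟨b, n, hb, hn⟩ := ih y hy (S.dom _ _ hy).2
      exact ⟨b, n + 1, hb, Pn.succ hy hn⟩
    · exact ⟨x, 0, ⟨hx, h⟩, Pn.zero x⟩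

theorem exists_start (S : Sys X) (x : X) (hx : S.V x) : ∃ a n, S.A a ∧ S.Pn n a x := by
  induction x using S.bw.induction with
  | _ x ih =>
    by_cases h : ∃ y, S.st y x
    · obtain ⟨y, hy⟩ := h
      obtain ⟨a, n, ha, hn⟩ := ih y hy (S.dom _ _ hy).1
      exact ⟨a, n + 1, ha, hn.trans (Pn.succ hy (Pn.zero x))⟩
    · exact ⟨x, 0, ⟨hx, h⟩, Pn.zero x⟩

theorem chain (S : Sys X) (hinf : ∀ N, ∃ a, S.A a ∧ N ≤ S.ρ a) :
    ∃ ψ : X × Bool → ℕ, (∀ n, ∃ p, S.V p.1 ∧ ψ p = n) ∧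
      (∀ p q, S.V p.1 → S.V q.1 → ψ p = ψ q → p = q) ∧
      (∀ p q, S.V p.1 → S.V q.1 → (ψ q = ψ p + 1 ↔ S.F p q)) ∧
      (∀ a x n, S.A a → S.Pn n a x → n < ψ (a, false)) := by
  classical
  -- the least start
  obtain ⟨a0, ha0, hmin⟩ : ∃ a0, S.A a0 ∧ ∀ a, S.A a → S.ρ a0 ≤ S.ρ a := by
    have hex : ∃ m, ∃ a, S.A a ∧ S.ρ a = m := by
      obtain ⟨a, ha, _⟩ := hinf 0
      exact ⟨_, a, ha, rfl⟩
    obtain ⟨a, ha, hm⟩ := Nat.find_spec hex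
    refine ⟨a, ha, fun b hb => ?_⟩
    rw [hm]
    exact Nat.find_min' hex ⟨b, hb, rfl⟩
  choose nxt hnxt using fun (p : {p : X × Bool // S.V p.1}) => S.F_total hinf p.1 p.2
  let nY : {p : X × Bool // S.V p.1} → {p : X × Bool // S.V p.1} :=
    fun p => ⟨nxt p, (S.F_dom (hnxt p)).2⟩
  let seq : ℕ → {p : X × Bool // S.V p.1} := fun n =>
    Nat.rec (motive := fun _ => {p : X × Bool // S.V p.1}) ⟨(a0, true), ha0.1⟩
      (fun _ p => nY p) n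
  have seq0 : (seq 0).1 = (a0, true) := rfl
  have hseq : ∀ n, S.F (seq n).1 (seq (n + 1)).1 := fun n => hnxt (seq n)
  have hno : ∀ p, ¬ S.F p (a0, true) := by
    rintro ⟨x, e⟩ (⟨⟨h1, h2⟩, h⟩ | ⟨⟨h1, h2⟩, h, he⟩ | ⟨⟨h1, h2⟩, h⟩ | ⟨⟨h1, h2⟩, h⟩)
    · exact ha0.2 ⟨_, h⟩
    · exact absurd h2 Bool.noConfusion
    · exact absurd h2 Bool.noConfusion
    · have := hmin x h.1
      have := h.2.2.1
      simp only at this
      omega
  have hinj : ∀ n m, seq n = seq m → n = m := by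
    intro n
    induction n with
    | zero =>
      intro m h
      cases m with
      | zero => rfl
      | succ m =>
        exfalso
        have := hseq m
        rw [← h] at this
        exact hno _ this
    | succ n ih =>
      intro m h
      cases m with
      | zero =>
        exfalso
        have := hseq n
        rw [h] at this
        exact hno _ this
      | succ m =>
        have h1 := hseq n
        have h2 := hseq m
        rw [h] at h1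
        rw [ih m (Subtype.ext (S.F_inj h1 h2))]
  -- reachable elements
  have hRF : ∀ p q, (∃ n, (seq n).1 = p) → S.F p q → ∃ n, (seq n).1 = q := by
    rintro p q ⟨n, rfl⟩ h
    exact ⟨n + 1, S.F_func (hseq n) h⟩
  have hfwd : ∀ n x z, S.Pn n x z → (∃ n, (seq n).1 = (x, true)) →
      ∃ n, (seq n).1 = (z, true) := by
    intro n x z h
    induction h with
    | zero x => exact id
    | succ h1 _ ih =>
      intro h
      exact ih (hRF _ _ h (Or.inl ⟨⟨rfl, rfl⟩, h1⟩))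
  have hbwd : ∀ n x z, S.Pn n x z → (∃ n, (seq n).1 = (z, false)) →
      ∃ n, (seq n).1 = (x, false) := by
    intro n x z h
    induction h with
    | zero x => exact id
    | succ h1 _ ih =>
      intro h
      exact hRF _ _ (ih h) (Or.inr (Or.inr (Or.inl ⟨⟨rfl, rfl⟩, h1⟩)))
  have hneg : ∀ x, S.V x → (∃ n, (seq n).1 = (x, true)) → ∃ n, (seq n).1 = (x, false) := by
    intro x hx h
    obtain ⟨b, n, hb, hn⟩ := S.exists_end x hx
    exact hbwd n x b hn (hRF _ _ (hfwd n x b hn h) (Or.inr (Or.inl ⟨⟨rfl, rfl⟩, hb, rfl⟩)))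
  have hA : ∀ m a, S.ρ a = m → S.A a → ∃ n, (seq n).1 = (a, true) := by
    intro m
    induction m using Nat.strong_induction_on with
    | _ m ih =>
      intro a hm ha
      by_cases h : S.ρ a0 < S.ρ a
      · obtain ⟨c, hc⟩ := Nx.exists_prev ha ha0 h
        have h1 := ih (S.ρ c) (by have := hc.2.2.1; omega) c rfl hc.1
        exact hRF _ _ (hneg c hc.1.1 h1) (Or.inr (Or.inr (Or.inr ⟨⟨rfl, rfl⟩, hc⟩)))
      · have : a0 = a := S.ρinj (le_antisymm (hmin a ha) (not_lt.mp h))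
        subst this
        exact ⟨0, rfl⟩
  have hpos : ∀ x, S.V x → ∃ n, (seq n).1 = (x, true) := by
    intro x hx
    obtain ⟨a, n, ha, hn⟩ := S.exists_start x hx
    exact hfwd n a x hn (hA _ a rfl ha)
  have hsurj : ∀ p : X × Bool, S.V p.1 → ∃ n, (seq n).1 = p := by
    rintro ⟨x, e⟩ hx
    cases e with
    | true => exact hpos x hx
    | false => exact hneg x hx (hpos x hx)
  let ψ : X × Bool → ℕ := fun p => if h : ∃ n, (seq n).1 = p then Classical.choose h else 0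
  have hψ : ∀ p : X × Bool, S.V p.1 → (seq (ψ p)).1 = p := by
    intro p hp
    have h := hsurj p hp
    show (seq (if h : ∃ n, (seq n).1 = p then Classical.choose h else 0)).1 = p
    rw [dif_pos h]
    exact Classical.choose_spec h
  have hψs : ∀ n, ψ (seq n).1 = n := fun n =>
    hinj _ _ (Subtype.ext (hψ (seq n).1 (seq n).2))
  have hψF : ∀ p q, S.F p q → ψ q = ψ p + 1 := by
    intro p q h
    have h1 := hseq (ψ p)
    rw [hψ p (S.F_dom h).1] at h1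
    have h2 := S.F_func h1 h
    rw [← h2]
    exact hψs (ψ p + 1)
  refine ⟨ψ, ?_, ?_, ?_, ?_⟩
  · intro n
    exact ⟨(seq n).1, (seq n).2, hψs n⟩
  · intro p q hp hq h
    rw [← hψ p hp, ← hψ q hq, h]
  · intro p q hp hq
    constructor
    · intro h
      have h1 := hseq (ψ p)
      rw [hψ p hp, ← h, hψ q hq] at h1
      exact h1
    · exact hψF p q
  · intro a x n ha hn
    have hback : ∀ n x z, S.Pn n x z → ψ (x, false) = ψ (z, false) + n := by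
      intro n x z h
      induction h with
      | zero x => rfl
      | succ h1 _ ih =>
        have := hψF _ _ (Or.inr (Or.inr (Or.inl ⟨⟨rfl, rfl⟩, h1⟩)) : S.F (_, false) (_, false))
        rw [this, ih]; ring
    have hx : S.V x := by
      have : ∀ n y z, S.Pn n y z → S.V y → S.V z := by
        intro n y z h
        induction h with
        | zero x => exact id
        | succ h1 _ ih => intro _; exact ih (S.dom _ _ h1).2
      exact this n a x hn ha.1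
    obtain ⟨b, m, hb, hm⟩ := S.exists_end x hx
    have h1 := hback n a x hn
    have h2 := hback m x b hm
    have h3 := hψF (b, true) (b, false) (Or.inr (Or.inl ⟨⟨rfl, rfl⟩, hb, rfl⟩))
    omega

end Sys

/-! ### The machine -/

/-- configurations of the machine -/
@[ext]
structure Cf where
  i : ℕ
  M : ℕ
  m : ℕ
  b : ℕ
  k : ℕ
  s : ℕ
  t : ℕ

/-- an injective rank of the numbers -/
structure Par where
  ρ : ℕ → ℕ
  B : ℕ
  hB : 1 < B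
  inj : Function.Injective ρ

/-- next number in the order of the ranks (among the positive numbers) -/
def Par.nx (P : Par) : ℕ → ℕ → Prop := Nx (fun s => 1 ≤ s) P.ρ

/-- the positive number with least rank -/
def Par.lst (P : Par) (q : ℕ) : Prop := 1 ≤ q ∧ ∀ w, ¬ (1 ≤ w ∧ P.ρ w < P.ρ q)

def R1 (x y : Cf) : Prop :=
  (x.M = 0 ∧ x.m = 0 ∧ x.b = 0 ∧ x.k = 0 ∧ x.s = 0 ∧ x.t = 0) ∧
  (y.i = x.i ∧ y.M = 0 ∧ y.m = 1 ∧ y.b = 0 ∧ y.k = 0 ∧ y.s = 0 ∧ y.t = 0)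

def R2 (x y : Cf) : Prop :=
  (x.s = 0 ∧ x.t = 0 ∧ 1 ≤ x.m ∧ x.M < 2 ^ x.m ∧ x.b + 1 < 2 ^ x.m) ∧
  (y.i = x.i ∧ y.M = x.M ∧ y.m = x.m ∧ y.b = x.b + 1 ∧ y.k = x.k + 1 ∧ y.s = 0 ∧ y.t = 0)

def R3 (x y : Cf) : Prop :=
  (x.s = 0 ∧ x.t = 0 ∧ 1 ≤ x.m ∧ x.M < 2 ^ x.m ∧ x.b + 1 = 2 ^ x.m ∧ x.i = y.i + 1) ∧
  ((x.M < 2 ^ x.m ∧ y.M = x.M + 2 ^ x.m) ∧ x.m < y.m ∧ y.m = x.k + 1 ∧ y.b = 0 ∧ y.k = 0 ∧ y.s = 0 ∧
    y.t = 0)

def R4 (P : Par) (x y : Cf) : Prop :=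
  (x.s = 0 ∧ x.t = 0 ∧ 1 ≤ x.m ∧ x.M < 2 ^ x.m ∧ x.b + 1 = 2 ^ x.m ∧ x.i = 0) ∧
  (y.i = 0 ∧ (x.M < 2 ^ x.m ∧ y.M = x.M + 2 ^ x.m) ∧ y.m = 0 ∧ y.b = 0 ∧ y.k = x.k + 1 ∧
    P.lst y.s ∧ y.t = 1)

def R5 (x y : Cf) : Prop :=
  (x.i = 0 ∧ x.m = 0 ∧ x.b = 0 ∧ y.i = 0 ∧ y.M = x.M ∧ y.m = 0 ∧ y.b = 0 ∧ y.k = x.k) ∧
  (1 ≤ y.s ∧ x.s = y.s + 1) ∧ (1 ≤ x.t ∧ y.t = x.t + 1)

def R6 (P : Par) (x y : Cf) : Prop :=
  (x.i = 0 ∧ x.m = 0 ∧ x.b = 0 ∧ y.i = 0 ∧ y.M = x.M ∧ y.m = 0 ∧ y.b = 0 ∧ y.k = x.k) ∧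
  x.s = 1 ∧ P.nx x.t y.s ∧ y.t = 1 ∧ P.ρ y.s < P.B ^ y.k

def St (P : Par) (x y : Cf) : Prop :=
  R1 x y ∨ R2 x y ∨ R3 x y ∨ R4 P x y ∨ R5 x y ∨ R6 P x y

def Vd (x : Cf) : Prop :=
  (x.M = 0 ∧ x.m = 0 ∧ x.b = 0 ∧ x.k = 0 ∧ x.s = 0 ∧ x.t = 0) ∨
  (x.s = 0 ∧ x.t = 0 ∧ 1 ≤ x.m ∧ x.M < 2 ^ x.m ∧ x.b < 2 ^ x.m) ∨
  (x.i = 0 ∧ x.m = 0 ∧ x.b = 0 ∧ 1 ≤ x.s ∧ 1 ≤ x.t)

theorem lst_unique (P : Par) {p q : ℕ} (hp : P.lst p) (hq : P.lst q) : p = q := by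
  rcases lt_trichotomy (P.ρ p) (P.ρ q) with h | h | h
  · exact absurd ⟨hp.1, h⟩ (hq.2 p)
  · exact P.inj h
  · exact absurd ⟨hq.1, h⟩ (hp.2 q)

theorem add_pow_inj {M M' m m' : ℕ} (h : M < 2 ^ m) (h' : M' < 2 ^ m')
    (he : M + 2 ^ m = M' + 2 ^ m') : m = m' := by
  rcases lt_trichotomy m m' with h1 | h1 | h1
  · have : 2 ^ (m + 1) ≤ 2 ^ m' := Nat.pow_le_pow_right (by norm_num) h1
    rw [pow_succ] at this
    omega
  · exact h1
  · have : 2 ^ (m' + 1) ≤ 2 ^ m := Nat.pow_le_pow_right (by norm_num) h1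
    rw [pow_succ] at this
    omega

theorem St_dom (P : Par) (x y : Cf) (h : St P x y) : Vd x ∧ Vd y := by
  rcases h with h | h | h | h | h | h
  · unfold R1 at h
    refine ⟨Or.inl h.1, Or.inr (Or.inl ?_)⟩
    have : y.m = 1 := h.2.2.2.1
    rw [this]
    omega
  · unfold R2 at h
    refine ⟨Or.inr (Or.inl (by omega)), Or.inr (Or.inl ?_)⟩
    have : y.m = x.m := h.2.2.2.1
    rw [this]
    omega
  · unfold R3 at h
    refine ⟨Or.inr (Or.inl (by omega)), Or.inr (Or.inl ?_)⟩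
    have h1 : 2 ^ (x.m + 1) ≤ 2 ^ y.m := Nat.pow_le_pow_right (by norm_num) (by omega)
    rw [pow_succ] at h1
    have h2 : 0 < 2 ^ x.m := by positivity
    omega
  · unfold R4 at h
    refine ⟨Or.inr (Or.inl (by omega)), Or.inr (Or.inr ?_)⟩
    have h1 := h.2.2.2.2.2.2.1.1
    omega
  · unfold R5 at h
    exact ⟨Or.inr (Or.inr (by omega)), Or.inr (Or.inr (by omega))⟩
  · unfold R6 at h
    have h1 : 1 ≤ x.t := h.2.2.1.1
    have h2 : 1 ≤ y.s := h.2.2.1.2.1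
    exact ⟨Or.inr (Or.inr (by omega)), Or.inr (Or.inr (by omega))⟩

theorem St_func (P : Par) (x y z : Cf) (h : St P x y) (h' : St P x z) : y = z := by
  have key : y.i = z.i ∧ y.M = z.M ∧ y.m = z.m ∧ y.b = z.b ∧ y.k = z.k ∧ y.s = z.s ∧
      y.t = z.t := by
    rcases h with h | h | h | h | h | h <;> rcases h' with h' | h' | h' | h' | h' | h' <;>
    simp only [R1, R2, R3, R4, R5, R6] at h h' <;> try omega
    · have := lst_unique P h.2.2.2.2.2.2.1 h'.2.2.2.2.2.2.1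
      omega
    · have := h.2.2.1.func P.inj h'.2.2.1
      omega
  obtain ⟨h1, h2, h3, h4, h5, h6, h7⟩ := key
  exact Cf.ext h1 h2 h3 h4 h5 h6 h7

theorem St_inj (P : Par) (x y z : Cf) (h : St P x z) (h' : St P y z) : x = y := by
  have key : x.i = y.i ∧ x.M = y.M ∧ x.m = y.m ∧ x.b = y.b ∧ x.k = y.k ∧ x.s = y.s ∧
      x.t = y.t := by
    rcases h with h | h | h | h | h | h <;> rcases h' with h' | h' | h' | h' | h' | h' <;>
    simp only [R1, R2, R3, R4, R5, R6] at h h' <;> try omega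
    · have h1 := add_pow_inj h.2.1.1 h'.2.1.1 (by omega)
      rw [h1] at h
      omega
    · have h1 := add_pow_inj h.2.2.1.1 h'.2.2.1.1 (by omega)
      rw [h1] at h
      omega
    · exact absurd ⟨h'.2.2.1.1, h'.2.2.1.2.2.1⟩ (h.2.2.2.2.2.2.1.2 _)
    · exact absurd ⟨h.2.2.1.1, h.2.2.1.2.2.1⟩ (h'.2.2.2.2.2.2.1.2 _)
    · have := h.2.2.1.inj P.inj h'.2.2.1
      omega
  obtain ⟨h1, h2, h3, h4, h5, h6, h7⟩ := key
  exact Cf.ext h1 h2 h3 h4 h5 h6 h7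

/-- lexicographic order on triples -/
def Lx : ℕ × ℕ × ℕ → ℕ × ℕ × ℕ → Prop := Prod.Lex (· < ·) (Prod.Lex (· < ·) (· < ·))

theorem Lx_wf : WellFounded Lx :=
  WellFounded.prod_lex wellFounded_lt (WellFounded.prod_lex wellFounded_lt wellFounded_lt)

theorem Lx_of {p q : ℕ × ℕ × ℕ}
    (h : p.1 < q.1 ∨ (p.1 = q.1 ∧ (p.2.1 < q.2.1 ∨ (p.2.1 = q.2.1 ∧ p.2.2 < q.2.2)))) :
    Lx p q := by
  unfold Lx
  rw [Prod.lex_def, Prod.lex_def]
  exact h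

/-- forward rank -/
def fr (P : Par) (x : Cf) : ℕ × ℕ × ℕ :=
  if 1 ≤ x.m then (1, x.i, 2 ^ x.m - x.b) else
    if x.s = 0 then (2, 0, 0) else (0, P.B ^ x.k - P.ρ (x.s + x.t - 1), x.s)

/-- backward rank -/
def br (P : Par) (x : Cf) : ℕ × ℕ × ℕ :=
  if 1 ≤ x.m then (1, x.M, x.k) else
    if x.s = 0 then (0, 0, 0) else (2, P.ρ (x.s + x.t - 1), x.t)

theorem fr_lt (P : Par) (x y : Cf) (h : St P x y) : Lx (fr P y) (fr P x) := by
  apply Lx_of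
  rcases h with h | h | h | h | h | h
  · unfold R1 at h
    have h1 : 1 ≤ y.m := by omega
    have h2 : ¬ 1 ≤ x.m := by omega
    simp only [fr, if_pos h1, if_neg h2, if_pos h.1.2.2.2.2.1, true_and]
    omega
  · unfold R2 at h
    have h1 : 1 ≤ y.m := by omega
    have h2 : 1 ≤ x.m := by omega
    have h3 : y.m = x.m := h.2.2.2.1
    simp only [fr, if_pos h1, if_pos h2, h3, true_and]
    omega
  · unfold R3 at h
    have h1 : 1 ≤ y.m := by omega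
    have h2 : 1 ≤ x.m := by omega
    simp only [fr, if_pos h1, if_pos h2, true_and]
    omega
  · unfold R4 at h
    have h0 := h.2.2.2.2.2.2.1.1
    have h1 : ¬ 1 ≤ y.m := by omega
    have h2 : 1 ≤ x.m := by omega
    have h3 : ¬ y.s = 0 := by omega
    simp only [fr, if_neg h1, if_pos h2, if_neg h3, true_and]
    omega
  · unfold R5 at h
    have h1 : ¬ 1 ≤ y.m := by omega
    have h2 : ¬ 1 ≤ x.m := by omega
    have h3 : ¬ y.s = 0 := by omega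
    have h4 : ¬ x.s = 0 := by omega
    have h5 : y.k = x.k := by omega
    have h6 : y.s + y.t - 1 = x.s + x.t - 1 := by omega
    simp only [fr, if_neg h1, if_neg h2, if_neg h3, if_neg h4, h5, h6, true_and]
    omega
  · unfold R6 at h
    have h0 := h.2.2.1.2.1
    have h0' := h.2.2.1.2.2.1
    have h1 : ¬ 1 ≤ y.m := by omega
    have h2 : ¬ 1 ≤ x.m := by omega
    have h3 : ¬ y.s = 0 := by omega
    have h4 : ¬ x.s = 0 := by omega
    have h5 : y.k = x.k := by omega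
    have h6 : y.s + y.t - 1 = y.s := by omega
    have h7 : x.s + x.t - 1 = x.t := by omega
    have h8 := h.2.2.2.2
    simp only [fr, if_neg h1, if_neg h2, if_neg h3, if_neg h4, h5, h6, h7, true_and]
    rw [h5] at h8
    omega

theorem br_lt (P : Par) (x y : Cf) (h : St P x y) : Lx (br P x) (br P y) := by
  apply Lx_of
  rcases h with h | h | h | h | h | h
  · unfold R1 at h
    have h1 : 1 ≤ y.m := by omega
    have h2 : ¬ 1 ≤ x.m := by omega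
    simp only [br, if_pos h1, if_neg h2, if_pos h.1.2.2.2.2.1, true_and]
    omega
  · unfold R2 at h
    have h1 : 1 ≤ y.m := by omega
    have h2 : 1 ≤ x.m := by omega
    simp only [br, if_pos h1, if_pos h2, true_and]
    omega
  · unfold R3 at h
    have h1 : 1 ≤ y.m := by omega
    have h2 : 1 ≤ x.m := by omega
    have h3 : 0 < 2 ^ x.m := by positivity
    simp only [br, if_pos h1, if_pos h2, true_and]
    omega
  · unfold R4 at h
    have h0 := h.2.2.2.2.2.2.1.1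
    have h1 : ¬ 1 ≤ y.m := by omega
    have h2 : 1 ≤ x.m := by omega
    have h3 : ¬ y.s = 0 := by omega
    simp only [br, if_neg h1, if_pos h2, if_neg h3, true_and]
    omega
  · unfold R5 at h
    have h1 : ¬ 1 ≤ y.m := by omega
    have h2 : ¬ 1 ≤ x.m := by omega
    have h3 : ¬ y.s = 0 := by omega
    have h4 : ¬ x.s = 0 := by omega
    have h6 : y.s + y.t - 1 = x.s + x.t - 1 := by omega
    simp only [br, if_neg h1, if_neg h2, if_neg h3, if_neg h4, h6, true_and]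
    omega
  · unfold R6 at h
    have h0 := h.2.2.1.2.1
    have h0' := h.2.2.1.2.2.1
    have h1 : ¬ 1 ≤ y.m := by omega
    have h2 : ¬ 1 ≤ x.m := by omega
    have h3 : ¬ y.s = 0 := by omega
    have h4 : ¬ x.s = 0 := by omega
    have h6 : y.s + y.t - 1 = y.s := by omega
    have h7 : x.s + x.t - 1 = x.t := by omega
    simp only [br, if_neg h1, if_neg h2, if_neg h3, if_neg h4, h6, h7, true_and]
    omega

/-- The system of the machine. -/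
def mach (P : Par) (ρ' : Cf → ℕ) (h : Function.Injective ρ') : Sys Cf where
  V := Vd
  st := St P
  ρ := ρ'
  dom := St_dom P
  func := St_func P
  inj := fun x y z h h' => St_inj P x y z h h'
  fw := Subrelation.wf (fun {y x} h => fr_lt P x y h) (InvImage.wf (fr P) Lx_wf)
  bw := Subrelation.wf (fun {x y} h => br_lt P x y h) (InvImage.wf (br P) Lx_wf)
  ρinj := h

/-- the start configurations -/
def bare (n : ℕ) : Cf := ⟨n, 0, 0, 0, 0, 0, 0⟩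

theorem bare_A (P : Par) (ρ' : Cf → ℕ) (h : Function.Injective ρ') (n : ℕ) :
    (mach P ρ' h).A (bare n) := by
  refine ⟨Or.inl ⟨rfl, rfl, rfl, rfl, rfl, rfl⟩, ?_⟩
  rintro ⟨y, hy⟩
  rcases hy with h | h | h | h | h | h <;>
  simp only [R1, R2, R3, R4, R5, R6, bare] at h <;> omega

/-- tower function -/
def tow : ℕ → ℕ
  | 0 => 1
  | n + 1 => 2 ^ tow n

theorem tow_pos (n : ℕ) : 1 ≤ tow n := by
  cases n with
  | zero => exact le_rfl
  | succ n => exact Nat.one_le_two_pow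

theorem inf_starts (P : Par) (ρ' : Cf → ℕ) (h : Function.Injective ρ') (N : ℕ) :
    ∃ a, (mach P ρ' h).A a ∧ N ≤ ρ' a := by
  by_contra hcon
  push Not at hcon
  have h1 : Set.Infinite (Set.range (fun n => ρ' (bare n))) := by
    apply Set.infinite_range_of_injective
    intro a b hab
    exact congrArg Cf.i (h hab)
  apply h1
  apply (Set.finite_Iio N).subset
  rintro _ ⟨n, rfl⟩
  exact hcon _ (bare_A P ρ' h n)

/-- reachability in at least `N` steps -/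
def Rch (P : Par) (ρ' : Cf → ℕ) (h : Function.Injective ρ') (N : ℕ) (x y : Cf) : Prop :=
  ∃ n, N ≤ n ∧ (mach P ρ' h).Pn n x y

section
variable {P : Par} {ρ' : Cf → ℕ} {h : Function.Injective ρ'}

theorem Rch.trans {N M : ℕ} {x y z : Cf} (h1 : Rch P ρ' h N x y) (h2 : Rch P ρ' h M y z) :
    Rch P ρ' h (N + M) x z := by
  obtain ⟨n, hn, hp⟩ := h1
  obtain ⟨m, hm, hq⟩ := h2
  exact ⟨n + m, by omega, hp.trans hq⟩

theorem Rch.single {x y : Cf} (h1 : St P x y) : Rch P ρ' h 0 x y :=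
  ⟨1, by omega, Sys.Pn.succ h1 (Sys.Pn.zero y)⟩

theorem Rch.refl (x : Cf) : Rch P ρ' h 0 x x := ⟨0, le_rfl, Sys.Pn.zero x⟩

theorem rch_count (i M m : ℕ) (hm : 1 ≤ m) (hM : M < 2 ^ m) (j : ℕ) (hj : j + 1 ≤ 2 ^ m) :
    Rch P ρ' h 0 ⟨i, M, m, 0, 0, 0, 0⟩ ⟨i, M, m, j, j, 0, 0⟩ := by
  induction j with
  | zero => exact Rch.refl _
  | succ j ih =>
    refine (ih (by omega)).trans (Rch.single ?_)
    refine Or.inr (Or.inl ⟨⟨rfl, rfl, hm, hM, ?_⟩, rfl, rfl, rfl, rfl, rfl, rfl, rfl⟩)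
    show j + 1 < 2 ^ m
    omega

theorem rch_push (i M m : ℕ) (hm : 1 ≤ m) (hM : M < 2 ^ m) :
    Rch P ρ' h 0 ⟨i + 1, M, m, 0, 0, 0, 0⟩ ⟨i, M + 2 ^ m, 2 ^ m, 0, 0, 0, 0⟩ := by
  have hpos : 1 ≤ 2 ^ m := Nat.one_le_two_pow
  have hlt : m < 2 ^ m := Nat.lt_two_pow_self
  refine (rch_count (i + 1) M m hm hM (2 ^ m - 1) (by omega)).trans (Rch.single ?_)
  refine Or.inr (Or.inr (Or.inl ⟨⟨rfl, rfl, hm, hM, ?_, rfl⟩, ⟨hM, rfl⟩, hlt, ?_, rfl, rfl, rfl,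
    rfl⟩))
  · show 2 ^ m - 1 + 1 = 2 ^ m
    omega
  · show 2 ^ m = 2 ^ m - 1 + 1
    omega

theorem rch_tower (n : ℕ) : ∀ (j M : ℕ), M < 2 ^ tow j →
    ∃ M', M' < 2 ^ tow (j + n) ∧
      Rch P ρ' h 0 ⟨n, M, tow j, 0, 0, 0, 0⟩ ⟨0, M', tow (j + n), 0, 0, 0, 0⟩ := by
  induction n with
  | zero => exact fun j M hM => ⟨M, hM, Rch.refl _⟩
  | succ n ih =>
    intro j M hM
    have h1 : tow j < tow (j + 1) := Nat.lt_two_pow_self
    have h2 : M + 2 ^ tow j < 2 ^ tow (j + 1) := by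
      have h3 : 2 ^ (tow j + 1) ≤ 2 ^ tow (j + 1) := Nat.pow_le_pow_right (by norm_num) h1
      rw [pow_succ] at h3
      omega
    obtain ⟨M', hM', hr⟩ := ih (j + 1) (M + 2 ^ tow j) h2
    refine ⟨M', by rw [show j + (n + 1) = j + 1 + n by ring]; exact hM', ?_⟩
    rw [show j + (n + 1) = j + 1 + n by ring]
    exact (rch_push n M (tow j) (tow_pos j) hM).trans hr

theorem rch_down (M K : ℕ) (c : ℕ) : ∀ (s t : ℕ), 1 ≤ s → 1 ≤ t →
    Rch P ρ' h c ⟨0, M, 0, 0, K, s + c, t⟩ ⟨0, M, 0, 0, K, s, t + c⟩ := by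
  induction c with
  | zero => exact fun s t _ _ => Rch.refl _
  | succ c ih =>
    intro s t hs ht
    have h1 := ih s (t + 1) hs (by omega)
    have h2 : (mach P ρ' h).st ⟨0, M, 0, 0, K, s + (c + 1), t⟩ ⟨0, M, 0, 0, K, s + c, t + 1⟩ := by
      refine Or.inr (Or.inr (Or.inr (Or.inr (Or.inl ⟨⟨rfl, rfl, rfl, rfl, rfl, rfl, rfl, rfl⟩,
        ⟨?_, rfl⟩, ht, rfl⟩))))
      show 1 ≤ s + c
      omega
    obtain ⟨n, hn, hp⟩ := h1
    refine ⟨n + 1, by omega, Sys.Pn.succ h2 ?_⟩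
    rw [show t + (c + 1) = t + 1 + c by ring]
    exact hp

theorem rch_all (M K q : ℕ) (hq : P.lst q) : ∀ (r c : ℕ), P.ρ c = r → 1 ≤ c → r < P.B ^ K →
    Rch P ρ' h 0 ⟨0, M, 0, 0, K, q, 1⟩ ⟨0, M, 0, 0, K, c, 1⟩ := by
  intro r
  induction r using Nat.strong_induction_on with
  | _ r ih =>
    intro c hc h1 hK
    by_cases h2 : P.ρ q < P.ρ c
    · obtain ⟨d, hd⟩ := Nx.exists_prev (A := fun s => 1 ≤ s) (ρ := P.ρ) (a := c) (b := q)
        h1 hq.1 h2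
      have hd1 : 1 ≤ d := hd.1
      have hd2 : P.ρ d < P.ρ c := hd.2.2.1
      have h3 := ih (P.ρ d) (by omega) d rfl hd1 (by omega)
      have h4 := rch_down (P := P) (ρ' := ρ') (h := h) M K (d - 1) 1 1 le_rfl le_rfl
      rw [show 1 + (d - 1) = d by omega] at h4
      have h5 : Rch P ρ' h 0 ⟨0, M, 0, 0, K, 1, d⟩ ⟨0, M, 0, 0, K, c, 1⟩ := by
        apply Rch.single
        refine Or.inr (Or.inr (Or.inr (Or.inr (Or.inr ⟨⟨rfl, rfl, rfl, rfl, rfl, rfl, rfl, rfl⟩,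
          rfl, hd, rfl, ?_⟩))))
        show P.ρ c < P.B ^ K
        omega
      obtain ⟨n, _, hn⟩ := (h3.trans h4).trans h5
      exact ⟨n, by omega, hn⟩
    · have : q = c := P.inj (le_antisymm (by
        by_contra h4
        exact hq.2 c ⟨h1, by omega⟩) (not_lt.mp h2))
      subst this
      exact Rch.refl _

theorem growth (P : Par) (ρ' : Cf → ℕ) (h : Function.Injective ρ') (N c : ℕ) (hc : 1 ≤ c)
    (hK : P.ρ c < P.B ^ tow (N + 1)) :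
    ∃ n x, c ≤ n + 1 ∧ (mach P ρ' h).Pn n (bare N) x := by
  classical
  obtain ⟨q, hq⟩ : ∃ q, P.lst q := by
    have hex : ∃ r, ∃ q, 1 ≤ q ∧ P.ρ q = r := ⟨_, 1, le_rfl, rfl⟩
    obtain ⟨q, hq, hr⟩ := Nat.find_spec hex
    refine ⟨q, hq, ?_⟩
    rintro w ⟨hw, hlt⟩
    exact Nat.find_min hex (m := P.ρ w) (by omega) ⟨w, hw, rfl⟩
  have h1 : Rch P ρ' h 0 (bare N) ⟨N, 0, 1, 0, 0, 0, 0⟩ := by
    apply Rch.single
    exact Or.inl ⟨⟨rfl, rfl, rfl, rfl, rfl, rfl⟩, rfl, rfl, rfl, rfl, rfl, rfl, rfl⟩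
  obtain ⟨M', hM', h2⟩ := rch_tower (P := P) (ρ' := ρ') (h := h) N 0 0 (by norm_num)
  rw [Nat.zero_add] at h2 hM'
  have h3 := rch_count (P := P) (ρ' := ρ') (h := h) 0 M' (tow N) (tow_pos N) hM'
    (2 ^ tow N - 1) (by have : 1 ≤ 2 ^ tow N := Nat.one_le_two_pow; omega)
  have h4 : Rch P ρ' h 0 ⟨0, M', tow N, 2 ^ tow N - 1, 2 ^ tow N - 1, 0, 0⟩
      ⟨0, M' + 2 ^ tow N, 0, 0, tow (N + 1), q, 1⟩ := by
    have hp : 1 ≤ 2 ^ tow N := Nat.one_le_two_pow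
    apply Rch.single
    refine Or.inr (Or.inr (Or.inr (Or.inl ⟨⟨rfl, rfl, tow_pos N, hM', ?_, rfl⟩, rfl, ⟨hM', rfl⟩,
      rfl, rfl, ?_, hq, rfl⟩)))
    · show 2 ^ tow N - 1 + 1 = 2 ^ tow N
      omega
    · show 2 ^ tow N = 2 ^ tow N - 1 + 1
      omega
  have h5 := rch_all (P := P) (ρ' := ρ') (h := h) (M' + 2 ^ tow N) (tow (N + 1)) q hq _ c rfl hc hK
  have h6 := rch_down (P := P) (ρ' := ρ') (h := h) (M' + 2 ^ tow N) (tow (N + 1)) (c - 1) 1 1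
    le_rfl le_rfl
  rw [show 1 + (c - 1) = c by omega] at h6
  obtain ⟨n, hn, hp⟩ := ((((h1.trans h2).trans h3).trans h4).trans h5).trans h6
  exact ⟨n, _, by omega, hp⟩

end

end R336.AutChain
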