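import Mathlib

/-!
# Regular predicates on finitely supported functions `ℕ → C`

A small toolkit: closure of finite-automaton recognisable predicates under the
first order operations, automatic structures on types.
-/

set_option autoImplicit false

namespace R336.AutReg

/-- The run of an automaton along the values of a function. -/
def run {σ C : Type} (s0 : σ) (step : σ → C → σ) (f : ℕ → C) : ℕ → σ
  | 0 => s0
  | n + 1 => step (run s0 step f n) (f n)

theorem run_congr {σ C : Type} (s0 : σ) (step : σ → C → σ) (f g : ℕ → C) (N : ℕ)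
    (h : ∀ n, n < N → f n = g n) : run s0 step f N = run s0 step g N := by
  induction N with
  | zero => rfl
  | succ N ih =>
    simp only [run]
    rw [ih (fun n hn => h n (by omega)), h N (by omega)]

theorem run_add {σ C : Type} (s0 : σ) (step : σ → C → σ) (f : ℕ → C) (N M : ℕ) :
    run s0 step f (N + M) = run (run s0 step f N) step (fun n => f (N + n)) M := by
  induction M with
  | zero => rfl
  | succ M ih =>
    show step (run s0 step f (N + M)) (f (N + M)) = _
    rw [ih]; rfl

/-- `P` is recognised by a finite automaton, on the functions with finite support. -/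
def Reg {C : Type} [Inhabited C] (P : (ℕ → C) → Prop) : Prop :=
  ∃ (σ : Type) (_ : Finite σ) (s0 : σ) (step : σ → C → σ) (acc : Set σ),
    ∀ (f : ℕ → C) (N : ℕ), (∀ n, N ≤ n → f n = default) → (run s0 step f N ∈ acc ↔ P f)

/-- finite support -/
def FS {C : Type} [Inhabited C] (f : ℕ → C) : Prop := ∃ N, ∀ n, N ≤ n → f n = default

theorem Reg.congr {C : Type} [Inhabited C] {P Q : (ℕ → C) → Prop} (h : Reg P)
    (hPQ : ∀ f, FS f → (P f ↔ Q f)) : Reg Q := by
  obtain ⟨σ, hσ, s0, step, acc, hM⟩ := h
  exact ⟨σ, hσ, s0, step, acc, fun f N hf => (hM f N hf).trans (hPQ f ⟨N, hf⟩)⟩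

theorem Reg.not {C : Type} [Inhabited C] {P : (ℕ → C) → Prop} (h : Reg P) :
    Reg (fun f => ¬ P f) := by
  obtain ⟨σ, hσ, s0, step, acc, hM⟩ := h
  refine ⟨σ, hσ, s0, step, accᶜ, fun f N hf => ?_⟩
  rw [Set.mem_compl_iff, hM f N hf]

theorem Reg.and {C : Type} [Inhabited C] {P Q : (ℕ → C) → Prop} (h : Reg P) (h' : Reg Q) :
    Reg (fun f => P f ∧ Q f) := by
  obtain ⟨σ, hσ, s0, step, acc, hM⟩ := h
  obtain ⟨σ', hσ', s0', step', acc', hM'⟩ := h'
  refine ⟨σ × σ', inferInstance, (s0, s0'), fun s c => (step s.1 c, step' s.2 c),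
    {s | s.1 ∈ acc ∧ s.2 ∈ acc'}, fun f N hf => ?_⟩
  have key : ∀ n, run (s0, s0') (fun (s : σ × σ') c => (step s.1 c, step' s.2 c)) f n
      = (run s0 step f n, run s0' step' f n) := by
    intro n
    induction n with
    | zero => rfl
    | succ n ih => simp only [run, ih]
  rw [Set.mem_ofPred_eq, key, hM f N hf, hM' f N hf]

theorem Reg.or {C : Type} [Inhabited C] {P Q : (ℕ → C) → Prop} (h : Reg P) (h' : Reg Q) :
    Reg (fun f => P f ∨ Q f) :=
  ((h.not.and h'.not).not).congr (fun f _ => by tauto)

theorem Reg.comp {C D : Type} [Inhabited C] [Inhabited D] {P : (ℕ → D) → Prop} (h : Reg P)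
    (g : C → D) (hg : g default = default) : Reg (fun f : ℕ → C => P (fun n => g (f n))) := by
  obtain ⟨σ, hσ, s0, step, acc, hM⟩ := h
  refine ⟨σ, hσ, s0, fun s c => step s (g c), acc, fun f N hf => ?_⟩
  have key : ∀ n, run s0 (fun s c => step s (g c)) f n = run s0 step (fun n => g (f n)) n := by
    intro n
    induction n with
    | zero => rfl
    | succ n ih => simp only [run, ih]
  rw [key]
  exact hM _ N (fun n hn => by simp only [hf n hn, hg])

theorem Reg.ex {C D : Type} [Inhabited C] [Inhabited D] {P : (ℕ → C × D) → Prop} (h : Reg P) :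
    Reg (fun f : ℕ → C => ∃ g : ℕ → D, FS g ∧ P (fun n => (f n, g n))) := by
  classical
  obtain ⟨σ, hσ, s0, step, acc, hM⟩ := h
  refine ⟨Set σ, inferInstance, {s0}, fun S c => {s' | ∃ s ∈ S, ∃ d, s' = step s (c, d)},
    {S | ∃ s ∈ S, ∃ (e : ℕ → D) (M : ℕ), (∀ n, M ≤ n → e n = default) ∧
      run s step (fun n => (default, e n)) M ∈ acc}, fun f N hf => ?_⟩
  have key : ∀ n, run ({s0} : Set σ) (fun S c => {s' | ∃ s ∈ S, ∃ d, s' = step s (c, d)}) f n
      = {s | ∃ g : ℕ → D, s = run s0 step (fun n => (f n, g n)) n} := by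
    intro n
    induction n with
    | zero =>
      ext s
      simp only [run, Set.mem_singleton_iff, Set.mem_ofPred_eq]
      constructor
      · intro hs; exact ⟨fun _ => default, hs⟩
      · rintro ⟨_, hs⟩; exact hs
    | succ n ih =>
      ext s
      simp only [run, ih, Set.mem_ofPred_eq]
      constructor
      · rintro ⟨s', ⟨g, hg⟩, d, hd⟩
        refine ⟨Function.update g n d, ?_⟩
        rw [Function.update_self, hd, hg]
        congr 1
        apply run_congr
        intro m hm
        rw [Function.update_of_ne (by omega)]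
      · rintro ⟨g, hg⟩
        exact ⟨_, ⟨g, rfl⟩, g n, hg⟩
  rw [Set.mem_ofPred_eq, key]
  constructor
  · rintro ⟨s, ⟨g, hg⟩, e, M, he, hacc⟩
    let g' : ℕ → D := fun n => if n < N then g n else e (n - N)
    have hg' : ∀ n, N + M ≤ n → g' n = default := by
      intro n hn
      show (if n < N then g n else e (n - N)) = default
      rw [if_neg (by omega)]
      exact he _ (by omega)
    refine ⟨g', ⟨N + M, hg'⟩, ?_⟩
    rw [← hM (fun n => (f n, g' n)) (N + M) (fun n hn => by
      simp only [hf n (by omega), hg' n hn]; rfl), run_add]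
    have h1 : run s0 step (fun n => (f n, g' n)) N = s := by
      rw [hg]
      apply run_congr
      intro n hn
      show (f n, if n < N then g n else e (n - N)) = _
      rw [if_pos hn]
    have h2 : (fun n => (fun n => (f n, g' n)) (N + n)) = fun n => ((default : C), e n) := by
      funext n
      show (f (N + n), if N + n < N then g (N + n) else e (N + n - N)) = _
      rw [if_neg (by omega), hf _ (by omega)]
      congr 2
      omega
    rw [h1, h2]
    exact hacc
  · rintro ⟨g, ⟨M, hg⟩, hP⟩
    refine ⟨_, ⟨g, rfl⟩, fun n => g (N + n), M, fun n hn => hg _ (by omega), ?_⟩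
    have h2 : (fun n => ((default : C), g (N + n))) =
        fun n => (fun n => (f n, g n)) (N + n) := by
      funext n
      show _ = (f (N + n), g (N + n))
      rw [hf _ (by omega)]
    rw [h2, ← run_add, hM (fun n => (f n, g n)) (N + M) (fun n hn => by
      simp only [hf n (by omega), hg n (by omega)]; rfl)]
    exact hP

theorem Reg.local {C : Type} [Inhabited C] [Finite C] (I : C → Prop) (P : C → C → Prop) :
    Reg (fun f : ℕ → C => I (f 0) ∧ ∀ n, P (f n) (f (n + 1))) := by
  refine ⟨Option C × Prop, inferInstance, (none, True),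
    fun s c => (some c, s.2 ∧ match s.1 with | none => I c | some c' => P c' c),
    {s | s.2 ∧ (match s.1 with | none => I default | some c' => P c' default) ∧
      P default default}, fun f N hf => ?_⟩
  have key : ∀ n, run ((none, True) : Option C × Prop)
      (fun s c => (some c, s.2 ∧ match s.1 with | none => I c | some c' => P c' c)) f (n + 1)
      = (some (f n), I (f 0) ∧ ∀ m, m < n → P (f m) (f (m + 1))) := by
    intro n
    induction n with
    | zero => simp [run]
    | succ n ih =>
      rw [run, ih]
      simp only [Prod.mk.injEq, eq_iff_iff, true_and]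
      constructor
      · rintro ⟨⟨h1, h2⟩, h3⟩
        refine ⟨h1, fun m hm => ?_⟩
        rcases Nat.lt_succ_iff_lt_or_eq.mp hm with h | h
        · exact h2 m h
        · subst h; exact h3
      · rintro ⟨h1, h2⟩
        exact ⟨⟨h1, fun m hm => h2 m (by omega)⟩, h2 n (by omega)⟩
  cases N with
  | zero =>
    simp only [run, Set.mem_ofPred_eq, true_and]
    constructor
    · rintro ⟨h1, h2⟩
      refine ⟨by rw [hf 0 (by omega)]; exact h1, fun n => ?_⟩
      rw [hf n (by omega), hf (n + 1) (by omega)]; exact h2
    · rintro ⟨h1, h2⟩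
      refine ⟨by rw [hf 0 (by omega)] at h1; exact h1, ?_⟩
      have := h2 0
      rwa [hf 0 (by omega), hf 1 (by omega)] at this
  | succ N =>
    rw [key]
    simp only [Set.mem_ofPred_eq]
    constructor
    · rintro ⟨⟨h1, h2⟩, h3, h4⟩
      refine ⟨h1, fun n => ?_⟩
      rcases lt_trichotomy n N with h | h | h
      · exact h2 n h
      · subst h; rw [hf (n + 1) (by omega)]; exact h3
      · rw [hf n (by omega), hf (n + 1) (by omega)]; exact h4
    · rintro ⟨h1, h2⟩
      refine ⟨⟨h1, fun m _ => h2 m⟩, ?_, ?_⟩
      · have := h2 N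
        rwa [hf (N + 1) (by omega)] at this
      · have := h2 (N + 1)
        rwa [hf (N + 1) (by omega), hf (N + 1 + 1) (by omega)] at this

/-- An automatic encoding of a type. -/
structure AutS (A : Type) where
  C : Type
  [finC : Finite C]
  [inhC : Inhabited C]
  enc : A → ℕ → C
  inj : Function.Injective enc
  fs : ∀ a, FS (enc a)
  img : Reg (fun f : ℕ → C => ∃ a, enc a = f)

attribute [instance] AutS.finC AutS.inhC

/-- The predicate `R` is automatic for the encoding `S`. -/
def AutS.Is {A : Type} (S : AutS A) (R : A → Prop) : Prop :=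
  Reg (fun f : ℕ → S.C => ∃ a, S.enc a = f ∧ R a)

theorem AutS.Is.congr {A : Type} {S : AutS A} {R R' : A → Prop} (h : S.Is R)
    (hR : ∀ a, R a ↔ R' a) : S.Is R' := by
  have : R = R' := funext (fun a => propext (hR a))
  rw [← this]; exact h

theorem AutS.Is.not {A : Type} {S : AutS A} {R : A → Prop} (h : S.Is R) :
    S.Is (fun a => ¬ R a) := by
  refine (S.img.and (Reg.not h)).congr (fun f _ => ?_)
  constructor
  · rintro ⟨⟨a, ha⟩, h2⟩
    exact ⟨a, ha, fun hR => h2 ⟨a, ha, hR⟩⟩
  · rintro ⟨a, ha, hR⟩
    refine ⟨⟨a, ha⟩, ?_⟩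
    rintro ⟨b, hb, hRb⟩
    have : a = b := S.inj (ha.trans hb.symm)
    subst this
    exact hR hRb

theorem AutS.Is.and {A : Type} {S : AutS A} {R R' : A → Prop} (h : S.Is R) (h' : S.Is R') :
    S.Is (fun a => R a ∧ R' a) := by
  refine (Reg.and h h').congr (fun f _ => ?_)
  constructor
  · rintro ⟨⟨a, ha, hR⟩, ⟨b, hb, hRb⟩⟩
    have : a = b := S.inj (ha.trans hb.symm)
    subst this
    exact ⟨a, ha, hR, hRb⟩
  · rintro ⟨a, ha, hR, hR'⟩
    exact ⟨⟨a, ha, hR⟩, ⟨a, ha, hR'⟩⟩

theorem AutS.Is.or {A : Type} {S : AutS A} {R R' : A → Prop} (h : S.Is R) (h' : S.Is R') :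
    S.Is (fun a => R a ∨ R' a) :=
  ((h.not.and h'.not).not).congr (fun a => by tauto)

/-- product encoding -/
@[reducible] def AutS.prod {A B : Type} (S : AutS A) (T : AutS B) : AutS (A × B) where
  C := S.C × T.C
  enc p n := (S.enc p.1 n, T.enc p.2 n)
  inj := by
    rintro ⟨a, b⟩ ⟨a', b'⟩ h
    have h1 : S.enc a = S.enc a' := funext (fun n => congrArg Prod.fst (congrFun h n))
    have h2 : T.enc b = T.enc b' := funext (fun n => congrArg Prod.snd (congrFun h n))
    rw [S.inj h1, T.inj h2]
  fs := by
    rintro ⟨a, b⟩
    obtain ⟨N, hN⟩ := S.fs a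
    obtain ⟨M, hM⟩ := T.fs b
    refine ⟨max N M, fun n hn => ?_⟩
    show (S.enc a n, T.enc b n) = default
    rw [hN n (le_trans (le_max_left _ _) hn), hM n (le_trans (le_max_right _ _) hn)]
    rfl
  img := by
    have h1 := S.img.comp (C := S.C × T.C) (Prod.fst) rfl
    have h2 := T.img.comp (C := S.C × T.C) (Prod.snd) rfl
    refine (h1.and h2).congr (fun f _ => ?_)
    constructor
    · rintro ⟨⟨a, ha⟩, ⟨b, hb⟩⟩
      refine ⟨(a, b), ?_⟩
      funext n
      show (S.enc a n, T.enc b n) = f n
      rw [ha, hb]
    · rintro ⟨⟨a, b⟩, h⟩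
      exact ⟨⟨a, funext (fun n => congrArg Prod.fst (congrFun h n))⟩,
        ⟨b, funext (fun n => congrArg Prod.snd (congrFun h n))⟩⟩

theorem AutS.Is.ex {A B : Type} {S : AutS A} {T : AutS B} {R : A × B → Prop}
    (h : (S.prod T).Is R) : S.Is (fun a => ∃ b, R (a, b)) := by
  have h1 : Reg (fun f : ℕ → S.C => ∃ g : ℕ → T.C, FS g ∧
      (fun F : ℕ → S.C × T.C => ∃ p, (S.prod T).enc p = F ∧ R p) (fun n => (f n, g n))) :=
    Reg.ex h
  refine h1.congr (fun f _ => ?_)
  constructor
  · rintro ⟨g, _, ⟨a, b⟩, hp, hR⟩
    exact ⟨a, funext (fun n => congrArg Prod.fst (congrFun hp n)), b, hR⟩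
  · rintro ⟨a, ha, b, hR⟩
    refine ⟨T.enc b, T.fs b, (a, b), ?_, hR⟩
    funext n
    show (S.enc a n, T.enc b n) = _
    rw [ha]

theorem AutS.Is.comap {A B : Type} {S : AutS A} {T : AutS B} {R : B → Prop} (h : T.Is R)
    (g : A → B) (g' : S.C → T.C) (h0 : g' default = default)
    (hg : ∀ a n, T.enc (g a) n = g' (S.enc a n)) : S.Is (fun a => R (g a)) := by
  refine (S.img.and (Reg.comp (C := S.C) h g' h0)).congr (fun f _ => ?_)
  constructor
  · rintro ⟨⟨a, ha⟩, ⟨b, hb, hR⟩⟩
    have : g a = b := T.inj (by
      rw [hb]; funext n; rw [hg, ha])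
    subst this
    exact ⟨a, ha, hR⟩
  · rintro ⟨a, ha, hR⟩
    refine ⟨⟨a, ha⟩, ⟨g a, ?_, hR⟩⟩
    funext n
    rw [hg, ha]

theorem AutS.Is.of_aut {A : Type} {S : AutS A} {R : A → Prop} {σ : Type} [Finite σ]
    (s0 : σ) (step : σ → S.C → σ) (acc : Set σ)
    (h : ∀ a N, (∀ n, N ≤ n → S.enc a n = default) → (run s0 step (S.enc a) N ∈ acc ↔ R a)) :
    S.Is R := by
  obtain ⟨σ', hσ', s0', step', acc', hM'⟩ := S.img
  refine ⟨σ × σ', inferInstance, (s0, s0'), fun s c => (step s.1 c, step' s.2 c),
    {s | s.1 ∈ acc ∧ s.2 ∈ acc'}, fun f N hf => ?_⟩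
  have key : ∀ n, run (s0, s0') (fun (s : σ × σ') c => (step s.1 c, step' s.2 c)) f n
      = (run s0 step f n, run s0' step' f n) := by
    intro n
    induction n with
    | zero => rfl
    | succ n ih => simp only [run, ih]
  rw [Set.mem_ofPred_eq, key, hM' f N hf]
  constructor
  · rintro ⟨h1, a, ha⟩
    subst ha
    exact ⟨a, rfl, (h a N hf).mp h1⟩
  · rintro ⟨a, ha, hR⟩
    subst ha
    exact ⟨(h a N hf).mpr hR, a, rfl⟩

theorem AutS.Is.of_reg {A : Type} {S : AutS A} {R : A → Prop} {P : (ℕ → S.C) → Prop}
    (hP : Reg P) (h : ∀ a, P (S.enc a) ↔ R a) : S.Is R := by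
  refine (S.img.and hP).congr (fun f _ => ?_)
  constructor
  · rintro ⟨⟨a, ha⟩, h2⟩
    subst ha
    exact ⟨a, rfl, (h a).mp h2⟩
  · rintro ⟨a, ha, hR⟩
    subst ha
    exact ⟨⟨a, rfl⟩, (h a).mpr hR⟩

/-- A condition on the letters only. -/
theorem AutS.Is.letter {A : Type} {S : AutS A} {R : A → Prop} (P : S.C → Prop)
    (h : ∀ a, (∀ n, P (S.enc a n)) ↔ R a) : S.Is R := by
  refine AutS.Is.of_reg (Reg.local (fun c => P c) (fun c d => P d)) (fun a => ?_)
  rw [← h]
  constructor
  · rintro ⟨h1, h2⟩ n
    cases n with
    | zero => exact h1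
    | succ n => exact h2 n
  · intro h1
    exact ⟨h1 0, fun n => h1 (n + 1)⟩

theorem AutS.Is.local {A : Type} {S : AutS A} {R : A → Prop} (I : S.C → Prop)
    (P : S.C → S.C → Prop)
    (h : ∀ a, (I (S.enc a 0) ∧ ∀ n, P (S.enc a n) (S.enc a (n + 1))) ↔ R a) : S.Is R :=
  AutS.Is.of_reg (Reg.local I P) h

theorem AutS.Is.eq {A : Type} (S : AutS A) : (S.prod S).Is (fun p => p.1 = p.2) := by
  refine AutS.Is.letter (S := S.prod S) (fun c : S.C × S.C => c.1 = c.2) (fun p => ?_)
  constructor
  · intro h
    exact S.inj (funext h)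
  · intro h n
    show S.enc p.1 n = S.enc p.2 n
    rw [h]

theorem AutS.Is.all {A B : Type} {S : AutS A} {T : AutS B} {R : A × B → Prop}
    (h : (S.prod T).Is R) : S.Is (fun a => ∀ b, R (a, b)) :=
  (AutS.Is.not (AutS.Is.ex (AutS.Is.not h))).congr (fun a => by push Not; rfl)

theorem AutS.Is.imp {A : Type} {S : AutS A} {R R' : A → Prop} (h : S.Is R) (h' : S.Is R') :
    S.Is (fun a => R a → R' a) :=
  (h.not.or h').congr (fun a => by tauto)

/-! ### Order -/

/-- value in base `B` -/
def val {C : Type} (r : C → ℕ) (B : ℕ) (f : ℕ → C) : ℕ → ℕ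
  | 0 => 0
  | n + 1 => val r B f n + r (f n) * B ^ n

theorem val_lt {C : Type} (r : C → ℕ) (B : ℕ) (hr : ∀ c, r c < B) (f : ℕ → C) (n : ℕ) :
    val r B f n < B ^ n := by
  induction n with
  | zero => simp [val]
  | succ n ih =>
    have h1 : r (f n) + 1 ≤ B := hr _
    have h2 : (r (f n) + 1) * B ^ n ≤ B * B ^ n := Nat.mul_le_mul_right _ h1
    rw [val, pow_succ]
    nlinarith

theorem val_mono {C : Type} (r : C → ℕ) (B : ℕ) (f : ℕ → C) (n k : ℕ) :
    val r B f n ≤ val r B f (n + k) := by
  induction k with
  | zero => exact le_rfl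
  | succ k ih => exact le_trans ih (Nat.le_add_right _ _)

theorem val_stable {C : Type} [Inhabited C] (r : C → ℕ) (h0 : r default = 0) (B : ℕ)
    (f : ℕ → C) (N : ℕ) (hf : ∀ n, N ≤ n → f n = default) (k : ℕ) :
    val r B f (N + k) = val r B f N := by
  induction k with
  | zero => rfl
  | succ k ih =>
    show val r B f (N + k) + r (f (N + k)) * B ^ (N + k) = _
    rw [ih, hf _ (by omega), h0]; omega

/-- the comparison automaton -/
def cmpStep {C : Type} (r : C → ℕ) (s : Ordering) (c : C × C) : Ordering :=
  if r c.1 < r c.2 then Ordering.lt else if r c.2 < r c.1 then Ordering.gt else s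

theorem cmp_run {C : Type} (r : C → ℕ) (B : ℕ) (hr : ∀ c, r c < B) (f g : ℕ → C) (n : ℕ) :
    run Ordering.eq (cmpStep r) (fun n => (f n, g n)) n
      = compare (val r B f n) (val r B g n) := by
  induction n with
  | zero => rfl
  | succ n ih =>
    rw [run, ih, cmpStep, val, val]
    have hf := val_lt r B hr f n
    have hg := val_lt r B hr g n
    have hB : 0 < B ^ n := by
      have : 0 < B := lt_of_le_of_lt (Nat.zero_le _) (hr (f n))
      positivity
    simp only
    split_ifs with h1 h2
    · symm
      rw [Nat.compare_eq_lt]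
      have : (r (f n) + 1) * B ^ n ≤ r (g n) * B ^ n := Nat.mul_le_mul_right _ h1
      nlinarith
    · symm
      rw [Nat.compare_eq_gt]
      have : (r (g n) + 1) * B ^ n ≤ r (f n) * B ^ n := Nat.mul_le_mul_right _ h2
      nlinarith
    · have h3 : r (f n) = r (g n) := by omega
      rw [h3]
      rcases lt_trichotomy (val r B f n) (val r B g n) with h | h | h
      · rw [Nat.compare_eq_lt.mpr h, Nat.compare_eq_lt.mpr (by omega)]
      · rw [h]; simp
      · rw [Nat.compare_eq_gt.mpr h, Nat.compare_eq_gt.mpr (by omega)]

theorem val_inj {C : Type} (r : C → ℕ) (hinj : Function.Injective r) (B : ℕ)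
    (hr : ∀ c, r c < B) (f g : ℕ → C) (N : ℕ) (h : val r B f N = val r B g N) :
    ∀ n, n < N → f n = g n := by
  induction N with
  | zero => intro n hn; omega
  | succ N ih =>
    rw [val, val] at h
    have hf := val_lt r B hr f N
    have hg := val_lt r B hr g N
    have h3 : r (f N) = r (g N) := by
      rcases lt_trichotomy (r (f N)) (r (g N)) with h1 | h1 | h1
      · exfalso
        have : (r (f N) + 1) * B ^ N ≤ r (g N) * B ^ N := Nat.mul_le_mul_right _ h1
        nlinarith
      · exact h1
      · exfalso
        have : (r (g N) + 1) * B ^ N ≤ r (f N) * B ^ N := Nat.mul_le_mul_right _ h1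
        nlinarith
    rw [h3] at h
    intro n hn
    rcases Nat.lt_succ_iff_lt_or_eq.mp hn with h4 | h4
    · exact ih (by omega) n h4
    · subst h4; exact hinj h3

/-- value of a finitely supported function -/
noncomputable def V {C : Type} [Inhabited C] (r : C → ℕ) (B : ℕ) (f : ℕ → C) : ℕ := by
  classical
  exact if h : FS f then val r B f (Classical.choose h) else 0

theorem V_eq {C : Type} [Inhabited C] (r : C → ℕ) (h0 : r default = 0) (B : ℕ)
    (f : ℕ → C) (N : ℕ) (hf : ∀ n, N ≤ n → f n = default) : V r B f = val r B f N := by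
  have h : FS f := ⟨N, hf⟩
  unfold V
  rw [dif_pos h]
  have hM := Classical.choose_spec h
  generalize Classical.choose h = M at hM
  rcases le_total N M with h1 | h1
  · obtain ⟨k, rfl⟩ := Nat.exists_eq_add_of_le h1
    exact val_stable r h0 B f N hf k
  · obtain ⟨k, rfl⟩ := Nat.exists_eq_add_of_le h1
    exact (val_stable r h0 B f M hM k).symm

theorem AutS.order {A : Type} (S : AutS A) (r : S.C → ℕ) (h0 : r default = 0) (B : ℕ)
    (hr : ∀ c, r c < B) :
    (S.prod S).Is (fun p => V r B (S.enc p.1) < V r B (S.enc p.2)) := by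
  refine AutS.Is.of_aut (S := S.prod S) Ordering.eq (cmpStep r) {Ordering.lt}
    (fun p N hN => ?_)
  have h1 : ∀ n, N ≤ n → S.enc p.1 n = default := fun n hn => congrArg Prod.fst (hN n hn)
  have h2 : ∀ n, N ≤ n → S.enc p.2 n = default := fun n hn => congrArg Prod.snd (hN n hn)
  have h3 : run Ordering.eq (cmpStep r) ((S.prod S).enc p) N
      = compare (val r B (S.enc p.1) N) (val r B (S.enc p.2) N) :=
    cmp_run r B hr (S.enc p.1) (S.enc p.2) N
  rw [h3, V_eq r h0 B _ N h1, V_eq r h0 B _ N h2, Set.mem_singleton_iff, Nat.compare_eq_lt]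

theorem exists_digit (C : Type) [Finite C] [Inhabited C] :
    ∃ (r : C → ℕ) (B : ℕ), r default = 0 ∧ Function.Injective r ∧ (∀ c, r c < B) ∧ 1 < B := by
  classical
  obtain ⟨n, ⟨e⟩⟩ := Finite.exists_equiv_fin C
  refine ⟨fun c => if c = default then 0 else (e c : ℕ) + 1, n + 2, by simp, ?_, ?_, by omega⟩
  · intro c d h
    simp only at h
    split_ifs at h with h1 h2 h2
    · rw [h1, h2]
    · exact e.injective (Fin.ext (by omega))
  · intro c
    simp only
    split_ifs
    · omega
    · have := (e c).2
      omega

theorem V_lt_iff {C : Type} [Inhabited C] (r : C → ℕ) (h0 : r default = 0)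
    (hinj : Function.Injective r) (B : ℕ) (hr : ∀ c, r c < B) (hB : 1 < B)
    (f : ℕ → C) (hf : FS f) (N : ℕ) :
    V r B f < B ^ N ↔ ∀ n, N ≤ n → f n = default := by
  constructor
  · intro h n hn
    by_contra hne
    have h1 : 1 ≤ r (f n) := by
      rcases Nat.eq_zero_or_pos (r (f n)) with h2 | h2
      · exact absurd (hinj (h2.trans h0.symm)) hne
      · exact h2
    obtain ⟨M, hM⟩ := hf
    have hM' : ∀ m, (n + 1) + M ≤ m → f m = default := fun m hm => hM m (by omega)
    rw [V_eq r h0 B f _ hM'] at h
    have h2 := val_mono r B f (n + 1) M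
    have h3 : B ^ n ≤ val r B f (n + 1) := by
      rw [val]
      nlinarith [Nat.mul_le_mul_right (B ^ n) h1]
    have h4 : B ^ N ≤ B ^ n := Nat.pow_le_pow_right (by omega) hn
    omega
  · intro h
    rw [V_eq r h0 B f N h]
    exact val_lt r B hr f N

theorem V_inj {C : Type} [Inhabited C] (r : C → ℕ) (h0 : r default = 0)
    (hinj : Function.Injective r) (B : ℕ) (hr : ∀ c, r c < B)
    (f g : ℕ → C) (hf : FS f) (hg : FS g) (h : V r B f = V r B g) : f = g := by
  obtain ⟨N, hN⟩ := hf
  obtain ⟨M, hM⟩ := hg
  have h1 : ∀ n, max N M ≤ n → f n = default := fun n hn => hN n (le_trans (le_max_left _ _) hn)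
  have h2 : ∀ n, max N M ≤ n → g n = default := fun n hn => hM n (le_trans (le_max_right _ _) hn)
  rw [V_eq r h0 B f _ h1, V_eq r h0 B g _ h2] at h
  funext n
  rcases lt_or_ge n (max N M) with h3 | h3
  · exact val_inj r hinj B hr f g _ h n h3
  · rw [h1 n h3, h2 n h3]

theorem AutS.exists_rank {A : Type} (S : AutS A) : ∃ (ρ : A → ℕ) (B : ℕ), 1 < B ∧
    Function.Injective ρ ∧ (S.prod S).Is (fun p => ρ p.1 < ρ p.2) ∧
    ∀ a N, (ρ a < B ^ N ↔ ∀ n, N ≤ n → S.enc a n = default) := by
  obtain ⟨r, B, h0, hinj, hr, hB⟩ := exists_digit S.C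
  refine ⟨fun a => V r B (S.enc a), B, hB, ?_, S.order r h0 B hr, fun a N => ?_⟩
  · intro a b h
    exact S.inj (V_inj r h0 hinj B hr _ _ (S.fs a) (S.fs b) h)
  · exact V_lt_iff r h0 hinj B hr hB _ (S.fs a) N

/-! ### Basic encodings -/

theorem Reg.true {C : Type} [Inhabited C] : Reg (fun _ : ℕ → C => True) :=
  ⟨Unit, inferInstance, (), fun _ _ => (), Set.univ, fun _ _ _ => by simp⟩

theorem exists_list {α : Type} (N : ℕ) : ∀ (f : ℕ → Option α),
    (∀ n, f n = none → f (n + 1) = none) → f N = none →
    ∃ w : List α, (fun n => w[n]?) = f := by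
  induction N with
  | zero =>
    intro f hf hN
    refine ⟨[], ?_⟩
    funext n
    induction n with
    | zero => simp [hN]
    | succ n ih => simp only [List.getElem?_nil] at ih ⊢; exact (hf n ih.symm).symm
  | succ N ih =>
    intro f hf hN
    cases h0 : f 0 with
    | none =>
      refine ⟨[], ?_⟩
      funext n
      induction n with
      | zero => simp [h0]
      | succ n ih => simp only [List.getElem?_nil] at ih ⊢; exact (hf n ih.symm).symm
    | some a =>
      obtain ⟨w, hw⟩ := ih (fun n => f (n + 1)) (fun n hn => hf (n + 1) hn) hN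
      refine ⟨a :: w, ?_⟩
      funext n
      cases n with
      | zero => simp [h0]
      | succ n => simpa using congrFun hw n

/-- words, as functions `n ↦ w[n]?` -/
@[reducible] def words (α : Type) [Finite α] : AutS (List α) where
  C := Option α
  enc w n := w[n]?
  inj := by
    intro u v h
    exact List.ext_getElem? (fun n => congrFun h n)
  fs w := ⟨w.length, fun n hn => List.getElem?_eq_none hn⟩
  img := by
    refine (Reg.local (C := Option α) (fun _ => True)
      (fun c d => c = none → d = none)).congr (fun f hf => ?_)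
    constructor
    · rintro ⟨_, h⟩
      obtain ⟨N, hN⟩ := hf
      exact exists_list N f h (hN N le_rfl)
    · rintro ⟨w, rfl⟩
      refine ⟨trivial, fun n hn => ?_⟩
      rw [List.getElem?_eq_none_iff] at hn ⊢
      omega

/-- unary numbers -/
@[reducible] def unary : AutS ℕ where
  C := Bool
  enc i n := decide (n < i)
  inj := by
    intro i j h
    rcases lt_trichotomy i j with h1 | h1 | h1
    · have := congrFun h i
      simp [h1] at this
    · exact h1
    · have := congrFun h j
      simp [h1] at this
  fs i := ⟨i, fun n hn => by simp [hn]⟩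
  img := by
    refine (Reg.local (C := Bool) (fun _ => True)
      (fun c d => c = false → d = false)).congr (fun f hf => ?_)
    constructor
    · rintro ⟨_, h⟩
      obtain ⟨N, hN⟩ := hf
      have hex : ∃ n, f n = false := ⟨N, hN N le_rfl⟩
      classical
      refine ⟨Nat.find hex, ?_⟩
      funext n
      by_cases hn : n < Nat.find hex
      · have := Nat.find_min hex hn
        simp only [hn, decide_true]
        cases h2 : f n with
        | true => rfl
        | false => exact absurd h2 this
      · simp only [hn, decide_false]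
        have h3 : ∀ k, f (Nat.find hex + k) = false := by
          intro k
          induction k with
          | zero => exact Nat.find_spec hex
          | succ k ih => exact h _ ih
        obtain ⟨k, hk⟩ := Nat.exists_eq_add_of_le (not_lt.mp hn)
        rw [hk, h3]
    · rintro ⟨i, rfl⟩
      refine ⟨trivial, fun n hn => ?_⟩
      simp only [decide_eq_false_iff_not] at hn ⊢
      omega

/-- binary numbers, least significant bit first -/
@[reducible] def binary : AutS ℕ where
  C := Bool
  enc b n := b.testBit n
  inj := by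
    intro i j h
    exact Nat.eq_of_testBit_eq (fun n => congrFun h n)
  fs i := ⟨i, fun n hn => Nat.testBit_lt_two_pow (lt_of_le_of_lt hn Nat.lt_two_pow_self)⟩
  img := by
    refine Reg.true.congr (fun f hf => ?_)
    refine ⟨fun _ => ?_, fun _ => trivial⟩
    obtain ⟨N, hN⟩ := hf
    refine ⟨Nat.ofBits (fun i : Fin N => f i), ?_⟩
    funext n
    rcases lt_or_ge n N with h | h
    · exact Nat.testBit_ofBits_lt _ n h
    · show Nat.testBit _ n = _
      rw [Nat.testBit_ofBits_ge _ n h, hN n h]
      rfl

theorem val_testBit (b n : ℕ) : val Bool.toNat 2 (fun n => b.testBit n) n = b % 2 ^ n := by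
  induction n with
  | zero => simp [val, Nat.mod_one]
  | succ n ih =>
    rw [val, ih, Nat.mod_pow_succ, ← Nat.toNat_testBit]
    ring

theorem binary_lt : (binary.prod binary).Is (fun p => p.1 < p.2) := by
  have hV : ∀ b, V Bool.toNat 2 (binary.enc b) = b := by
    intro b
    have h : ∀ n, b ≤ n → binary.enc b n = false := fun n hn =>
      Nat.testBit_lt_two_pow (lt_of_le_of_lt hn Nat.lt_two_pow_self)
    have h1 := V_eq (C := Bool) Bool.toNat rfl 2 (binary.enc b) b h
    refine h1.trans ?_
    refine (val_testBit b b).trans ?_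
    exact Nat.mod_eq_of_lt Nat.lt_two_pow_self
  have h := AutS.order binary Bool.toNat rfl 2 (fun c => by cases c <;> decide)
  exact h.congr (fun p => by rw [hV, hV])

/-- a bit, written at position `0` -/
@[reducible] def bit : AutS Bool where
  C := Bool
  enc b n := b && decide (n = 0)
  inj := by
    intro i j h
    simpa using congrFun h 0
  fs i := ⟨1, fun n hn => by
    have : n ≠ 0 := by omega
    simp [this]⟩
  img := by
    refine (Reg.local (C := Bool) (fun _ => True)
      (fun _ d => d = false)).congr (fun f hf => ?_)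
    constructor
    · rintro ⟨_, h⟩
      refine ⟨f 0, ?_⟩
      funext n
      cases n with
      | zero => simp
      | succ n => simp [h n]
    · rintro ⟨i, rfl⟩
      exact ⟨trivial, fun n => by simp⟩

/-- optional values -/
@[reducible] def AutS.opt {A : Type} (S : AutS A) : AutS (Option A) where
  C := S.C × Bool
  enc o n := match o with
    | none => default
    | some a => (S.enc a n, decide (n = 0))
  inj := by
    intro o o' h
    cases o with
    | none =>
      cases o' with
      | none => rfl
      | some a =>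
        have := congrArg Prod.snd (congrFun h 0)
        simp at this
        cases this
    | some b =>
      cases o' with
      | none =>
        have := congrArg Prod.snd (congrFun h 0)
        simp at this
        cases this
      | some a =>
        have h1 : S.enc b = S.enc a := funext (fun n => congrArg Prod.fst (congrFun h n))
        rw [S.inj h1]
  fs := by
    intro o
    cases o with
    | none => exact ⟨0, fun n _ => rfl⟩
    | some a =>
      obtain ⟨N, hN⟩ := S.fs a
      refine ⟨N + 1, fun n hn => ?_⟩
      simp only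
      rw [hN n (by omega)]
      have : n ≠ 0 := by omega
      simp only [this, decide_false]
      rfl
  img := by
    have h1 : Reg (fun f : ℕ → S.C × Bool => f 0 = default ∧ ∀ n, f (n + 1) = default) :=
      Reg.local (fun c => c = default) (fun _ d => d = default)
    have h2 : Reg (fun f : ℕ → S.C × Bool => (f 0).2 = true ∧ ∀ n, (f (n + 1)).2 = false) :=
      Reg.local (fun c : S.C × Bool => c.2 = true) (fun _ d : S.C × Bool => d.2 = false)
    have h3 := S.img.comp (C := S.C × Bool) (Prod.fst) rfl
    refine (h1.or (h3.and h2)).congr (fun f _ => ?_)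
    constructor
    · rintro (⟨h0, h⟩ | ⟨⟨a, ha⟩, h0, h⟩)
      · refine ⟨none, ?_⟩
        funext n
        cases n with
        | zero => exact h0.symm
        | succ n => exact (h n).symm
      · refine ⟨some a, ?_⟩
        funext n
        simp only
        rw [ha]
        cases n with
        | zero => exact Prod.ext rfl (by simp [h0])
        | succ n => exact Prod.ext rfl (by simp [h n])
    · rintro ⟨o, rfl⟩
      cases o with
      | none => exact Or.inl ⟨rfl, fun _ => rfl⟩
      | some a => exact Or.inr ⟨⟨a, rfl⟩, by simp, fun n => by simp⟩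

/-- restriction of an encoding to an automatic subset, transported along an injection -/
@[reducible] def AutS.restrict {A B : Type} (S : AutS A) (P : A → Prop) (hP : S.Is P) (e : B → A)
    (he : Function.Injective e) (hr : ∀ a, P a ↔ ∃ b, e b = a) : AutS B where
  C := S.C
  enc b := S.enc (e b)
  inj := fun _ _ h => he (S.inj h)
  fs b := S.fs (e b)
  img := by
    refine Reg.congr hP (fun f _ => ?_)
    constructor
    · rintro ⟨a, ha, hPa⟩
      obtain ⟨b, hb⟩ := (hr a).mp hPa
      exact ⟨b, by rw [hb]; exact ha⟩
    · rintro ⟨b, hb⟩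
      exact ⟨e b, hb, (hr _).mpr ⟨b, rfl⟩⟩

/-! ### Convolutions and regular languages -/

/-- The convolution of two words: the pair of the `i`-th letters, `none` standing for the
padding symbol, for `i` below the larger length. -/
def conv {α : Type} (u v : List α) : List (Option α × Option α) :=
  (List.range (max u.length v.length)).map (fun i => (u[i]?, v[i]?))

theorem conv_inj {α : Type} {u v u' v' : List α} (h : conv u v = conv u' v') :
    u = u' ∧ v = v' := by
  have hlen : max u.length v.length = max u'.length v'.length := by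
    have := congrArg List.length h
    simpa [conv] using this
  have hpt : ∀ n : ℕ, ((u[n]?, v[n]?) : Option α × Option α) = (u'[n]?, v'[n]?) := by
    intro n
    rcases lt_or_ge n (max u.length v.length) with h1 | h1
    · have := congrArg (fun l => l[n]?) h
      simp only [conv, List.getElem?_map] at this
      rw [List.getElem?_range h1, List.getElem?_range (by omega)] at this
      simpa using this
    · rw [List.getElem?_eq_none (by omega), List.getElem?_eq_none (by omega),
        List.getElem?_eq_none (by omega), List.getElem?_eq_none (by omega)]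
  have h1 : ∀ n : ℕ, u[n]? = u'[n]? := fun n => (Prod.mk.inj (hpt n)).1
  have h2 : ∀ n : ℕ, v[n]? = v'[n]? := fun n => (Prod.mk.inj (hpt n)).2
  exact ⟨List.ext_getElem? h1, List.ext_getElem? h2⟩

theorem is_of_regular {α : Type} [Finite α] (K : Language (Option α × Option α))
    (hK : K.IsRegular) : ((words α).prod (words α)).Is (fun p => conv p.1 p.2 ∈ K) := by
  classical
  obtain ⟨σ, _, M, hM⟩ := hK
  refine AutS.Is.of_aut (S := (words α).prod (words α)) (σ := σ) M.start
    (fun s (d : Option α × Option α) => if d = (none, none) then s else M.step s d) M.accept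
    (fun p N hN => ?_)
  obtain ⟨u, v⟩ := p
  set stp : σ → Option α × Option α → σ :=
    fun s d => if d = (none, none) then s else M.step s d with hstp
  set f : ℕ → Option α × Option α := fun n => (u[n]?, v[n]?) with hf
  have h1 : ∀ n, n ≤ max u.length v.length →
      run M.start stp f n = M.eval ((List.range n).map f) := by
    intro n
    induction n with
    | zero => intro _; rfl
    | succ n ih =>
      intro hn
      rw [run, ih (by omega), List.range_succ, List.map_append, List.map_singleton,
        DFA.eval_append_singleton]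
      have : f n ≠ (none, none) := by
        intro h
        have h2 : u[n]? = none := congrArg Prod.fst h
        have h3 : v[n]? = none := congrArg Prod.snd h
        rw [List.getElem?_eq_none_iff] at h2 h3
        omega
      simp only [hstp]
      rw [if_neg this]
  have h2 : ∀ k, run M.start stp f (max u.length v.length + k)
      = M.eval (conv u v) := by
    intro k
    induction k with
    | zero => exact h1 _ le_rfl
    | succ k ih =>
      show stp (run M.start stp f (max u.length v.length + k)) _ = _
      rw [ih]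
      have : f (max u.length v.length + k) = (none, none) := by
        simp only [hf]
        rw [List.getElem?_eq_none (by omega), List.getElem?_eq_none (by omega)]
      simp only [hstp]
      exact if_pos this
  have h3 : max u.length v.length ≤ N := by
    have ha : u[N]? = none := congrArg Prod.fst (hN N le_rfl)
    have hb : v[N]? = none := congrArg Prod.snd (hN N le_rfl)
    rw [List.getElem?_eq_none_iff] at ha hb
    omega
  obtain ⟨k, hk⟩ := Nat.exists_eq_add_of_le h3
  have h4 : run M.start stp (((words α).prod (words α)).enc (u, v)) N = M.eval (conv u v) := by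
    have : ((words α).prod (words α)).enc (u, v) = f := rfl
    rw [this, hk]
    exact h2 k
  rw [h4]
  show M.eval (conv u v) ∈ M.accept ↔ conv u v ∈ K
  rw [← hM]
  rfl

/-- the finitely supported function of a word (trailing default letters are ignored) -/
def toF {C : Type} [Inhabited C] (w : List C) (n : ℕ) : C := (w[n]?).getD default

theorem toF_fs {C : Type} [Inhabited C] (w : List C) : ∀ n, w.length ≤ n → toF w n = default := by
  intro n hn
  rw [toF, List.getElem?_eq_none hn]; rfl

theorem run_toF {σ C : Type} [Inhabited C] (s0 : σ) (step : σ → C → σ) (w : List C) :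
    List.foldl step s0 w = run s0 step (toF w) w.length := by
  induction w using List.reverseRecOn with
  | nil => rfl
  | append_singleton w d ih =>
    rw [List.foldl_append, ih, List.length_append]
    show step _ d = step (run s0 step (toF (w ++ [d])) w.length) (toF (w ++ [d]) w.length)
    congr 1
    · apply run_congr
      intro n hn
      simp only [toF]
      rw [List.getElem?_append_left hn]
    · simp [toF]

theorem regular1 {C : Type} [Inhabited C] {Q : (ℕ → C) → Prop} (hQ : Reg Q) :
    Language.IsRegular ({w | Q (toF w)} : Set (List C)) := by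
  obtain ⟨σ, hσ, s0, step, acc, hM⟩ := hQ
  have : Fintype σ := Fintype.ofFinite σ
  refine ⟨σ, this, ⟨step, s0, acc⟩, ?_⟩
  ext w
  show List.foldl step s0 w ∈ acc ↔ Q (toF w)
  rw [run_toF, hM (toF w) w.length (toF_fs w)]

theorem regular1' {C : Type} [Inhabited C] [Finite C] {Q : (ℕ → C) → Prop} (hQ : Reg Q) :
    Language.IsRegular ({w | (∀ d ∈ w, d ≠ default) ∧ Q (toF w)} : Set (List C)) := by
  obtain ⟨σ, hσ, s0, step, acc, hM⟩ := hQ
  have : Fintype (σ × Prop) := Fintype.ofFinite _
  refine ⟨σ × Prop, this, ⟨fun s c => (step s.1 c, s.2 ∧ c ≠ default), (s0, True),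
    {s | s.2 ∧ s.1 ∈ acc}⟩, ?_⟩
  ext w
  have key : ∀ (w : List C), List.foldl (fun (s : σ × Prop) c => (step s.1 c, s.2 ∧ c ≠ default))
      (s0, True) w = (List.foldl step s0 w, ∀ d ∈ w, d ≠ default) := by
    intro w
    induction w using List.reverseRecOn with
    | nil => simp
    | append_singleton w d ih =>
      rw [List.foldl_append, ih, List.foldl_append]
      simp only [List.foldl_cons, List.foldl_nil, Prod.mk.injEq, true_and, eq_iff_iff]
      constructor
      · rintro ⟨h1, h2⟩ d' hd'
        rcases List.mem_append.mp hd' with h3 | h3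
        · exact h1 d' h3
        · rw [List.mem_singleton] at h3; rw [h3]; exact h2
      · intro h
        exact ⟨fun d' hd' => h d' (List.mem_append_left _ hd'),
          h d (List.mem_append_right _ (List.mem_singleton_self _))⟩
  show List.foldl (fun (s : σ × Prop) c => (step s.1 c, s.2 ∧ c ≠ default)) (s0, True) w
    ∈ {s : σ × Prop | s.2 ∧ s.1 ∈ acc} ↔ (∀ d ∈ w, d ≠ default) ∧ Q (toF w)
  rw [key, Set.mem_ofPred_eq, run_toF, hM (toF w) w.length (toF_fs w)]

theorem toF_conv {C : Type} (u v : List C) (n : ℕ) :
    toF (C := Option C × Option C) (conv u v) n = (u[n]?, v[n]?) := by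
  rw [toF, conv, List.getElem?_map]
  rcases lt_or_ge n (max u.length v.length) with h1 | h1
  · rw [List.getElem?_range h1]; rfl
  · rw [List.getElem?_eq_none (by simpa using h1), List.getElem?_eq_none (by omega),
      List.getElem?_eq_none (by omega)]
    rfl

theorem toF_injOn {C : Type} [Inhabited C] {w w' : List C} (hw : ∀ d ∈ w, d ≠ default)
    (hw' : ∀ d ∈ w', d ≠ default) (h : toF w = toF w') : w = w' := by
  apply List.ext_getElem?
  intro n
  have h1 := congrFun h n
  simp only [toF] at h1
  cases h2 : w[n]? with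
  | none =>
    cases h3 : w'[n]? with
    | none => rfl
    | some d =>
      rw [h2, h3] at h1
      exact absurd h1.symm (hw' d (List.mem_of_getElem? h3))
  | some c =>
    cases h3 : w'[n]? with
    | none =>
      rw [h2, h3] at h1
      exact absurd h1 (hw c (List.mem_of_getElem? h2))
    | some d =>
      rw [h2, h3] at h1
      simp only [Option.getD_some] at h1
      rw [h1]

theorem regular2 {C : Type} [Inhabited C] [Finite C] {Q : (ℕ → C × C) → Prop} (hQ : Reg Q) :
    Language.IsRegular ({w | ∃ u v : List C, w = conv u v ∧ Q (fun n => (toF u n, toF v n))} :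
      Set (List (Option C × Option C))) := by
  have h1 : Reg (fun f : ℕ → Option C × Option C =>
      Q (fun n => ((f n).1.getD default, (f n).2.getD default))) :=
    hQ.comp (C := Option C × Option C) (fun d => (d.1.getD default, d.2.getD default)) rfl
  have h2 : Reg (fun f : ℕ → Option C × Option C => True ∧ ∀ n,
      (((f n).1 = none → (f (n + 1)).1 = none) ∧ ((f n).2 = none → (f (n + 1)).2 = none))) :=
    Reg.local (fun _ => True)
      (fun c d : Option C × Option C => (c.1 = none → d.1 = none) ∧ (c.2 = none → d.2 = none))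
  have h3 := regular1' (h2.and h1)
  refine Eq.mp (congrArg Language.IsRegular ?_) h3
  symm
  apply Set.ext
  intro w
  constructor
  · rintro ⟨u, v, rfl, hq⟩
    refine ⟨?_, ⟨trivial, ?_⟩, ?_⟩
    · intro d hd
      simp only [conv, List.mem_map, List.mem_range] at hd
      obtain ⟨i, hi, rfl⟩ := hd
      intro h
      have h2 : u[i]? = none := congrArg Prod.fst h
      have h3 : v[i]? = none := congrArg Prod.snd h
      rw [List.getElem?_eq_none_iff] at h2 h3
      omega
    · intro n
      rw [toF_conv, toF_conv]
      simp only [List.getElem?_eq_none_iff]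
      omega
    · have : (fun n => ((toF (conv u v) n).1.getD default, (toF (conv u v) n).2.getD default))
          = (fun n => ((toF u n, toF v n) : C × C)) := by
        funext n
        rw [toF_conv]; rfl
      show Q _
      rw [this]
      exact hq
  · rintro ⟨hne, ⟨_, hv⟩, hq⟩
    obtain ⟨u, hu⟩ := exists_list w.length (fun n => (toF w n).1) (fun n => (hv n).1)
      (by rw [toF_fs w _ le_rfl]; rfl)
    obtain ⟨v, hv'⟩ := exists_list w.length (fun n => (toF w n).2) (fun n => (hv n).2)
      (by rw [toF_fs w _ le_rfl]; rfl)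
    have hw : w = conv u v := by
      refine toF_injOn (C := Option C × Option C) hne ?_ ?_
      · intro d hd
        simp only [conv, List.mem_map, List.mem_range] at hd
        obtain ⟨i, hi, rfl⟩ := hd
        intro h
        have h2 : u[i]? = none := congrArg Prod.fst h
        have h3 : v[i]? = none := congrArg Prod.snd h
        rw [List.getElem?_eq_none_iff] at h2 h3
        omega
      · funext n
        rw [toF_conv]
        exact Prod.ext (congrFun hu n).symm (congrFun hv' n).symm
    refine ⟨u, v, hw, ?_⟩
    have : (fun n => ((toF w n).1.getD default, (toF w n).2.getD default))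
        = (fun n => ((toF u n, toF v n) : C × C)) := by
      funext n
      have h1 : (toF w n).1 = u[n]? := (congrFun hu n).symm
      have h2 : (toF w n).2 = v[n]? := (congrFun hv' n).symm
      rw [h1, h2]; rfl
    rw [← this]
    exact hq

end R336.AutReg
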