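import Mathlib
import Pool.Agent.R336.AutReg
import Pool.Agent.R336.AutChain

/-!
# The machine is automatic
-/

set_option autoImplicit false

namespace R336.AutCfg

open R336.AutReg R336.AutChain

theorem is_true {A : Type} (S : AutS A) : S.Is (fun _ => True) :=
  Reg.congr S.img (fun f _ => by simp)

theorem is_Nx {X : Type} (S : AutS X) (A : X → Prop) (ρ : X → ℕ) (hA : S.Is A)
    (hρ : (S.prod S).Is (fun p => ρ p.1 < ρ p.2)) :
    (S.prod S).Is (fun p => Nx A ρ p.1 p.2) := by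
  have h1 : (S.prod S).Is (fun p => A p.1) := hA.comap (S := S.prod S) (fun p => p.1) (fun c => c.1) rfl
    (fun _ _ => rfl)
  have h2 : (S.prod S).Is (fun p => A p.2) := hA.comap (S := S.prod S) (fun p => p.2) (fun c => c.2) rfl
    (fun _ _ => rfl)
  have h3 : ((S.prod S).prod S).Is (fun q => A q.2) := hA.comap (S := (S.prod S).prod S) (fun q => q.2) (fun c => c.2) rfl
    (fun _ _ => rfl)
  have h4 : ((S.prod S).prod S).Is (fun q => ρ q.1.1 < ρ q.2) :=
    hρ.comap (S := (S.prod S).prod S) (fun q => (q.1.1, q.2)) (fun c => (c.1.1, c.2)) rfl (fun _ _ => rfl)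
  have h5 : ((S.prod S).prod S).Is (fun q => ρ q.2 < ρ q.1.2) :=
    hρ.comap (S := (S.prod S).prod S) (fun q => (q.2, q.1.2)) (fun c => (c.2, c.1.2)) rfl (fun _ _ => rfl)
  exact h1.and (h2.and (hρ.and (AutS.Is.all (T := S) (h3.and (h4.and h5)).not)))

/-! ### Unary and binary numbers -/

theorem u_zero : unary.Is (fun i => i = 0) :=
  AutS.Is.letter (S := unary) (fun c : Bool => c = false) (fun i => by
    constructor
    · intro h
      have := h 0
      simp only [decide_eq_false_iff_not] at this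
      omega
    · intro h n
      simp [h])

theorem u_pos : unary.Is (fun i => 1 ≤ i) := u_zero.not.congr (fun i => by omega)

theorem u_eq : (unary.prod unary).Is (fun p => p.2 = p.1) :=
  (AutS.Is.eq unary).congr (fun p => eq_comm)

theorem u_succ : (unary.prod unary).Is (fun p => p.2 = p.1 + 1) := by
  refine AutS.Is.local (S := unary.prod unary) (fun c : Bool × Bool => c.2 = true)
    (fun c d : Bool × Bool => d.2 = c.1) (fun p => ?_)
  obtain ⟨x, y⟩ := p
  show ((decide (0 < y) = true) ∧ ∀ n, decide (n + 1 < y) = decide (n < x)) ↔ y = x + 1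
  constructor
  · rintro ⟨h0, h⟩
    have h1 := h x
    simp only [lt_irrefl, decide_false, decide_eq_false_iff_not] at h1
    simp only [decide_eq_true_eq] at h0
    by_contra hne
    have h2 := h (y - 1)
    have h3 : ¬ (y - 1 + 1 < y) := by omega
    have h4 : y - 1 < x := by omega
    simp [h3, h4] at h2
  · rintro rfl
    exact ⟨by simp, fun n => by simp⟩

theorem u_one : unary.Is (fun i => i = 1) := by
  refine AutS.Is.local (S := unary) (fun c : Bool => c = true)
    (fun _ d : Bool => d = false) (fun i => ?_)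
  show ((decide (0 < i) = true) ∧ ∀ n, decide (n + 1 < i) = false) ↔ i = 1
  constructor
  · rintro ⟨h0, h⟩
    have h1 := h 0
    simp only [decide_eq_false_iff_not, decide_eq_true_eq] at h0 h1
    omega
  · rintro rfl
    exact ⟨by simp, fun n => by simp⟩

theorem u_lt : (unary.prod unary).Is (fun p => p.1 < p.2) := by
  refine AutS.Is.congr (AutS.Is.not (R := fun p : ℕ × ℕ => p.2 ≤ p.1) ?_) (fun p => by omega)
  refine AutS.Is.letter (S := unary.prod unary) (fun c : Bool × Bool => c.2 = true → c.1 = true)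
    (fun p => ?_)
  obtain ⟨x, y⟩ := p
  show (∀ n, decide (n < y) = true → decide (n < x) = true) ↔ y ≤ x
  simp only [decide_eq_true_eq]
  constructor
  · intro h
    by_contra hne
    have := h x (by omega)
    omega
  · intro h n hn
    omega

theorem b_zero : binary.Is (fun i => i = 0) :=
  AutS.Is.letter (S := binary) (fun c : Bool => c = false) (fun i => by
    constructor
    · intro h
      apply Nat.eq_of_testBit_eq
      intro n
      rw [Nat.zero_testBit]
      exact h n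
    · intro h n
      simp [h])

theorem b_eq : (binary.prod binary).Is (fun p => p.2 = p.1) :=
  (AutS.Is.eq binary).congr (fun p => eq_comm)

theorem b_succ : (binary.prod binary).Is (fun p => p.2 = p.1 + 1) := by
  have h4 : ((binary.prod binary).prod binary).Is (fun q => q.1.1 < q.2) :=
    binary_lt.comap (S := (binary.prod binary).prod binary) (fun q => (q.1.1, q.2)) (fun c => (c.1.1, c.2)) rfl (fun _ _ => rfl)
  have h5 : ((binary.prod binary).prod binary).Is (fun q => q.2 < q.1.2) :=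
    binary_lt.comap (S := (binary.prod binary).prod binary) (fun q => (q.2, q.1.2)) (fun c => (c.2, c.1.2)) rfl (fun _ _ => rfl)
  have h6 := binary_lt.and (AutS.Is.all (T := binary) (h4.and h5).not)
  refine h6.congr (fun p => ?_)
  obtain ⟨x, y⟩ := p
  show (x < y ∧ ∀ b, ¬ (x < b ∧ b < y)) ↔ y = x + 1
  constructor
  · rintro ⟨h1, h2⟩
    have := h2 (x + 1)
    omega
  · rintro rfl
    exact ⟨by omega, fun b => by omega⟩

theorem b_lt : (binary.prod unary).Is (fun p => p.1 < 2 ^ p.2) := by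
  refine AutS.Is.letter (S := binary.prod unary)
    (fun c : Bool × Bool => c.1 = true → c.2 = true) (fun p => ?_)
  obtain ⟨b, m⟩ := p
  show (∀ n, b.testBit n = true → decide (n < m) = true) ↔ b < 2 ^ m
  constructor
  · intro h
    apply Nat.lt_pow_two_of_testBit
    intro i hi
    by_contra hne
    have := h i (by simpa using hne)
    simp only [decide_eq_true_eq] at this
    omega
  · intro h n hn
    by_contra hne
    simp only [decide_eq_true_eq, not_lt] at hne
    have h2 : b < 2 ^ n := lt_of_lt_of_le h (Nat.pow_le_pow_right (by norm_num) hne)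
    rw [Nat.testBit_lt_two_pow h2] at hn
    exact absurd hn (by decide)

theorem b_full : (binary.prod unary).Is (fun p => p.1 + 1 = 2 ^ p.2) := by
  refine AutS.Is.letter (S := binary.prod unary)
    (fun c : Bool × Bool => c.1 = c.2) (fun p => ?_)
  obtain ⟨b, m⟩ := p
  show (∀ n, b.testBit n = decide (n < m)) ↔ b + 1 = 2 ^ m
  have hp : 1 ≤ 2 ^ m := Nat.one_le_two_pow
  constructor
  · intro h
    have : b = 2 ^ m - 1 := by
      apply Nat.eq_of_testBit_eq
      intro n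
      rw [h, Nat.testBit_two_pow_sub_one]
    omega
  · intro h n
    have : b = 2 ^ m - 1 := by omega
    rw [this, Nat.testBit_two_pow_sub_one]

theorem b_succ_lt : (binary.prod unary).Is (fun p => p.1 + 1 < 2 ^ p.2) :=
  (b_lt.and b_full.not).congr (fun p => by omega)

theorem b_push : ((binary.prod binary).prod unary).Is
    (fun p => p.1.1 < 2 ^ p.2 ∧ p.1.2 = p.1.1 + 2 ^ p.2) := by
  have h1 : ((binary.prod binary).prod unary).Is (fun p => p.1.1 < 2 ^ p.2) :=
    b_lt.comap (S := (binary.prod binary).prod unary) (fun p => (p.1.1, p.2)) (fun c => (c.1.1, c.2)) rfl (fun _ _ => rfl)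
  have h2 : ((binary.prod binary).prod unary).Is
      (fun p => ∀ n, p.1.2.testBit n = (p.1.1.testBit n || decide (n = p.2))) := by
    refine AutS.Is.local (S := (binary.prod binary).prod unary)
      (fun c : (Bool × Bool) × Bool => c.1.2 = (c.1.1 || !c.2))
      (fun c d : (Bool × Bool) × Bool => d.1.2 = (d.1.1 || (c.2 && !d.2))) (fun p => ?_)
    obtain ⟨⟨x, y⟩, m⟩ := p
    show (y.testBit 0 = (x.testBit 0 || !decide (0 < m)) ∧ ∀ n,
      y.testBit (n + 1) = (x.testBit (n + 1) || (decide (n < m) && !decide (n + 1 < m)))) ↔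
      ∀ n, y.testBit n = (x.testBit n || decide (n = m))
    have e0 : (!decide (0 < m)) = decide (0 = m) := by
      rcases Nat.eq_zero_or_pos m with h | h
      · simp [h]
      · simp [h, h.ne]
    have e1 : ∀ n, (decide (n < m) && !decide (n + 1 < m)) = decide (n + 1 = m) := by
      intro n
      rcases lt_trichotomy (n + 1) m with h | h | h
      · simp [h, h.ne]
      · simp [← h]
      · have h3 : ¬ n < m := by omega
        simp [h.ne', h3]
    rw [e0]
    simp only [e1]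
    constructor
    · rintro ⟨h0, h⟩ n
      cases n with
      | zero => exact h0
      | succ n => exact h n
    · intro h
      exact ⟨h 0, fun n => h (n + 1)⟩
  refine (h1.and h2).congr (fun p => ?_)
  obtain ⟨⟨x, y⟩, m⟩ := p
  show (x < 2 ^ m ∧ ∀ n, y.testBit n = (x.testBit n || decide (n = m))) ↔
    (x < 2 ^ m ∧ y = x + 2 ^ m)
  apply and_congr_right
  intro hx
  have key : ∀ n, (x + 2 ^ m).testBit n = (x.testBit n || decide (n = m)) := by
    intro n
    have h3 : x + 2 ^ m = 2 ^ m * 1 ||| x := by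
      rw [← Nat.two_pow_add_eq_or_of_lt hx]; ring
    rw [h3, Nat.testBit_or, Nat.mul_one, Nat.testBit_two_pow]
    rw [Bool.or_comm]
    congr 1
    exact decide_eq_decide.mpr eq_comm
  constructor
  · intro h
    apply Nat.eq_of_testBit_eq
    intro n
    rw [h, key]
  · rintro rfl n
    exact key n

/-! ### Names -/

/-- An encoding of the numbers for which `0` is empty and successor is automatic. -/
structure Nm where
  S : AutS ℕ
  zero : ∀ n, S.enc 0 n = default
  suc : (S.prod S).Is (fun p => 1 ≤ p.1 ∧ p.2 = p.1 + 1)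

section names

variable (N : Nm)

theorem n_zero : N.S.Is (fun s => s = 0) := by
  refine AutS.Is.letter (fun c => c = default) (fun s => ?_)
  constructor
  · intro h
    apply N.S.inj
    funext n
    rw [h, N.zero]
  · rintro rfl n
    exact N.zero n

theorem n_pos : N.S.Is (fun s => 1 ≤ s) := (n_zero N).not.congr (fun i => by omega)

theorem n_one : N.S.Is (fun s => s = 1) := by
  have h : (N.S.prod N.S).Is (fun p => 1 ≤ p.2 ∧ p.1 = p.2 + 1) :=
    N.suc.comap (S := N.S.prod N.S) (fun p => (p.2, p.1)) (fun c => (c.2, c.1)) rfl (fun _ _ => rfl)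
  refine ((n_pos N).and (AutS.Is.ex (T := N.S) h).not).congr (fun s => ?_)
  show (1 ≤ s ∧ ¬ ∃ b, 1 ≤ b ∧ s = b + 1) ↔ s = 1
  constructor
  · rintro ⟨h1, h2⟩
    by_contra hne
    exact h2 ⟨s - 1, by omega, by omega⟩
  · rintro rfl
    exact ⟨le_rfl, by rintro ⟨b, h1, h2⟩; omega⟩

variable (P : Par) (hord : (N.S.prod N.S).Is (fun p => P.ρ p.1 < P.ρ p.2))
  (hlen : ∀ a K, (P.ρ a < P.B ^ K ↔ ∀ n, K ≤ n → N.S.enc a n = default))

include hord in
theorem n_nx : (N.S.prod N.S).Is (fun p => P.nx p.1 p.2) :=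
  is_Nx N.S (fun s => 1 ≤ s) P.ρ (n_pos N) hord

include hord in
theorem n_lst : N.S.Is P.lst := by
  have h1 : (N.S.prod N.S).Is (fun q => 1 ≤ q.2) := (n_pos N).comap (S := N.S.prod N.S) (fun q => q.2)
    (fun c => c.2) rfl (fun _ _ => rfl)
  have h2 : (N.S.prod N.S).Is (fun q => P.ρ q.2 < P.ρ q.1) :=
    hord.comap (S := N.S.prod N.S) (fun p => (p.2, p.1)) (fun c => (c.2, c.1)) rfl (fun _ _ => rfl)
  exact (n_pos N).and (AutS.Is.all (T := N.S) (h1.and h2).not)

include hlen in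
theorem n_len : (N.S.prod unary).Is (fun p => P.ρ p.1 < P.B ^ p.2) := by
  refine AutS.Is.letter (S := N.S.prod unary)
    (fun c : N.S.C × Bool => c.2 = false → c.1 = default) (fun p => ?_)
  obtain ⟨a, K⟩ := p
  show (∀ n, decide (n < K) = false → N.S.enc a n = default) ↔ P.ρ a < P.B ^ K
  rw [hlen]
  simp only [decide_eq_false_iff_not, not_lt]

/-- The encoding of the configurations. -/
@[reducible] def cfS (N : Nm) : AutS Cf :=
  (unary.prod (binary.prod (unary.prod (binary.prod (unary.prod (N.S.prod N.S)))))).restrict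
    (fun _ => True) (is_true _) (fun x : Cf => (x.i, x.M, x.m, x.b, x.k, x.s, x.t))
    (fun x y h => by
      simp only [Prod.mk.injEq] at h
      obtain ⟨h1, h2, h3, h4, h5, h6, h7⟩ := h
      exact Cf.ext h1 h2 h3 h4 h5 h6 h7)
    (fun a => ⟨fun _ => ⟨⟨a.1, a.2.1, a.2.2.1, a.2.2.2.1, a.2.2.2.2.1, a.2.2.2.2.2.1,
      a.2.2.2.2.2.2⟩, rfl⟩, fun _ => trivial⟩)

-- GENERATED

include hord hlen in
theorem is_St : ((cfS N).prod (cfS N)).Is (fun p => St P p.1 p.2) := by
  have zxi : ((cfS N).prod (cfS N)).Is (fun p => p.1.i = 0) :=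
    AutS.Is.comap (S := (cfS N).prod (cfS N)) u_zero (fun p => p.1.i) (fun c => c.1.1) rfl (fun _ _ => rfl)
  have zxM : ((cfS N).prod (cfS N)).Is (fun p => p.1.M = 0) :=
    AutS.Is.comap (S := (cfS N).prod (cfS N)) b_zero (fun p => p.1.M) (fun c => c.1.2.1) rfl (fun _ _ => rfl)
  have zxm : ((cfS N).prod (cfS N)).Is (fun p => p.1.m = 0) :=
    AutS.Is.comap (S := (cfS N).prod (cfS N)) u_zero (fun p => p.1.m) (fun c => c.1.2.2.1) rfl (fun _ _ => rfl)
  have zxb : ((cfS N).prod (cfS N)).Is (fun p => p.1.b = 0) :=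
    AutS.Is.comap (S := (cfS N).prod (cfS N)) b_zero (fun p => p.1.b) (fun c => c.1.2.2.2.1) rfl (fun _ _ => rfl)
  have zxk : ((cfS N).prod (cfS N)).Is (fun p => p.1.k = 0) :=
    AutS.Is.comap (S := (cfS N).prod (cfS N)) u_zero (fun p => p.1.k) (fun c => c.1.2.2.2.2.1) rfl (fun _ _ => rfl)
  have zxs : ((cfS N).prod (cfS N)).Is (fun p => p.1.s = 0) :=
    AutS.Is.comap (S := (cfS N).prod (cfS N)) (n_zero N) (fun p => p.1.s) (fun c => c.1.2.2.2.2.2.1) rfl (fun _ _ => rfl)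
  have zxt : ((cfS N).prod (cfS N)).Is (fun p => p.1.t = 0) :=
    AutS.Is.comap (S := (cfS N).prod (cfS N)) (n_zero N) (fun p => p.1.t) (fun c => c.1.2.2.2.2.2.2) rfl (fun _ _ => rfl)
  have zyi : ((cfS N).prod (cfS N)).Is (fun p => p.2.i = 0) :=
    AutS.Is.comap (S := (cfS N).prod (cfS N)) u_zero (fun p => p.2.i) (fun c => c.2.1) rfl (fun _ _ => rfl)
  have zyM : ((cfS N).prod (cfS N)).Is (fun p => p.2.M = 0) :=
    AutS.Is.comap (S := (cfS N).prod (cfS N)) b_zero (fun p => p.2.M) (fun c => c.2.2.1) rfl (fun _ _ => rfl)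
  have zym : ((cfS N).prod (cfS N)).Is (fun p => p.2.m = 0) :=
    AutS.Is.comap (S := (cfS N).prod (cfS N)) u_zero (fun p => p.2.m) (fun c => c.2.2.2.1) rfl (fun _ _ => rfl)
  have zyb : ((cfS N).prod (cfS N)).Is (fun p => p.2.b = 0) :=
    AutS.Is.comap (S := (cfS N).prod (cfS N)) b_zero (fun p => p.2.b) (fun c => c.2.2.2.2.1) rfl (fun _ _ => rfl)
  have zyk : ((cfS N).prod (cfS N)).Is (fun p => p.2.k = 0) :=
    AutS.Is.comap (S := (cfS N).prod (cfS N)) u_zero (fun p => p.2.k) (fun c => c.2.2.2.2.2.1) rfl (fun _ _ => rfl)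
  have zys : ((cfS N).prod (cfS N)).Is (fun p => p.2.s = 0) :=
    AutS.Is.comap (S := (cfS N).prod (cfS N)) (n_zero N) (fun p => p.2.s) (fun c => c.2.2.2.2.2.2.1) rfl (fun _ _ => rfl)
  have zyt : ((cfS N).prod (cfS N)).Is (fun p => p.2.t = 0) :=
    AutS.Is.comap (S := (cfS N).prod (cfS N)) (n_zero N) (fun p => p.2.t) (fun c => c.2.2.2.2.2.2.2) rfl (fun _ _ => rfl)
  have eqi : ((cfS N).prod (cfS N)).Is (fun p => p.2.i = p.1.i) :=
    AutS.Is.comap (S := (cfS N).prod (cfS N)) u_eq (fun p => (p.1.i, p.2.i)) (fun c => (c.1.1, c.2.1)) rfl (fun _ _ => rfl)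
  have eqm : ((cfS N).prod (cfS N)).Is (fun p => p.2.m = p.1.m) :=
    AutS.Is.comap (S := (cfS N).prod (cfS N)) u_eq (fun p => (p.1.m, p.2.m)) (fun c => (c.1.2.2.1, c.2.2.2.1)) rfl (fun _ _ => rfl)
  have eqk : ((cfS N).prod (cfS N)).Is (fun p => p.2.k = p.1.k) :=
    AutS.Is.comap (S := (cfS N).prod (cfS N)) u_eq (fun p => (p.1.k, p.2.k)) (fun c => (c.1.2.2.2.2.1, c.2.2.2.2.2.1)) rfl (fun _ _ => rfl)
  have eqM : ((cfS N).prod (cfS N)).Is (fun p => p.2.M = p.1.M) :=
    AutS.Is.comap (S := (cfS N).prod (cfS N)) b_eq (fun p => (p.1.M, p.2.M)) (fun c => (c.1.2.1, c.2.2.1)) rfl (fun _ _ => rfl)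
  have ym1 : ((cfS N).prod (cfS N)).Is (fun p => p.2.m = 1) :=
    AutS.Is.comap (S := (cfS N).prod (cfS N)) u_one (fun p => p.2.m) (fun c => c.2.2.2.1) rfl (fun _ _ => rfl)
  have xmpos : ((cfS N).prod (cfS N)).Is (fun p => 1 ≤ p.1.m) :=
    AutS.Is.comap (S := (cfS N).prod (cfS N)) u_pos (fun p => p.1.m) (fun c => c.1.2.2.1) rfl (fun _ _ => rfl)
  have ltM : ((cfS N).prod (cfS N)).Is (fun p => p.1.M < 2 ^ p.1.m) :=
    AutS.Is.comap (S := (cfS N).prod (cfS N)) b_lt (fun p => (p.1.M, p.1.m)) (fun c => (c.1.2.1, c.1.2.2.1)) rfl (fun _ _ => rfl)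
  have bslt : ((cfS N).prod (cfS N)).Is (fun p => p.1.b + 1 < 2 ^ p.1.m) :=
    AutS.Is.comap (S := (cfS N).prod (cfS N)) b_succ_lt (fun p => (p.1.b, p.1.m)) (fun c => (c.1.2.2.2.1, c.1.2.2.1)) rfl (fun _ _ => rfl)
  have bfull : ((cfS N).prod (cfS N)).Is (fun p => p.1.b + 1 = 2 ^ p.1.m) :=
    AutS.Is.comap (S := (cfS N).prod (cfS N)) b_full (fun p => (p.1.b, p.1.m)) (fun c => (c.1.2.2.2.1, c.1.2.2.1)) rfl (fun _ _ => rfl)
  have bsucc : ((cfS N).prod (cfS N)).Is (fun p => p.2.b = p.1.b + 1) :=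
    AutS.Is.comap (S := (cfS N).prod (cfS N)) b_succ (fun p => (p.1.b, p.2.b)) (fun c => (c.1.2.2.2.1, c.2.2.2.2.1)) rfl (fun _ _ => rfl)
  have ksucc : ((cfS N).prod (cfS N)).Is (fun p => p.2.k = p.1.k + 1) :=
    AutS.Is.comap (S := (cfS N).prod (cfS N)) u_succ (fun p => (p.1.k, p.2.k)) (fun c => (c.1.2.2.2.2.1, c.2.2.2.2.2.1)) rfl (fun _ _ => rfl)
  have ipred : ((cfS N).prod (cfS N)).Is (fun p => p.1.i = p.2.i + 1) :=
    AutS.Is.comap (S := (cfS N).prod (cfS N)) u_succ (fun p => (p.2.i, p.1.i)) (fun c => (c.2.1, c.1.1)) rfl (fun _ _ => rfl)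
  have push : ((cfS N).prod (cfS N)).Is (fun p => p.1.M < 2 ^ p.1.m ∧ p.2.M = p.1.M + 2 ^ p.1.m) :=
    AutS.Is.comap (S := (cfS N).prod (cfS N)) b_push (fun p => ((p.1.M, p.2.M), p.1.m)) (fun c => ((c.1.2.1, c.2.2.1), c.1.2.2.1)) rfl (fun _ _ => rfl)
  have mlt : ((cfS N).prod (cfS N)).Is (fun p => p.1.m < p.2.m) :=
    AutS.Is.comap (S := (cfS N).prod (cfS N)) u_lt (fun p => (p.1.m, p.2.m)) (fun c => (c.1.2.2.1, c.2.2.2.1)) rfl (fun _ _ => rfl)
  have mk : ((cfS N).prod (cfS N)).Is (fun p => p.2.m = p.1.k + 1) :=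
    AutS.Is.comap (S := (cfS N).prod (cfS N)) u_succ (fun p => (p.1.k, p.2.m)) (fun c => (c.1.2.2.2.2.1, c.2.2.2.1)) rfl (fun _ _ => rfl)
  have lst : ((cfS N).prod (cfS N)).Is (fun p => P.lst p.2.s) :=
    AutS.Is.comap (S := (cfS N).prod (cfS N)) (n_lst N P hord) (fun p => p.2.s) (fun c => c.2.2.2.2.2.2.1) rfl (fun _ _ => rfl)
  have yt1 : ((cfS N).prod (cfS N)).Is (fun p => p.2.t = 1) :=
    AutS.Is.comap (S := (cfS N).prod (cfS N)) (n_one N) (fun p => p.2.t) (fun c => c.2.2.2.2.2.2.2) rfl (fun _ _ => rfl)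
  have xs1 : ((cfS N).prod (cfS N)).Is (fun p => p.1.s = 1) :=
    AutS.Is.comap (S := (cfS N).prod (cfS N)) (n_one N) (fun p => p.1.s) (fun c => c.1.2.2.2.2.2.1) rfl (fun _ _ => rfl)
  have spred : ((cfS N).prod (cfS N)).Is (fun p => 1 ≤ p.2.s ∧ p.1.s = p.2.s + 1) :=
    AutS.Is.comap (S := (cfS N).prod (cfS N)) N.suc (fun p => (p.2.s, p.1.s)) (fun c => (c.2.2.2.2.2.2.1, c.1.2.2.2.2.2.1)) rfl (fun _ _ => rfl)
  have tsucc : ((cfS N).prod (cfS N)).Is (fun p => 1 ≤ p.1.t ∧ p.2.t = p.1.t + 1) :=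
    AutS.Is.comap (S := (cfS N).prod (cfS N)) N.suc (fun p => (p.1.t, p.2.t)) (fun c => (c.1.2.2.2.2.2.2, c.2.2.2.2.2.2.2)) rfl (fun _ _ => rfl)
  have nx : ((cfS N).prod (cfS N)).Is (fun p => P.nx p.1.t p.2.s) :=
    AutS.Is.comap (S := (cfS N).prod (cfS N)) (n_nx N P hord) (fun p => (p.1.t, p.2.s)) (fun c => (c.1.2.2.2.2.2.2, c.2.2.2.2.2.2.1)) rfl (fun _ _ => rfl)
  have len : ((cfS N).prod (cfS N)).Is (fun p => P.ρ p.2.s < P.B ^ p.2.k) :=
    AutS.Is.comap (S := (cfS N).prod (cfS N)) (n_len N P hlen) (fun p => (p.2.s, p.2.k)) (fun c => (c.2.2.2.2.2.2.1, c.2.2.2.2.2.1)) rfl (fun _ _ => rfl)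
  have hR1 : ((cfS N).prod (cfS N)).Is (fun p => R1 p.1 p.2) :=
    (zxM.and (zxm.and (zxb.and (zxk.and (zxs.and (zxt)))))).and (eqi.and (zyM.and (ym1.and (zyb.and (zyk.and (zys.and (zyt)))))))
  have hR2 : ((cfS N).prod (cfS N)).Is (fun p => R2 p.1 p.2) :=
    (zxs.and (zxt.and (xmpos.and (ltM.and (bslt))))).and (eqi.and (eqM.and (eqm.and (bsucc.and (ksucc.and (zys.and (zyt)))))))
  have hR3 : ((cfS N).prod (cfS N)).Is (fun p => R3 p.1 p.2) :=
    (zxs.and (zxt.and (xmpos.and (ltM.and (bfull.and (ipred)))))).and (push.and (mlt.and (mk.and (zyb.and (zyk.and (zys.and (zyt)))))))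
  have hR4 : ((cfS N).prod (cfS N)).Is (fun p => R4 P p.1 p.2) :=
    (zxs.and (zxt.and (xmpos.and (ltM.and (bfull.and (zxi)))))).and (zyi.and (push.and (zym.and (zyb.and (ksucc.and (lst.and (yt1)))))))
  have hR5 : ((cfS N).prod (cfS N)).Is (fun p => R5 p.1 p.2) :=
    (zxi.and (zxm.and (zxb.and (zyi.and (eqM.and (zym.and (zyb.and (eqk)))))))).and (spred.and (tsucc))
  have hR6 : ((cfS N).prod (cfS N)).Is (fun p => R6 P p.1 p.2) :=
    (zxi.and (zxm.and (zxb.and (zyi.and (eqM.and (zym.and (zyb.and (eqk)))))))).and (xs1.and (nx.and (yt1.and (len))))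
  exact hR1.or (hR2.or (hR3.or (hR4.or (hR5.or hR6))))

theorem is_Vd : (cfS N).Is Vd := by
  have zi : (cfS N).Is (fun x => x.i = 0) :=
    AutS.Is.comap (S := cfS N) u_zero (fun x => x.i) (fun c => c.1) rfl (fun _ _ => rfl)
  have zM : (cfS N).Is (fun x => x.M = 0) :=
    AutS.Is.comap (S := cfS N) b_zero (fun x => x.M) (fun c => c.2.1) rfl (fun _ _ => rfl)
  have zm : (cfS N).Is (fun x => x.m = 0) :=
    AutS.Is.comap (S := cfS N) u_zero (fun x => x.m) (fun c => c.2.2.1) rfl (fun _ _ => rfl)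
  have zb : (cfS N).Is (fun x => x.b = 0) :=
    AutS.Is.comap (S := cfS N) b_zero (fun x => x.b) (fun c => c.2.2.2.1) rfl (fun _ _ => rfl)
  have zk : (cfS N).Is (fun x => x.k = 0) :=
    AutS.Is.comap (S := cfS N) u_zero (fun x => x.k) (fun c => c.2.2.2.2.1) rfl (fun _ _ => rfl)
  have zs : (cfS N).Is (fun x => x.s = 0) :=
    AutS.Is.comap (S := cfS N) (n_zero N) (fun x => x.s) (fun c => c.2.2.2.2.2.1) rfl (fun _ _ => rfl)
  have zt : (cfS N).Is (fun x => x.t = 0) :=
    AutS.Is.comap (S := cfS N) (n_zero N) (fun x => x.t) (fun c => c.2.2.2.2.2.2) rfl (fun _ _ => rfl)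
  have mpos : (cfS N).Is (fun x => 1 ≤ x.m) :=
    AutS.Is.comap (S := cfS N) u_pos (fun x => x.m) (fun c => c.2.2.1) rfl (fun _ _ => rfl)
  have ltM : (cfS N).Is (fun x => x.M < 2 ^ x.m) :=
    AutS.Is.comap (S := cfS N) b_lt (fun x => (x.M, x.m)) (fun c => (c.2.1, c.2.2.1)) rfl (fun _ _ => rfl)
  have ltb : (cfS N).Is (fun x => x.b < 2 ^ x.m) :=
    AutS.Is.comap (S := cfS N) b_lt (fun x => (x.b, x.m)) (fun c => (c.2.2.2.1, c.2.2.1)) rfl (fun _ _ => rfl)
  have spos : (cfS N).Is (fun x => 1 ≤ x.s) :=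
    AutS.Is.comap (S := cfS N) (n_pos N) (fun x => x.s) (fun c => c.2.2.2.2.2.1) rfl (fun _ _ => rfl)
  have tpos : (cfS N).Is (fun x => 1 ≤ x.t) :=
    AutS.Is.comap (S := cfS N) (n_pos N) (fun x => x.t) (fun c => c.2.2.2.2.2.2) rfl (fun _ _ => rfl)
  exact (zM.and (zm.and (zb.and (zk.and (zs.and (zt)))))).or ((zs.and (zt.and (mpos.and (ltM.and (ltb))))).or (zi.and (zm.and (zb.and (spos.and (tpos))))))


/-- The encoding of the signed configurations. -/
@[reducible] def sgS (N : Nm) : AutS (Cf × Bool) := (cfS N).prod bit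

theorem bit_true : bit.Is (fun b => b = true) := by
  refine AutS.Is.local (S := bit) (fun c : Bool => c = true) (fun _ _ : Bool => True) (fun b => ?_)
  show ((b && decide (0 = 0)) = true ∧ ∀ _ : ℕ, True) ↔ b = true
  simp

theorem bit_false : bit.Is (fun b => b = false) := by
  refine AutS.Is.local (S := bit) (fun c : Bool => c = false) (fun _ _ : Bool => True)
    (fun b => ?_)
  show ((b && decide (0 = 0)) = false ∧ ∀ _ : ℕ, True) ↔ b = false
  simp

theorem is_F (ρ' : Cf → ℕ) (hρ' : Function.Injective ρ')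
    (ho : ((cfS N).prod (cfS N)).Is (fun p => ρ' p.1 < ρ' p.2))
    (hord : (N.S.prod N.S).Is (fun p => P.ρ p.1 < P.ρ p.2))
    (hlen : ∀ a K, (P.ρ a < P.B ^ K ↔ ∀ n, K ≤ n → N.S.enc a n = default)) :
    ((sgS N).prod (sgS N)).Is (fun p => (mach P ρ' hρ').F p.1 p.2) := by
  have hSt := is_St N P hord hlen
  have hV := is_Vd N
  have hsw : ((cfS N).prod (cfS N)).Is (fun p => St P p.2 p.1) :=
    AutS.Is.comap (S := (cfS N).prod (cfS N)) hSt (fun p => (p.2, p.1)) (fun c => (c.2, c.1))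
      rfl (fun _ _ => rfl)
  have hA : (cfS N).Is (mach P ρ' hρ').A :=
    hV.and (AutS.Is.not (AutS.Is.ex (T := cfS N) hsw))
  have hE : (cfS N).Is (mach P ρ' hρ').E :=
    hV.and (AutS.Is.not (AutS.Is.ex (T := cfS N) hSt))
  have hNx := is_Nx (cfS N) (mach P ρ' hρ').A ρ' hA ho
  have pt : ((sgS N).prod (sgS N)).Is (fun p => p.1.2 = true) :=
    AutS.Is.comap (S := (sgS N).prod (sgS N)) bit_true (fun p => p.1.2) (fun c => c.1.2)
      rfl (fun _ _ => rfl)
  have pf : ((sgS N).prod (sgS N)).Is (fun p => p.1.2 = false) :=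
    AutS.Is.comap (S := (sgS N).prod (sgS N)) bit_false (fun p => p.1.2) (fun c => c.1.2)
      rfl (fun _ _ => rfl)
  have qt : ((sgS N).prod (sgS N)).Is (fun p => p.2.2 = true) :=
    AutS.Is.comap (S := (sgS N).prod (sgS N)) bit_true (fun p => p.2.2) (fun c => c.2.2)
      rfl (fun _ _ => rfl)
  have qf : ((sgS N).prod (sgS N)).Is (fun p => p.2.2 = false) :=
    AutS.Is.comap (S := (sgS N).prod (sgS N)) bit_false (fun p => p.2.2) (fun c => c.2.2)
      rfl (fun _ _ => rfl)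
  have s1 : ((sgS N).prod (sgS N)).Is (fun p => St P p.1.1 p.2.1) :=
    AutS.Is.comap (S := (sgS N).prod (sgS N)) hSt (fun p => (p.1.1, p.2.1))
      (fun c => (c.1.1, c.2.1)) rfl (fun _ _ => rfl)
  have s2 : ((sgS N).prod (sgS N)).Is (fun p => St P p.2.1 p.1.1) :=
    AutS.Is.comap (S := (sgS N).prod (sgS N)) hSt (fun p => (p.2.1, p.1.1))
      (fun c => (c.2.1, c.1.1)) rfl (fun _ _ => rfl)
  have e1 : ((sgS N).prod (sgS N)).Is (fun p => (mach P ρ' hρ').E p.1.1) :=
    AutS.Is.comap (S := (sgS N).prod (sgS N)) hE (fun p => p.1.1)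
      (fun c => c.1.1) rfl (fun _ _ => rfl)
  have e2 : ((sgS N).prod (sgS N)).Is (fun p => p.1.1 = p.2.1) :=
    AutS.Is.comap (S := (sgS N).prod (sgS N)) (AutS.Is.eq (cfS N)) (fun p => (p.1.1, p.2.1))
      (fun c => (c.1.1, c.2.1)) rfl (fun _ _ => rfl)
  have n1 : ((sgS N).prod (sgS N)).Is (fun p => Nx (mach P ρ' hρ').A ρ' p.1.1 p.2.1) :=
    AutS.Is.comap (S := (sgS N).prod (sgS N)) hNx (fun p => (p.1.1, p.2.1))
      (fun c => (c.1.1, c.2.1)) rfl (fun _ _ => rfl)
  exact ((pt.and qt).and s1).or (((pt.and qf).and (e1.and e2)).or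
    (((pf.and qf).and s2).or ((pf.and qt).and n1)))

end names

end R336.AutCfg
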