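import Mathlib

/-!
# Cubic forms of units with one real place: effective bounds

`N a b x y z` is the norm of `x / α + y + z α`, where `α` is a root of `t³ - a t² - b t - 1`.
-/

set_option autoImplicit false

namespace Pool.Agent.R336.Hess

/-- the norm of `x / α + y + z α`, where `α` is a root of `t³ - a t² - b t - 1` -/
def N (a b x y z : ℤ) : ℤ :=
  x ^ 3 + a * x ^ 2 * y + (a ^ 2 + 2 * b) * x ^ 2 * z - b * x * y ^ 2 - (a * b + 3) * x * y * z +
    (b ^ 2 - 2 * a) * x * z ^ 2 + y ^ 3 + a * y ^ 2 * z - b * y * z ^ 2 + z ^ 3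

/-- `θ` is the real root and `p`, `q` are the trace and the norm of the pair of the complex roots
of `t³ - a t² - b t - 1`. -/
structure Root (a b : ℤ) (θ p q : ℝ) : Prop where
  hθ : θ * q = 1
  ha : (a : ℝ) = θ + p
  hb : (b : ℝ) = -(θ * p) - q
  hg : 0 < q - p ^ 2 / 4

variable {a b : ℤ} {θ p q : ℝ}

lemma Root.q_pos (h : Root a b θ p q) : 0 < q := by
  have := h.hg
  nlinarith [sq_nonneg p]

lemma Root.θ_pos (h : Root a b θ p q) : 0 < θ := by
  have h1 := h.hθ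
  have h2 := h.q_pos
  by_contra hcon
  push Not at hcon
  nlinarith

lemma Root.swap (h : Root a b θ p q) : Root (-b) (-a) q (p * θ) θ := by
  have h1 := h.hθ
  refine ⟨by linarith, ?_, ?_, ?_⟩
  · push_cast; rw [h.hb]; ring
  · push_cast; rw [h.ha]
    have : q * (p * θ) = p * (θ * q) := by ring
    rw [this, h1]; ring
  · have h2 : θ - (p * θ) ^ 2 / 4 = θ ^ 2 * (q - p ^ 2 / 4) := by
      have : θ ^ 2 * q = θ * (θ * q) := by ring
      have h3 : θ ^ 2 * (q - p ^ 2 / 4) = θ ^ 2 * q - (p * θ) ^ 2 / 4 := by ring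
      rw [h3, this, h1]; ring
    rw [h2]
    have h3 := h.hg
    have h4 := h.θ_pos
    positivity

lemma N_swap (a b x y z : ℤ) : N (-b) (-a) z y x = N a b x y z := by
  unfold N; ring

lemma N_shift (a b x y z : ℤ) : N a b z (x + b * z) (y + a * z) = N a b x y z := by
  unfold N; ring

lemma N_unshift (a b x y z : ℤ) : N a b (y - b * x) (z - a * x) x = N a b x y z := by
  unfold N; ring

lemma N_real (h : Root a b θ p q) (x y z : ℤ) : (N a b x y z : ℝ) =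
    ((y : ℝ) + z * θ + x * q) *
      (((y : ℝ) + p / 2 * (z + x * θ)) ^ 2 + (q - p ^ 2 / 4) * (z - x * θ) ^ 2) := by
  have hq0 : q ≠ 0 := h.q_pos.ne'
  have hθ' : θ = 1 / q := by
    have := h.hθ
    field_simp; linarith
  unfold N
  push_cast
  rw [h.ha, h.hb, hθ']
  field_simp
  ring

/-- the linear form -/
noncomputable def L (θ q : ℝ) (x y z : ℤ) : ℝ := (y : ℝ) + z * θ + x * q

lemma L_shift (h : Root a b θ p q) (x y z : ℤ) :
    L θ q z (x + b * z) (y + a * z) = θ * L θ q x y z := by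
  unfold L
  push_cast
  rw [h.ha, h.hb]
  linear_combination (-(x : ℝ)) * h.hθ

lemma L_unshift (h : Root a b θ p q) (x y z : ℤ) :
    L θ q (y - b * x) (z - a * x) x = θ⁻¹ * L θ q x y z := by
  have h1 := L_shift h (y - b * x) (z - a * x) x
  have h2 : L θ q x (y - b * x + b * x) (z - a * x + a * x) = L θ q x y z := by
    congr 1 <;> ring
  rw [h2] at h1
  rw [h1, ← mul_assoc, inv_mul_cancel₀ h.θ_pos.ne', one_mul]

/-- a congruence condition preserved by multiplication with `α` and `1 / α` -/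
def Pres (a b : ℤ) (P : ℤ → ℤ → ℤ → Prop) : Prop :=
  (∀ x y z, P x y z → P z (x + b * z) (y + a * z)) ∧
  (∀ x y z, P x y z → P (y - b * x) (z - a * x) x)

lemma orbit (h : Root a b θ p q) {P : ℤ → ℤ → ℤ → Prop} (hP : Pres a b P) {x y z : ℤ}
    (hx : P x y z) (n : ℤ) : ∃ x' y' z', P x' y' z' ∧ N a b x' y' z' = N a b x y z ∧
      L θ q x' y' z' = θ ^ n * L θ q x y z := by
  have hθ0 := h.θ_pos.ne'
  induction n using Int.induction_on with
  | zero => exact ⟨x, y, z, hx, rfl, by simp⟩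
  | succ i ih =>
    obtain ⟨x', y', z', h1, h2, h3⟩ := ih
    refine ⟨z', x' + b * z', y' + a * z', hP.1 _ _ _ h1, by rw [N_shift, h2], ?_⟩
    rw [L_shift h, h3, zpow_add₀ hθ0, zpow_one]; ring
  | pred i ih =>
    obtain ⟨x', y', z', h1, h2, h3⟩ := ih
    refine ⟨y' - b * x', z' - a * x', x', hP.2 _ _ _ h1, by rw [N_unshift, h2], ?_⟩
    rw [L_unshift h, h3, zpow_sub₀ hθ0, zpow_one]
    field_simp

lemma normalize (h : Root a b θ p q) (h1 : 1 < θ) {P : ℤ → ℤ → ℤ → Prop} (hP : Pres a b P)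
    {x y z : ℤ} (hx : P x y z) (hN : N a b x y z ≠ 0) : ∃ x' y' z', P x' y' z' ∧
      N a b x' y' z' = N a b x y z ∧ 1 / 3 ≤ |L θ q x' y' z'| ∧ |L θ q x' y' z'| < θ / 3 := by
  have hL : L θ q x y z ≠ 0 := by
    intro h0
    apply hN
    have h2 := N_real h x y z
    have h3 : (y : ℝ) + z * θ + x * q = 0 := h0
    rw [h3, zero_mul] at h2
    exact_mod_cast h2
  obtain ⟨n, hn1, hn2⟩ := exists_mem_Ico_zpow (x := 3 * |L θ q x y z|) (y := θ)
    (by positivity) h1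
  obtain ⟨x', y', z', g1, g2, g3⟩ := orbit h hP hx (-n)
  refine ⟨x', y', z', g1, g2, ?_, ?_⟩
  · have hpos : 0 < θ ^ n := zpow_pos h.θ_pos n
    rw [g3, abs_mul, abs_of_pos (zpow_pos h.θ_pos _), zpow_neg]
    rw [inv_mul_eq_div, le_div_iff₀ hpos]
    linarith
  · have hpos : 0 < θ ^ n := zpow_pos h.θ_pos n
    rw [g3, abs_mul, abs_of_pos (zpow_pos h.θ_pos _), zpow_neg]
    rw [inv_mul_eq_div, div_lt_iff₀ hpos]
    rw [zpow_add_one₀ h.θ_pos.ne'] at hn2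
    nlinarith

/-- `4 θ² g = D + 2 b q + 3 q²` -/
lemma four_w (h : Root a b θ p q) :
    4 * (θ ^ 2 * (q - p ^ 2 / 4)) = ((4 * a - b ^ 2 : ℤ) : ℝ) + 2 * b * q + 3 * q ^ 2 := by
  push_cast
  rw [h.ha, h.hb]
  have h1 := h.hθ
  linear_combination (4 * θ + 4 * p) * h1

/-- the basic inequalities for a normalized element whose norm is `± 4` -/
lemma basic (h : Root a b θ p q) {x y z : ℤ} {ν : ℝ} (hν : |(N a b x y z : ℝ)| ≤ ν)
    (hL : 1 / 3 ≤ |L θ q x y z|) :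
    ((y : ℝ) + p / 2 * (z + x * θ)) ^ 2 ≤ 3 * ν ∧
    (θ ^ 2 * (q - p ^ 2 / 4)) * ((x : ℝ) - z * q) ^ 2 ≤ 3 * ν ∧
    L θ q x y z = z * (θ - p + q ^ 2) + ((x : ℝ) - z * q) * (q - p * θ / 2) +
      ((y : ℝ) + p / 2 * (z + x * θ)) ∧
    (y : ℝ) - (b : ℝ) / 2 * x = ((y : ℝ) + p / 2 * (z + x * θ)) + q / 2 * x -
      (p * θ / 2) * z * q := by
  have h1 := h.hθ
  have hg := h.hg
  have h2 := N_real h x y z
  have h3 : (z - x * θ : ℝ) ^ 2 = θ ^ 2 * (x - z * q) ^ 2 := by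
    linear_combination (-((z : ℝ) ^ 2) * (θ * q + 1) + 2 * x * z * θ) * h1
  have hW : ((y : ℝ) + p / 2 * (z + x * θ)) ^ 2 + (q - p ^ 2 / 4) * (z - x * θ) ^ 2 ≤ 3 * ν := by
    have h4 : |L θ q x y z| * (((y : ℝ) + p / 2 * (z + x * θ)) ^ 2 +
        (q - p ^ 2 / 4) * (z - x * θ) ^ 2) ≤ ν := by
      refine le_trans (le_of_eq ?_) hν
      rw [h2, abs_mul]
      congr 1
      rw [abs_of_nonneg]
      positivity
    have h5 : 0 ≤ ((y : ℝ) + p / 2 * (z + x * θ)) ^ 2 + (q - p ^ 2 / 4) * (z - x * θ) ^ 2 := by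
      positivity
    nlinarith
  refine ⟨?_, ?_, ?_, ?_⟩
  · have : 0 ≤ (q - p ^ 2 / 4) * (z - x * θ : ℝ) ^ 2 := by positivity
    linarith
  · have h4 : (θ ^ 2 * (q - p ^ 2 / 4)) * ((x : ℝ) - z * q) ^ 2 =
        (q - p ^ 2 / 4) * (z - x * θ) ^ 2 := by rw [h3]; ring
    rw [h4]
    have : 0 ≤ ((y : ℝ) + p / 2 * (z + x * θ)) ^ 2 := sq_nonneg _
    linarith
  · unfold L
    linear_combination (-(p / 2) * z) * h1
  · rw [h.hb]
    ring_nf
    linear_combination ((p / 2) * z) * h1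

lemma Root.p_sq (h : Root a b θ p q) {s : ℝ} (hs0 : 0 < s) (hs : s ^ 2 = θ) :
    |p| ≤ 2 / s ∧ |p * θ / 2| ≤ s ∧ s * q = 1 / s := by
  have hg := h.hg
  have h1 := h.hθ
  have h3 : s * q = 1 / s := by
    rw [eq_div_iff hs0.ne']
    rw [← h1, ← hs]; ring
  refine ⟨?_, ?_, h3⟩
  · apply abs_le_of_sq_le_sq _ (by positivity)
    have h4 : q = 1 / s ^ 2 := by
      rw [eq_div_iff (by positivity), hs]; linarith
    rw [h4] at hg
    have h5 : (2 / s) ^ 2 = 4 * (1 / s ^ 2) := by ring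
    rw [h5]; linarith
  · apply abs_le_of_sq_le_sq _ hs0.le
    rw [hs]
    have h4 : θ - (p * θ / 2) ^ 2 = θ ^ 2 * (q - p ^ 2 / 4) := by
      linear_combination (-θ) * h1
    have h5 := h.θ_pos
    have : 0 ≤ θ ^ 2 * (q - p ^ 2 / 4) := by positivity
    linarith

/-- the polynomial at `a - 1` -/
lemma Root.lt_θ (h : Root a b θ p q) (ha : 2 ≤ a) (hab : 1 ≤ a + b) : (a : ℝ) - 1 < θ := by
  by_contra hcon
  push Not at hcon
  have h1 := h.hθ
  have hq := h.q_pos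
  have hg := h.hg
  -- value of the polynomial at `a - 1`
  have h2 : ((a : ℝ) - 1) ^ 3 - a * ((a : ℝ) - 1) ^ 2 - b * ((a : ℝ) - 1) - 1 =
      ((a : ℝ) - 1 - θ) * (((a : ℝ) - 1) ^ 2 - p * ((a : ℝ) - 1) + q) := by
    obtain ⟨c, hc⟩ : ∃ c : ℝ, c = (a : ℝ) - 1 := ⟨_, rfl⟩
    rw [← hc, h.ha, h.hb]
    linear_combination h1
  have h3 : 0 < ((a : ℝ) - 1) ^ 2 - p * ((a : ℝ) - 1) + q := by
    nlinarith [sq_nonneg ((a : ℝ) - 1 - p / 2)]
  have h4 : 0 ≤ ((a : ℝ) - 1 - θ) * (((a : ℝ) - 1) ^ 2 - p * ((a : ℝ) - 1) + q) :=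
    mul_nonneg (by linarith) h3.le
  rw [← h2] at h4
  have haR : (2 : ℝ) ≤ a := by exact_mod_cast ha
  have habR : (1 : ℝ) ≤ a + b := by exact_mod_cast hab
  nlinarith

lemma Root.ab (h : Root a b θ p q) (h1 : 1 < θ) : 1 ≤ a + b := by
  have h2 := h.hθ
  have hg := h.hg
  have h3 : ((a + b : ℤ) : ℝ) = (θ - 1) * (1 - p + q) := by
    push_cast; rw [h.ha, h.hb]; linear_combination (-1 : ℝ) * h2
  have h4 : 0 < 1 - p + q := by nlinarith [sq_nonneg (1 - p / 2)]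
  have h5 : (0 : ℝ) < ((a + b : ℤ) : ℝ) := by rw [h3]; exact mul_pos (by linarith) h4
  have : 0 < a + b := by exact_mod_cast h5
  omega

/-- the discriminant -/
def disc (a b : ℤ) : ℤ := a ^ 2 * b ^ 2 + 4 * b ^ 3 - 4 * a ^ 3 - 18 * a * b - 27

lemma Root.disc_neg (h : Root a b θ p q) : disc a b < 0 := by
  have h1 := h.hθ
  have hg := h.hg
  have h2 : ((disc a b : ℤ) : ℝ) = -(4 * (q - p ^ 2 / 4) * (θ ^ 2 - p * θ + q) ^ 2) := by
    have hq0 : q ≠ 0 := h.q_pos.ne'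
    have hθ' : θ = 1 / q := by
      field_simp; linarith
    unfold disc
    push_cast
    rw [h.ha, h.hb, hθ']
    field_simp
    ring
  have h3 : 0 < θ ^ 2 - p * θ + q := by nlinarith [sq_nonneg (θ - p / 2)]
  have h4 : ((disc a b : ℤ) : ℝ) < 0 := by
    rw [h2]
    have : 0 < 4 * (q - p ^ 2 / 4) * (θ ^ 2 - p * θ + q) ^ 2 := by positivity
    linarith
  exact_mod_cast h4

end Pool.Agent.R336.Hess
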