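import Pool.Agent.R336.HessA

/-!
# Norm four: the orders `ℤ[α]`, `α³ = a α² + b α + 1` with `a`, `b` even
-/

set_option autoImplicit false

namespace Pool.Agent.R336.Hess

variable {a b : ℤ} {θ p q : ℝ}

/-- all three coordinates have the same parity -/
def P (x y z : ℤ) : Prop := 2 ∣ x - y ∧ 2 ∣ y - z

instance (x y z : ℤ) : Decidable (P x y z) := by unfold P; infer_instance

lemma pres_P (ha : Even a) (hb : Even b) : Pres a b P := by
  obtain ⟨a', rfl⟩ := ha
  obtain ⟨b', rfl⟩ := hb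
  constructor
  · rintro x y z ⟨h1, h2⟩
    have e1 : (b' + b') * z = 2 * (b' * z) := by ring
    have e2 : (a' + a') * z = 2 * (a' * z) := by ring
    rw [e1, e2]
    unfold P
    constructor <;> omega
  · rintro x y z ⟨h1, h2⟩
    have e1 : (b' + b') * x = 2 * (b' * x) := by ring
    have e2 : (a' + a') * x = 2 * (a' * x) := by ring
    rw [e1, e2]
    unfold P
    constructor <;> omega

/-- linear bounds from the basic inequalities -/
lemma bounds (h : Root a b θ p q) {s T Y : ℝ} (hs0 : 0 < s) (hs : s ^ 2 = θ) {x y z : ℤ}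
    (hT : |(x : ℝ) - z * q| ≤ T) (hY : |(y : ℝ) + p / 2 * (z + x * θ)| ≤ Y)
    (hL : |L θ q x y z| < θ / 3)
    (hid1 : L θ q x y z = z * (θ - p + q ^ 2) + ((x : ℝ) - z * q) * (q - p * θ / 2) +
      ((y : ℝ) + p / 2 * (z + x * θ)))
    (hid2 : (y : ℝ) - (b : ℝ) / 2 * x = ((y : ℝ) + p / 2 * (z + x * θ)) + q / 2 * x -
      (p * θ / 2) * z * q) :
    |(z : ℝ)| * (θ - 2 / s) ≤ θ / 3 + T * (q + s) + Y ∧ |(x : ℝ)| ≤ T + |(z : ℝ)| * q ∧
    |(y : ℝ) - (b : ℝ) / 2 * x| ≤ Y + q / 2 * |(x : ℝ)| + 1 / s * |(z : ℝ)| := by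
  obtain ⟨hp, hpθ, hsq⟩ := h.p_sq hs0 hs
  have hq := h.q_pos
  have hθ := h.θ_pos
  have hT0 : 0 ≤ T := le_trans (abs_nonneg _) hT
  refine ⟨?_, ?_, ?_⟩
  · have e1 : (z : ℝ) * (θ - p + q ^ 2) = L θ q x y z - ((x : ℝ) - z * q) * (q - p * θ / 2) -
      ((y : ℝ) + p / 2 * (z + x * θ)) := by rw [hid1]; ring
    have e2 : |(z : ℝ)| * (θ - 2 / s) ≤ |(z : ℝ) * (θ - p + q ^ 2)| := by
      rw [abs_mul]
      apply mul_le_mul_of_nonneg_left _ (abs_nonneg _)
      refine le_trans ?_ (le_abs_self _)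
      have := (abs_le.1 hp).2
      nlinarith [sq_nonneg q]
    have e3 : |((x : ℝ) - z * q) * (q - p * θ / 2)| ≤ T * (q + s) := by
      rw [abs_mul]
      apply mul_le_mul hT _ (abs_nonneg _) hT0
      calc |q - p * θ / 2| ≤ |q| + |p * θ / 2| := abs_sub _ _
        _ ≤ q + s := by rw [abs_of_pos hq]; linarith
    have e4 : |(z : ℝ) * (θ - p + q ^ 2)| ≤ |L θ q x y z| +
        |((x : ℝ) - z * q) * (q - p * θ / 2)| + |(y : ℝ) + p / 2 * (z + x * θ)| := by
      rw [e1]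
      refine le_trans (abs_sub _ _) ?_
      have := abs_sub (L θ q x y z) (((x : ℝ) - z * q) * (q - p * θ / 2))
      linarith
    linarith
  · have e1 : (x : ℝ) = (x - z * q) + z * q := by ring
    calc |(x : ℝ)| = |((x : ℝ) - z * q) + z * q| := by rw [← e1]
      _ ≤ |(x : ℝ) - z * q| + |z * q| := abs_add_le _ _
      _ ≤ T + |(z : ℝ)| * q := by rw [abs_mul, abs_of_pos hq]; linarith
  · rw [hid2]
    have e1 : |q / 2 * (x : ℝ)| = q / 2 * |(x : ℝ)| := by
      rw [abs_mul, abs_of_pos (by positivity)]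
    have e2 : |(p * θ / 2) * z * q| ≤ 1 / s * |(z : ℝ)| := by
      rw [abs_mul, abs_mul, abs_of_pos hq, ← hsq]
      have := mul_le_mul_of_nonneg_right hpθ (mul_nonneg (abs_nonneg (z : ℝ)) hq.le)
      linarith
    have e3 := abs_sub (((y : ℝ) + p / 2 * (z + x * θ)) + q / 2 * x) ((p * θ / 2) * z * q)
    have e4 := abs_add_le ((y : ℝ) + p / 2 * (z + x * θ)) (q / 2 * x)
    linarith

/-- the exceptional pairs with a real root larger than one -/
def E6 : List (ℤ × ℤ) := [(2, 0), (2, 2), (4, -2), (4, 4), (6, -4), (10, -6)]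

/-- the finite test -/
def box (Z X Y : ℕ) (a b' : ℤ) : Bool :=
  (List.range (2 * Z + 1)).all fun i => (List.range (2 * X + 1)).all fun j =>
    (List.range (2 * Y + 1)).all fun k =>
      !(decide (P ((j : ℤ) - X) (b' * ((j : ℤ) - X) + ((k : ℤ) - Y)) ((i : ℤ) - Z))) ||
      !(decide (|N a (2 * b') ((j : ℤ) - X) (b' * ((j : ℤ) - X) + ((k : ℤ) - Y)) ((i : ℤ) - Z)| = 4))

lemma box_spec {Z X Y : ℕ} {a b' : ℤ} (h : box Z X Y a b' = true) {x y z : ℤ} (hP : P x y z)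
    (hN : |N a (2 * b') x y z| = 4) (hz : |z| ≤ Z) (hx : |x| ≤ X) (hy : |y - b' * x| ≤ Y) :
    False := by
  unfold box at h
  rw [abs_le] at hz hx hy
  rw [List.all_eq_true] at h
  have h1 := h (z + Z).toNat (by rw [List.mem_range]; omega)
  rw [List.all_eq_true] at h1
  have h2 := h1 (x + X).toNat (by rw [List.mem_range]; omega)
  rw [List.all_eq_true] at h2
  have h3 := h2 (y - b' * x + Y).toNat (by rw [List.mem_range]; omega)
  have e1 : (((z + Z).toNat : ℕ) : ℤ) - Z = z := by omega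
  have e2 : (((x + X).toNat : ℕ) : ℤ) - X = x := by omega
  have e3 : (((y - b' * x + Y).toNat : ℕ) : ℤ) - Y = y - b' * x := by omega
  rw [e1, e2, e3] at h3
  have e4 : b' * x + (y - b' * x) = y := by ring
  rw [e4] at h3
  simp [hP, hN] at h3

/-- the finite check for one pair -/
def ok (a b' : ℤ) : Bool :=
  !(decide (disc a (2 * b') < 0)) || !(decide (1 ≤ a + 2 * b')) || decide ((a, 2 * b') ∈ E6) ||
  (decide (a = b' ^ 2) && decide (4 ≤ b')) ||
  (decide (4 ≤ a) && decide (4 ≤ 4 * a - (2 * b') ^ 2) &&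
    (if a ≤ 10 then (decide (0 ≤ b' ∨ 4 * (a - 1) ≤ (4 * a - (2 * b') ^ 2) * (a - 1) + 4 * b') &&
      box 6 5 7 a b')
    else (decide (0 ≤ b' ∨ 16 * (a - 1) ≤ 5 * ((4 * a - (2 * b') ^ 2) * (a - 1) + 4 * b')) &&
      box 1 3 3 a b')))

def okAll : Bool :=
  (List.range 24).all fun i => (List.range 15).all fun j => ok (2 * (i : ℤ)) ((j : ℤ) - 7)

set_option maxRecDepth 100000 in
lemma okAll_true : okAll = true := by decide +kernel

lemma ok_of {a' b' : ℤ} (h1 : 0 ≤ a') (h2 : a' ≤ 23) (h3 : |b'| ≤ 7) : ok (2 * a') b' = true := by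
  have h := okAll_true
  unfold okAll at h
  rw [List.all_eq_true] at h
  have h4 := h a'.toNat (by rw [List.mem_range]; omega)
  rw [List.all_eq_true] at h4
  rw [abs_le] at h3
  have h5 := h4 (b' + 7).toNat (by rw [List.mem_range]; omega)
  have e1 : ((a'.toNat : ℕ) : ℤ) = a' := by omega
  have e2 : (((b' + 7).toNat : ℕ) : ℤ) - 7 = b' := by omega
  rw [e1, e2] at h5
  exact h5

end Pool.Agent.R336.Hess
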