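import Pool.Agent.R336.HessB

/-!
# Norm four: the list of the exceptional pairs
-/

set_option autoImplicit false

namespace Pool.Agent.R336.Hess

variable {a b : ℤ} {θ p q : ℝ}

lemma N_even (a b x y : ℤ) : N a b (2 * x) (2 * y) 0 = 8 * N a b x y 0 := by
  unfold N; ring

/-- an element with `z = 0` and all coordinates of the same parity does not have norm `± 4` -/
lemma not_z0 {x y : ℤ} (hP : P x y 0) (hN : |N a b x y 0| = 4) : False := by
  obtain ⟨h1, h2⟩ := hP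
  obtain ⟨y', rfl⟩ : ∃ y', y = 2 * y' := ⟨y / 2, by omega⟩
  obtain ⟨x', rfl⟩ : ∃ x', x = 2 * x' := ⟨x / 2, by omega⟩
  rw [N_even, abs_mul] at hN
  have : |(8 : ℤ)| = 8 := rfl
  rw [this] at hN
  omega

lemma abs_T {t T c : ℝ} (hT : 0 ≤ T) (h : c * t ^ 2 ≤ 12) (hc : 12 ≤ c * T ^ 2) (_hc0 : 0 < c) :
    |t| ≤ T := by
  apply abs_le_of_sq_le_sq _ hT
  by_contra hcon
  push Not at hcon
  nlinarith

lemma lt_of_sq {s c θ : ℝ} (hs0 : 0 < s) (hs : s ^ 2 = θ) (h : c ^ 2 < θ) : c < s :=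
  lt_of_pow_lt_pow_left₀ 2 hs0.le (by rw [hs]; exact h)

lemma mul_le_sq {s c : ℝ} (hs0 : 0 < s) (h : c < s) : c * s ≤ s ^ 2 := by
  rw [sq]; exact mul_le_mul_of_nonneg_right h.le hs0.le

lemma q_lt {θ q c : ℝ} (hq : 0 < q) (hθ : θ * q = 1) (hc0 : 0 < c) (hc : c < θ) : q < 1 / c := by
  rw [lt_div_iff₀ hc0]
  calc q * c < q * θ := mul_lt_mul_of_pos_left hc hq
    _ = 1 := by rw [mul_comm, hθ]

/-- the case of large `a` -/
lemma big (h : Root a b θ p q) (h1 : 1 < θ) (ha48 : 48 ≤ a) (hD : 4 ≤ 4 * a - b ^ 2)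
    {x y z : ℤ} (hP : P x y z) (hN : |N a b x y z| = 4) (hL1 : 1 / 3 ≤ |L θ q x y z|)
    (hL2 : |L θ q x y z| < θ / 3) : False := by
  have hab := h.ab h1
  have hlt := h.lt_θ (by omega) hab
  have haR : (48 : ℝ) ≤ a := by exact_mod_cast ha48
  have hθ47 : 47 < θ := by linarith
  obtain ⟨s, hs0, hs⟩ : ∃ s : ℝ, 0 < s ∧ s ^ 2 = θ :=
    ⟨Real.sqrt θ, Real.sqrt_pos.2 h.θ_pos, Real.sq_sqrt h.θ_pos.le⟩
  have hs685 : 6.85 < s := lt_of_sq hs0 hs (by norm_num; linarith)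
  obtain ⟨hp, hpθ, hsq⟩ := h.p_sq hs0 hs
  have hq := h.q_pos
  have hq1 : q < 1 / 47 := q_lt hq h.hθ (by norm_num) hθ47
  have hqsq : q ^ 2 ≤ 1 / 2209 := by
    rw [sq]
    calc q * q ≤ 1 / 47 * (1 / 47) := mul_le_mul hq1.le hq1.le hq.le (by norm_num)
      _ = 1 / 2209 := by norm_num
  have hNr : |(N a b x y z : ℝ)| ≤ 4 := by
    have : ((|N a b x y z| : ℤ) : ℝ) = 4 := by rw [hN]; norm_num
    rw [Int.cast_abs] at this
    exact this.le
  obtain ⟨b1, b2, b3, b4⟩ := basic h hNr hL1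
  have hsinv : 1 / s < 0.146 := by
    rw [div_lt_iff₀ hs0]; linarith
  have hbq : |(b : ℝ) * q| ≤ 2 * (1 / s) + q ^ 2 := by
    have e : (b : ℝ) * q = -(2 * ((p * θ / 2) * q)) - q ^ 2 := by rw [h.hb]; ring
    rw [e]
    refine le_trans (abs_sub _ _) ?_
    rw [abs_neg, abs_mul, abs_mul, abs_of_pos hq, abs_of_pos (by positivity : (0:ℝ) < q ^ 2)]
    have : |p * θ / 2| * q ≤ s * q := mul_le_mul_of_nonneg_right hpθ hq.le
    rw [hsq] at this
    have e2 : |(2 : ℝ)| = 2 := abs_of_pos (by norm_num)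
    rw [e2]
    linarith
  have hK : 3.41 ≤ 4 * (θ ^ 2 * (q - p ^ 2 / 4)) := by
    rw [four_w h]
    have e1 : (4 : ℝ) ≤ ((4 * a - b ^ 2 : ℤ) : ℝ) := by exact_mod_cast hD
    have e2 := (abs_le.1 hbq).1
    have e3 : 0 ≤ 3 * q ^ 2 := by positivity
    linarith
  have hT : |(x : ℝ) - z * q| ≤ 3.752 := abs_T (by norm_num) (by linarith)
    (by linarith : 12 ≤ (θ ^ 2 * (q - p ^ 2 / 4)) * 3.752 ^ 2) (by linarith)
  have hY : |(y : ℝ) + p / 2 * (z + x * θ)| ≤ 3.4642 :=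
    abs_le_of_sq_le_sq (le_trans b1 (by norm_num)) (by norm_num)
  obtain ⟨c1, -, -⟩ := bounds h hs0 hs hT hY hL2 b3 b4
  by_cases hz : z = 0
  · subst hz
    exact not_z0 hP hN
  · have hz1 : (1 : ℝ) ≤ |(z : ℝ)| := by
      have : 1 ≤ |z| := Int.one_le_abs hz
      have h2 : ((1 : ℤ) : ℝ) ≤ ((|z| : ℤ) : ℝ) := by exact_mod_cast this
      simpa using h2
    have h2s : 2 / s = 2 * (1 / s) := by ring
    have e1 : θ - 2 / s ≤ |(z : ℝ)| * (θ - 2 / s) := by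
      have e0 : 0 ≤ θ - 2 / s := by rw [h2s]; linarith
      calc θ - 2 / s = 1 * (θ - 2 / s) := by ring
        _ ≤ _ := mul_le_mul_of_nonneg_right hz1 e0
    have e2 : 6.85 * s ≤ s ^ 2 := mul_le_sq hs0 hs685
    rw [h2s] at e1 c1
    rw [← hs] at e1 c1
    linarith

lemma abs_int_le {z : ℤ} {n : ℕ} (h : |z| ≤ n) : |(z : ℝ)| ≤ n := by
  rw [← Int.cast_abs]; exact_mod_cast h

lemma cast_abs_le {z : ℤ} {n : ℕ} (h : |(z : ℝ)| < n + 1) : |z| ≤ n := by
  have h2 : ((|z| : ℤ) : ℝ) < ((n + 1 : ℤ) : ℝ) := by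
    rw [Int.cast_abs]; push_cast; exact h
  have h3 : |z| < n + 1 := by exact_mod_cast h2
  omega

/-- the pairs in the middle range -/
lemma mid (h : Root a (2 * b) θ p q) (h1 : 1 < θ) (ha4 : 4 ≤ a) (hD : 4 ≤ 4 * a - (2 * b) ^ 2)
    (hc : if a ≤ 10 then ((0 ≤ b ∨ 4 * (a - 1) ≤ (4 * a - (2 * b) ^ 2) * (a - 1) + 4 * b) ∧
      box 6 5 7 a b = true)
    else ((0 ≤ b ∨ 16 * (a - 1) ≤ 5 * ((4 * a - (2 * b) ^ 2) * (a - 1) + 4 * b)) ∧
      box 1 3 3 a b = true)) (hpar : Even a)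
    {x y z : ℤ} (hP : P x y z) (hN : |N a (2 * b) x y z| = 4) (hL1 : 1 / 3 ≤ |L θ q x y z|)
    (hL2 : |L θ q x y z| < θ / 3) : False := by
  have hab := h.ab h1
  have hlt := h.lt_θ (by omega) hab
  have haR : (4 : ℝ) ≤ a := by exact_mod_cast ha4
  obtain ⟨s, hs0, hs⟩ : ∃ s : ℝ, 0 < s ∧ s ^ 2 = θ :=
    ⟨Real.sqrt θ, Real.sqrt_pos.2 h.θ_pos, Real.sq_sqrt h.θ_pos.le⟩
  obtain ⟨hp, hpθ, hsq⟩ := h.p_sq hs0 hs
  have hq := h.q_pos
  have hq1 : q * (a - 1) ≤ 1 := by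
    calc q * (a - 1) ≤ q * θ := mul_le_mul_of_nonneg_left hlt.le hq.le
      _ = 1 := by rw [mul_comm]; exact h.hθ
  have hNr : |(N a (2 * b) x y z : ℝ)| ≤ 4 := by
    have : ((|N a (2 * b) x y z| : ℤ) : ℝ) = 4 := by rw [hN]; norm_num
    rw [Int.cast_abs] at this
    exact this.le
  obtain ⟨b1, b2, b3, b4⟩ := basic h hNr hL1
  have hK : ∀ m n : ℤ, 0 < n → m ≤ 4 * n →
      (0 ≤ b ∨ m * (a - 1) ≤ n * ((4 * a - (2 * b) ^ 2) * (a - 1) + 4 * b)) →
      (m : ℝ) / n ≤ 4 * (θ ^ 2 * (q - p ^ 2 / 4)) := by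
    intro m n hn hmn hor
    rw [four_w h]
    have hnR : (0 : ℝ) < n := by exact_mod_cast hn
    have hDR : (4 : ℝ) ≤ ((4 * a - (2 * b) ^ 2 : ℤ) : ℝ) := by exact_mod_cast hD
    have hmnR : (m : ℝ) ≤ 4 * n := by exact_mod_cast hmn
    rw [div_le_iff₀ hnR]
    rcases hor with hb0 | hb0
    · have hbR : (0 : ℝ) ≤ b := by exact_mod_cast hb0
      push_cast at hDR ⊢
      have e0 : 0 ≤ 2 * (2 * (b : ℝ)) * q + 3 * q ^ 2 := by positivity
      calc (m : ℝ) ≤ 4 * n := hmnR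
        _ ≤ _ := mul_le_mul_of_nonneg_right (by linarith) hnR.le
    · by_cases hb1 : 0 ≤ b
      · have hbR : (0 : ℝ) ≤ b := by exact_mod_cast hb1
        push_cast at hDR ⊢
        have e0 : 0 ≤ 2 * (2 * (b : ℝ)) * q + 3 * q ^ 2 := by positivity
        calc (m : ℝ) ≤ 4 * n := hmnR
          _ ≤ _ := mul_le_mul_of_nonneg_right (by linarith) hnR.le
      · push Not at hb1
        have hbR : (b : ℝ) < 0 := by exact_mod_cast hb1
        have hb0R : (m : ℝ) * (a - 1) ≤ n * ((4 * a - (2 * b) ^ 2) * (a - 1) + 4 * b) := by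
          exact_mod_cast hb0
        push_cast at hDR ⊢
        have ha1 : (0 : ℝ) < a - 1 := by linarith
        -- multiply with `a - 1`
        have key : (m : ℝ) * (a - 1) ≤ ((4 * a - (2 * b) ^ 2) + 2 * (2 * b) * q + 3 * q ^ 2) * n *
            (a - 1) := by
          have e1 : 4 * (b : ℝ) ≤ 4 * b * (q * (a - 1)) := by
            calc 4 * (b : ℝ) = 4 * b * 1 := by ring
              _ ≤ _ := mul_le_mul_of_nonpos_left hq1 (by linarith)
          have e2 : 0 ≤ 3 * q ^ 2 * ((a : ℝ) - 1) := by positivity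
          have e3 : (n : ℝ) * ((4 * a - (2 * b) ^ 2) * (a - 1) + 4 * b) ≤
              n * ((4 * a - (2 * b) ^ 2) * (a - 1) + 4 * b * (q * (a - 1)) +
                3 * q ^ 2 * ((a : ℝ) - 1)) := mul_le_mul_of_nonneg_left (by linarith) hnR.le
          calc (m : ℝ) * (a - 1) ≤ _ := hb0R
            _ ≤ _ := e3
            _ = _ := by ring
        exact le_of_mul_le_mul_right key ha1
  have hY : |(y : ℝ) + p / 2 * (z + x * θ)| ≤ 3.4642 :=
    abs_le_of_sq_le_sq (le_trans b1 (by norm_num)) (by norm_num)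
  have hsinv : 1 / s * s = 1 := by field_simp
  have hsi0 : 0 < 1 / s := by positivity
  have h2s : 2 / s = 2 * (1 / s) := by ring
  have hqs : q = (1 / s) ^ 2 := by
    have := h.hθ
    rw [← hs] at this
    field_simp
    linarith
  have hcast : ((2 * b : ℤ) : ℝ) / 2 * x = ((b * x : ℤ) : ℝ) := by push_cast; ring
  by_cases h10 : a ≤ 10
  · rw [if_pos h10] at hc
    have hK1 := hK 4 1 (by norm_num) (by norm_num) (by
      rcases hc.1 with h2 | h2
      · exact Or.inl h2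
      · right; linarith)
    norm_num at hK1
    have hT : |(x : ℝ) - z * q| ≤ 3.4642 := abs_T (by norm_num) (by linarith)
      (by linarith : 12 ≤ (θ ^ 2 * (q - p ^ 2 / 4)) * 3.4642 ^ 2) (by linarith)
    obtain ⟨c1, c2, c3⟩ := bounds h hs0 hs hT hY hL2 b3 b4
    have hs173 : 1.732 < s := lt_of_sq hs0 hs (by norm_num; linarith)
    have hsi : 1 / s < 0.5774 := by
      rw [div_lt_iff₀ hs0]; linarith
    have hqq : q < 0.33339 := by
      have := q_lt hq h.hθ (by norm_num : (0 : ℝ) < 3) (by linarith)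
      linarith
    have e2 : 1.732 * s ≤ s ^ 2 := mul_le_sq hs0 hs173
    have hz : |(z : ℝ)| < 7 := by
      by_contra hcon
      push Not at hcon
      have e0 : 0 ≤ θ - 2 / s := by rw [h2s, ← hs]; linarith
      have e1 : 7 * (θ - 2 / s) ≤ |(z : ℝ)| * (θ - 2 / s) := mul_le_mul_of_nonneg_right hcon e0
      rw [h2s] at e1 c1
      rw [← hs] at e1 c1
      linarith
    have hz6 : |z| ≤ (6 : ℕ) := cast_abs_le (by push_cast; linarith)
    have hz6R := abs_int_le hz6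
    push_cast at hz6R
    have hzq : |(z : ℝ)| * q ≤ 6 * 0.33339 :=
      mul_le_mul hz6R hqq.le hq.le (by norm_num)
    have hx5 : |x| ≤ (5 : ℕ) := cast_abs_le (by push_cast; linarith)
    have hx5R := abs_int_le hx5
    push_cast at hx5R
    have hqx : q / 2 * |(x : ℝ)| ≤ 0.33339 / 2 * 5 :=
      mul_le_mul (by linarith) hx5R (abs_nonneg _) (by norm_num)
    have hzs : 1 / s * |(z : ℝ)| ≤ 0.5774 * 6 :=
      mul_le_mul hsi.le hz6R (abs_nonneg _) (by norm_num)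
    have hy : |(y : ℝ) - ((2 * b : ℤ) : ℝ) / 2 * x| < 8 := by linarith
    rw [hcast] at hy
    refine box_spec hc.2 hP hN hz6 hx5 (cast_abs_le ?_)
    push_cast at hy ⊢
    linarith
  · rw [if_neg h10] at hc
    push Not at h10
    have ha12 : 12 ≤ a := by
      obtain ⟨a', rfl⟩ := hpar
      omega
    have ha12R : (12 : ℝ) ≤ a := by exact_mod_cast ha12
    have hK1 := hK 16 5 (by norm_num) (by norm_num) hc.1
    norm_num at hK1
    have hT : |(x : ℝ) - z * q| ≤ 3.873 := abs_T (by norm_num) (by linarith)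
      (by linarith : 12 ≤ (θ ^ 2 * (q - p ^ 2 / 4)) * 3.873 ^ 2) (by linarith)
    obtain ⟨c1, c2, c3⟩ := bounds h hs0 hs hT hY hL2 b3 b4
    have hs173 : 3.3166 < s := lt_of_sq hs0 hs (by norm_num; linarith)
    have hsi : 1 / s < 0.30152 := by
      rw [div_lt_iff₀ hs0]; linarith
    have hqq : q < 0.09092 := by
      have := q_lt hq h.hθ (by norm_num : (0 : ℝ) < 11) (by linarith)
      linarith
    have e2 : 3.3166 * s ≤ s ^ 2 := mul_le_sq hs0 hs173
    have hz : |(z : ℝ)| < 2 := by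
      by_contra hcon
      push Not at hcon
      have e0 : 0 ≤ θ - 2 / s := by rw [h2s, ← hs]; linarith
      have e1 : 2 * (θ - 2 / s) ≤ |(z : ℝ)| * (θ - 2 / s) := mul_le_mul_of_nonneg_right hcon e0
      rw [h2s] at e1 c1
      rw [← hs] at e1 c1
      linarith
    have hz6 : |z| ≤ (1 : ℕ) := cast_abs_le (by push_cast; linarith)
    have hz6R := abs_int_le hz6
    push_cast at hz6R
    have hzq : |(z : ℝ)| * q ≤ 1 * 0.09092 :=
      mul_le_mul hz6R hqq.le hq.le (by norm_num)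
    have hx5 : |x| ≤ (3 : ℕ) := cast_abs_le (by push_cast; linarith)
    have hx5R := abs_int_le hx5
    push_cast at hx5R
    have hqx : q / 2 * |(x : ℝ)| ≤ 0.09092 / 2 * 3 :=
      mul_le_mul (by linarith) hx5R (abs_nonneg _) (by norm_num)
    have hzs : 1 / s * |(z : ℝ)| ≤ 0.30152 * 1 :=
      mul_le_mul hsi.le hz6R (abs_nonneg _) (by norm_num)
    have hy : |(y : ℝ) - ((2 * b : ℤ) : ℝ) / 2 * x| < 4 := by linarith
    rw [hcast] at hy
    refine box_spec hc.2 hP hN hz6 hx5 (cast_abs_le ?_)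
    push_cast at hy ⊢
    linarith

end Pool.Agent.R336.Hess
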