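import Pool.Agent.R336.HessC

/-!
# Norm four: the complete list
-/

set_option autoImplicit false

namespace Pool.Agent.R336.Hess

variable {a b : ℤ} {θ p q : ℝ}

/-- positive value of `4 a - b²` -/
lemma posD (h : Root a (2 * b) θ p q) (h1 : 1 < θ) (ha : Even a) (hD : 4 ≤ 4 * a - (2 * b) ^ 2)
    {x y z : ℤ} (hP : P x y z) (hN : |N a (2 * b) x y z| = 4) : (a, 2 * b) ∈ E6 := by
  obtain ⟨x', y', z', hP', hN', hL1, hL2⟩ :=
    normalize h h1 (pres_P ha ⟨b, by ring⟩) hP (by
      intro h0; rw [h0] at hN; norm_num at hN)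
  rw [← hN'] at hN
  by_cases ha48 : 48 ≤ a
  · exact (big h h1 ha48 hD hP' hN hL1 hL2).elim
  · push Not at ha48
    obtain ⟨a', rfl⟩ : ∃ a', a = 2 * a' := by
      obtain ⟨a', rfl⟩ := ha
      exact ⟨a', by ring⟩
    have hsq : 0 ≤ (2 * b) ^ 2 := sq_nonneg _
    have h0 : 0 ≤ a' := by omega
    have hb7 : |b| ≤ 7 := by
      apply abs_le_of_sq_le_sq _ (by norm_num)
      by_contra hcon
      push Not at hcon
      have : (2 * b) ^ 2 = 4 * b ^ 2 := by ring
      omega
    have hok := ok_of h0 (by omega) hb7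
    unfold ok at hok
    simp only [Bool.or_eq_true, Bool.not_eq_true', decide_eq_false_iff_not, Bool.and_eq_true,
      decide_eq_true_eq] at hok
    rcases hok with (((h2 | h2) | h2) | h2) | h2
    · exact absurd h.disc_neg h2
    · exact absurd (h.ab h1) h2
    · exact h2
    · exfalso
      have : (2 * b) ^ 2 = 4 * b ^ 2 := by ring
      omega
    · exfalso
      obtain ⟨⟨h3, h4⟩, h5⟩ := h2
      refine mid h h1 h3 h4 ?_ ha hP' hN hL1 hL2
      split_ifs with h10
      · rw [if_pos h10] at h5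
        simpa only [Bool.and_eq_true, decide_eq_true_eq] using h5
      · rw [if_neg h10] at h5
        simpa only [Bool.and_eq_true, decide_eq_true_eq] using h5

lemma N_sq (b x y z : ℤ) : N b 0 z (y - b * x) (x + b * z) = N (b ^ 2) (2 * b) x y z := by
  unfold N; ring

/-- the square root of `θ` in the case `4 a = b²` -/
lemma root_sq (h : Root (b ^ 2) (2 * b) θ p q) (h1 : 1 < θ) (hb : 0 < b) :
    ∃ η p' q' : ℝ, 1 < η ∧ Root b 0 η p' q' := by
  have hθ := h.hθ
  obtain ⟨η, hη0, hη⟩ : ∃ s : ℝ, 0 < s ∧ s ^ 2 = θ :=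
    ⟨Real.sqrt θ, Real.sqrt_pos.2 h.θ_pos, Real.sq_sqrt h.θ_pos.le⟩
  have hη1 : 1 < η := lt_of_sq hη0 hη (by simpa using h1)
  have hbR : (0 : ℝ) < b := by exact_mod_cast hb
  have hpoly : θ ^ 3 = (b * θ + 1) ^ 2 := by
    have e1 := h.ha
    have e2 := h.hb
    push_cast at e1 e2
    have : θ ^ 3 - b ^ 2 * θ ^ 2 - 2 * b * θ - 1 = 0 := by
      rw [e1, e2]; linear_combination hθ
    linarith [this, (by ring : (b * θ + 1) ^ 2 = (b : ℝ) ^ 2 * θ ^ 2 + 2 * b * θ + 1)]
  have hη3 : η ^ 3 = b * η ^ 2 + 1 := by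
    have e1 : (η ^ 3) ^ 2 = (b * η ^ 2 + 1) ^ 2 := by
      rw [hη, ← hpoly, ← hη]; ring
    exact (pow_left_inj₀ (by positivity) (by positivity) (by norm_num)).1 e1
  refine ⟨η, b - η, 1 / η, hη1, ⟨by field_simp, by ring, ?_, ?_⟩⟩
  · push_cast
    field_simp
    linarith
  · have e1 : (b : ℝ) - η = -(1 / η ^ 2) := by
      field_simp
      linarith
    rw [e1]
    have e2 : 1 / η - (-(1 / η ^ 2)) ^ 2 / 4 = (4 * η ^ 3 - 1) / (4 * η ^ 4) := by
      field_simp
    rw [e2]
    apply div_pos _ (by positivity)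
    have : 1 < η ^ 3 := one_lt_pow₀ hη1 (by norm_num)
    linarith

lemma zeroD (h : Root (b ^ 2) (2 * b) θ p q) (h1 : 1 < θ) (hb : 4 ≤ b) (hbe : Even b)
    {x y z : ℤ} (hP : P x y z) (hN : |N (b ^ 2) (2 * b) x y z| = 4) : False := by
  obtain ⟨η, p', q', hη, hr⟩ := root_sq h h1 (by omega)
  rw [← N_sq] at hN
  have hr' : Root b (2 * 0) η p' q' := by simpa using hr
  have h2 := posD hr' hη hbe (by omega) (x := z) (y := y - b * x) (z := x + b * z) (by
    obtain ⟨c, rfl⟩ := hbe
    obtain ⟨g1, g2⟩ := hP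
    have e1 : (c + c) * x = 2 * (c * x) := by ring
    have e2 : (c + c) * z = 2 * (c * z) := by ring
    rw [e1, e2]
    constructor <;> omega) (by simpa using hN)
  simp only [E6, List.mem_cons, Prod.mk.injEq, List.not_mem_nil, or_false] at h2
  omega

/-- Real root larger than one. -/
theorem main_gt (h : Root a (2 * b) θ p q) (h1 : 1 < θ) (ha : Even a)
    {x y z : ℤ} (hP : P x y z) (hN : |N a (2 * b) x y z| = 4) : (a, 2 * b) ∈ E6 := by
  obtain ⟨s, hs0, hs⟩ : ∃ s : ℝ, 0 < s ∧ s ^ 2 = θ :=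
    ⟨Real.sqrt θ, Real.sqrt_pos.2 h.θ_pos, Real.sq_sqrt h.θ_pos.le⟩
  obtain ⟨hp, hpθ, hsq⟩ := h.p_sq hs0 hs
  have hs1 : 1 < s := lt_of_sq hs0 hs (by simpa using h1)
  have hq := h.q_pos
  have hq1 : q < 1 := by simpa using q_lt hq h.hθ (by norm_num : (0 : ℝ) < 1) h1
  have h2s : 2 / s < 2 := by rw [div_lt_iff₀ hs0]; linarith
  have ha0 : 0 ≤ a := by
    have : (-1 : ℝ) < a := by
      rw [h.ha]; linarith [(abs_le.1 hp).1]
    have : (-1 : ℤ) < a := by exact_mod_cast this
    omega
  have hsqe : (2 * b) ^ 2 = 4 * b ^ 2 := by ring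
  rcases lt_trichotomy (4 * a - (2 * b) ^ 2) 0 with hneg | hzero | hpos
  · -- negative value
    by_cases ha48 : a ≤ 46
    · obtain ⟨a', rfl⟩ : ∃ a', a = 2 * a' := by
        obtain ⟨a', rfl⟩ := ha
        exact ⟨a', by ring⟩
      have hs7 : s < 7 := by
        by_contra hcon
        push Not at hcon
        have e1 : (49 : ℝ) ≤ θ := by rw [← hs]; nlinarith
        have e2 : ((2 * a' : ℤ) : ℝ) ≤ 46 := by exact_mod_cast ha48
        rw [h.ha] at e2
        linarith [(abs_le.1 hp).1]
      have hb7 : |b| ≤ 7 := by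
        have e1 : |((2 * b : ℤ) : ℝ)| < 16 := by
          rw [h.hb]
          have e2 : -(θ * p) - q = -(2 * (p * θ / 2)) - q := by ring
          rw [e2]
          refine lt_of_le_of_lt (abs_sub _ _) ?_
          rw [abs_neg, abs_mul, abs_of_pos hq, abs_of_pos (by norm_num : (0 : ℝ) < 2)]
          linarith
        have e3 : |2 * b| < 16 := by
          have : ((|2 * b| : ℤ) : ℝ) < ((16 : ℤ) : ℝ) := by rw [Int.cast_abs]; exact_mod_cast e1
          exact_mod_cast this
        rw [abs_lt] at e3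
        rw [abs_le]; omega
      have hok := ok_of (a' := a') (b' := b) (by omega) (by omega) hb7
      unfold ok at hok
      simp only [Bool.or_eq_true, Bool.not_eq_true', decide_eq_false_iff_not, Bool.and_eq_true,
        decide_eq_true_eq] at hok
      rcases hok with (((h2 | h2) | h2) | h2) | h2
      · exact absurd h.disc_neg h2
      · exact absurd (h.ab h1) h2
      · exact h2
      · omega
      · omega
    · exfalso
      push Not at ha48
      have ha47R : (47 : ℝ) ≤ a := by exact_mod_cast ha48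
      have hlt := h.lt_θ (by omega) (h.ab h1)
      have hs6 : 6.5 < s := lt_of_sq hs0 hs (by norm_num; linarith)
      have hsinv : 1 / s < 0.154 := by
        rw [div_lt_iff₀ hs0]; linarith
      have hbq : |((2 * b : ℤ) : ℝ) * q| ≤ 2 * (1 / s) + q ^ 2 := by
        have e : ((2 * b : ℤ) : ℝ) * q = -(2 * ((p * θ / 2) * q)) - q ^ 2 := by rw [h.hb]; ring
        rw [e]
        refine le_trans (abs_sub _ _) ?_
        rw [abs_neg, abs_mul, abs_mul, abs_of_pos hq, abs_of_pos (by positivity : (0:ℝ) < q ^ 2)]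
        have : |p * θ / 2| * q ≤ s * q := mul_le_mul_of_nonneg_right hpθ hq.le
        rw [hsq] at this
        have e2 : |(2 : ℝ)| = 2 := abs_of_pos (by norm_num)
        rw [e2]
        linarith
      have hq2 : q < 1 / 45 := q_lt hq h.hθ (by norm_num) (by linarith)
      have hqsq : q ^ 2 ≤ 1 / 45 := by nlinarith
      have h4 := four_w h
      have h5 : 0 < 4 * (θ ^ 2 * (q - p ^ 2 / 4)) := by
        have := h.hg
        have := h.θ_pos
        positivity
      rw [h4] at h5
      have h6 : ((4 * a - (2 * b) ^ 2 : ℤ) : ℝ) ≤ -1 := by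
        exact_mod_cast (by omega : 4 * a - (2 * b) ^ 2 ≤ -1)
      have h7 := (abs_le.1 hbq).2
      linarith
  · -- zero
    have hab : a = b ^ 2 := by omega
    subst hab
    have hbe : Even b := by
      rw [Int.even_pow' (by norm_num)] at ha; exact ha
    have hb0 : 0 < b := by
      have h5 : 0 < 4 * (θ ^ 2 * (q - p ^ 2 / 4)) := by
        have := h.hg
        have := h.θ_pos
        positivity
      rw [four_w h, hzero] at h5
      push_cast at h5
      have h6 : 0 < 4 * (b : ℝ) + 3 * q := by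
        by_contra hcon
        push Not at hcon
        nlinarith
      have h7 : (-1 : ℝ) < b := by linarith
      have h8 : (-1 : ℤ) < b := by exact_mod_cast h7
      have h9 : b ≠ 0 := by
        rintro rfl
        have h10 := h.ab h1
        norm_num at h10
      omega
    by_cases hb4 : 4 ≤ b
    · exact (zeroD h h1 hb4 hbe hP hN).elim
    · have : b = 2 := by
        obtain ⟨c, rfl⟩ := hbe
        omega
      subst this
      decide
  · exact posD h h1 ha (by omega) hP hN

end Pool.Agent.R336.Hess
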