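import Pool.Agent.R336.HessD

/-!
# From polynomials to roots and back
-/

set_option autoImplicit false

namespace Pool.Agent.R336.Hess

open Polynomial

variable {a b : ℤ} {θ p q : ℝ}

/-- the polynomial `X³ - a X² - b X - 1` -/
noncomputable def chi (R : Type) [CommRing R] (a b : ℤ) : R[X] :=
  X ^ 3 - C (a : R) * X ^ 2 - C (b : R) * X - 1

lemma chi_eq (R : Type) [CommRing R] (a b : ℤ) :
    chi R a b = X ^ 3 + (C (-(a : R)) * X ^ 2 + C (-(b : R)) * X + C (-1)) := by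
  unfold chi
  simp only [C_neg, C_1]
  ring

lemma chi_degree_aux (R : Type) [CommRing R] [Nontrivial R] (a b : ℤ) :
    (C (-(a : R)) * X ^ 2 + C (-(b : R)) * X + C (-1) : R[X]).degree < 3 := by
  refine lt_of_le_of_lt degree_quadratic_le ?_
  norm_num

lemma chi_monic (R : Type) [CommRing R] [Nontrivial R] (a b : ℤ) : (chi R a b).Monic := by
  rw [chi_eq]
  exact monic_X_pow_add (n := 3) (chi_degree_aux R a b)

lemma chi_natDegree (R : Type) [CommRing R] [Nontrivial R] (a b : ℤ) :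
    (chi R a b).natDegree = 3 := by
  rw [chi_eq, natDegree_add_eq_left_of_degree_lt]
  · simp
  · rw [degree_X_pow]; exact chi_degree_aux R a b

lemma chi_map {R S : Type} [CommRing R] [CommRing S] (f : R →+* S) (a b : ℤ) :
    (chi R a b).map f = chi S a b := by
  unfold chi
  simp

lemma chi_eval {R : Type} [CommRing R] (a b : ℤ) (t : R) :
    (chi R a b).eval t = t ^ 3 - a * t ^ 2 - b * t - 1 := by
  unfold chi
  simp

/-- a real root with the complementary quadratic factor gives `Root` -/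
lemma root_of_factor {r : ℝ} {w : ℂ} (hw : w.im ≠ 0)
    (h : chi ℂ a b = (X - C (r : ℂ)) * (X - C w) * (X - C (star w))) :
    Root a b r (2 * w.re) (w.re ^ 2 + w.im ^ 2) := by
  have h1 : (X - C (r : ℂ)) * (X - C w) * (X - C (star w)) =
      X ^ 3 - C ((r + 2 * w.re : ℝ) : ℂ) * X ^ 2 +
        C ((r * (2 * w.re) + (w.re ^ 2 + w.im ^ 2) : ℝ) : ℂ) * X -
        C ((r * (w.re ^ 2 + w.im ^ 2) : ℝ) : ℂ) := by
    have e1 : w + star w = ((2 * w.re : ℝ) : ℂ) := by
      have := Complex.add_conj w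
      simpa using this
    have e2 : w * star w = ((w.re ^ 2 + w.im ^ 2 : ℝ) : ℂ) := by
      have := Complex.mul_conj w
      rw [Complex.normSq_apply] at this
      rw [show w.re ^ 2 + w.im ^ 2 = w.re * w.re + w.im * w.im by ring]
      exact this
    have e3 : (X - C w) * (X - C (star w)) = X ^ 2 - C (w + star w) * X + C (w * star w) := by
      simp only [C_add, C_mul]; ring
    rw [mul_assoc, e3, e1, e2]
    simp only [Complex.ofReal_add, Complex.ofReal_mul, C_add, C_mul]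
    ring
  rw [h1] at h
  have h2 := congrArg (fun f => f.eval 0) h
  have h3 := congrArg (fun f => f.eval 1) h
  have h4 := congrArg (fun f => f.eval (-1)) h
  simp only [chi_eval, eval_sub, eval_add, eval_mul, eval_pow, eval_X, eval_C] at h2 h3 h4
  have g4 : r * (w.re ^ 2 + w.im ^ 2) = 1 := by
    have : ((r * (w.re ^ 2 + w.im ^ 2) : ℝ) : ℂ) = ((1 : ℝ) : ℂ) := by
      rw [Complex.ofReal_one]
      linear_combination h2
    exact_mod_cast this
  have g2 : (a : ℝ) = r + 2 * w.re := by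
    have : ((a : ℝ) : ℂ) = ((r + 2 * w.re : ℝ) : ℂ) := by
      rw [Complex.ofReal_intCast]
      linear_combination (-1 / 2 : ℂ) * h3 - (1 / 2 : ℂ) * h4 + h2
    exact_mod_cast this
  have g3 : -(b : ℝ) = r * (2 * w.re) + (w.re ^ 2 + w.im ^ 2) := by
    have : ((-(b : ℝ) : ℝ) : ℂ) = ((r * (2 * w.re) + (w.re ^ 2 + w.im ^ 2) : ℝ) : ℂ) := by
      rw [Complex.ofReal_neg, Complex.ofReal_intCast]
      linear_combination (1 / 2 : ℂ) * h3 - (1 / 2 : ℂ) * h4
    exact_mod_cast this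
  refine ⟨g4, g2, by linarith, ?_⟩
  have : 0 < w.im ^ 2 := by positivity
  nlinarith

lemma factor_of_root (h : Root a b θ p q) : ∃ w : ℂ, w.im ≠ 0 ∧
    chi ℂ a b = (X - C (θ : ℂ)) * (X - C w) * (X - C (star w)) := by
  have hg := h.hg
  obtain ⟨g, hg0, hgs⟩ : ∃ g : ℝ, 0 < g ∧ g ^ 2 = q - p ^ 2 / 4 :=
    ⟨Real.sqrt _, Real.sqrt_pos.2 hg, Real.sq_sqrt hg.le⟩
  refine ⟨⟨p / 2, g⟩, hg0.ne', ?_⟩
  have e1 : (⟨p / 2, g⟩ : ℂ) + star (⟨p / 2, g⟩ : ℂ) = (p : ℂ) := by
    apply Complex.ext <;> simp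
  have e2 : (⟨p / 2, g⟩ : ℂ) * star (⟨p / 2, g⟩ : ℂ) = (q : ℂ) := by
    apply Complex.ext
    · simp; nlinarith
    · simp; ring
  have e3 : (X - C (⟨p / 2, g⟩ : ℂ)) * (X - C (star (⟨p / 2, g⟩ : ℂ))) =
      X ^ 2 - C ((⟨p / 2, g⟩ : ℂ) + star (⟨p / 2, g⟩ : ℂ)) * X +
        C ((⟨p / 2, g⟩ : ℂ) * star (⟨p / 2, g⟩ : ℂ)) := by
    simp only [C_add, C_mul]; ring
  rw [mul_assoc, e3, e1, e2]
  have ha : (a : ℂ) = θ + p := by
    have := congrArg (fun t : ℝ => (t : ℂ)) h.ha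
    push_cast at this
    exact this
  have hb : (b : ℂ) = -(θ * p) - q := by
    have := congrArg (fun t : ℝ => (t : ℂ)) h.hb
    push_cast at this
    exact this
  have hθ : (θ : ℂ) * q = 1 := by
    have := congrArg (fun t : ℝ => (t : ℂ)) h.hθ
    push_cast at this
    exact this
  unfold chi
  rw [ha, hb, ← C_1, ← hθ]
  simp only [C_add, C_mul, C_neg, C_sub]
  ring

/-- existence of the real root -/
lemma exists_root (hd : disc a b < 0) : ∃ θ p q : ℝ, Root a b θ p q := by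
  obtain ⟨T, hT⟩ : ∃ T : ℝ, T = |(a : ℝ)| + |(b : ℝ)| + 2 := ⟨_, rfl⟩
  have hb0 := abs_nonneg (b : ℝ)
  have ha0 := abs_nonneg (a : ℝ)
  have hT2 : 2 ≤ T := by rw [hT]; linarith
  obtain ⟨a1, a2⟩ := abs_le.1 (le_refl |(a : ℝ)|)
  obtain ⟨b1, b2⟩ := abs_le.1 (le_refl |(b : ℝ)|)
  have hTT : 0 ≤ T ^ 2 - T := by nlinarith
  have hcont : Continuous fun t : ℝ => t ^ 3 - a * t ^ 2 - b * t - 1 := by fun_prop
  have hpos : 0 ≤ T ^ 3 - a * T ^ 2 - b * T - 1 := by
    have h1 : (a : ℝ) * T ^ 2 ≤ |(a : ℝ)| * T ^ 2 :=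
      mul_le_mul_of_nonneg_right a2 (by positivity)
    have h2 : (b : ℝ) * T ≤ |(b : ℝ)| * T := mul_le_mul_of_nonneg_right b2 (by linarith)
    have h3 : T ^ 3 = |(a : ℝ)| * T ^ 2 + |(b : ℝ)| * T ^ 2 + 2 * T ^ 2 := by
      nth_rewrite 1 [show T ^ 3 = T * T ^ 2 by ring]
      nth_rewrite 1 [hT]; ring
    nlinarith [mul_nonneg hb0 hTT]
  have hneg : (-T) ^ 3 - a * (-T) ^ 2 - b * (-T) - 1 ≤ 0 := by
    have h1 : -(|(a : ℝ)| * T ^ 2) ≤ (a : ℝ) * T ^ 2 := by
      have := mul_le_mul_of_nonneg_right a1 (sq_nonneg T)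
      linarith
    have h2 : (b : ℝ) * T ≤ |(b : ℝ)| * T := mul_le_mul_of_nonneg_right b2 (by linarith)
    have h3 : T ^ 3 = |(a : ℝ)| * T ^ 2 + |(b : ℝ)| * T ^ 2 + 2 * T ^ 2 := by
      nth_rewrite 1 [show T ^ 3 = T * T ^ 2 by ring]
      nth_rewrite 1 [hT]; ring
    nlinarith [mul_nonneg hb0 hTT]
  obtain ⟨θ, -, hθ⟩ := intermediate_value_Icc (by linarith : -T ≤ T) hcont.continuousOn
    ⟨hneg, hpos⟩
  simp only at hθ
  have hθ0 : θ ≠ 0 := by
    rintro rfl
    norm_num at hθ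
  have h1 : θ * (1 / θ) = 1 := by field_simp
  have hb' : (b : ℝ) = -(θ * (a - θ)) - 1 / θ := by
    field_simp
    linarith
  refine ⟨θ, a - θ, 1 / θ, h1, by ring, hb', ?_⟩
  have h2 : ((disc a b : ℤ) : ℝ) =
      -(4 * (1 / θ - (a - θ) ^ 2 / 4) * (θ ^ 2 - (a - θ) * θ + 1 / θ) ^ 2) := by
    unfold disc
    push_cast
    rw [hb']
    field_simp
    ring
  have h3 : ((disc a b : ℤ) : ℝ) < 0 := by exact_mod_cast hd
  rw [h2] at h3
  have h4 : 0 < 4 * (1 / θ - (a - θ) ^ 2 / 4) * (θ ^ 2 - (a - θ) * θ + 1 / θ) ^ 2 := by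
    linarith
  have h5 := pos_of_mul_pos_left h4 (sq_nonneg _)
  linarith

/-- irreducibility -/
lemma irred (h1 : a + b ≠ 0) (h2 : b ≠ a + 2) : Irreducible (chi ℚ a b) := by
  rw [Polynomial.Monic.irreducible_iff_roots_eq_zero_of_degree_le_three (chi_monic ℚ a b)
    (by rw [chi_natDegree]; norm_num) (by rw [chi_natDegree])]
  rw [Multiset.eq_zero_iff_forall_notMem]
  intro t ht
  rw [mem_roots (chi_monic ℚ a b).ne_zero, IsRoot, chi_eval] at ht
  have hint : ∃ k : ℤ, (k : ℚ) = t := by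
    have := isInteger_of_is_root_of_monic (A := ℤ) (K := ℚ) (p := chi ℤ a b) (chi_monic ℤ a b)
      (r := t) (by
        rw [aeval_def, ← eval_map, chi_map, chi_eval]
        exact ht)
    obtain ⟨k, hk⟩ := this
    exact ⟨k, by simpa using hk⟩
  obtain ⟨k, rfl⟩ := hint
  have h3 : k ^ 3 - a * k ^ 2 - b * k - 1 = 0 := by exact_mod_cast ht
  have h4 : k * (k ^ 2 - a * k - b) = 1 := by linarith [h3, (by ring : k * (k ^ 2 - a * k - b) =
    k ^ 3 - a * k ^ 2 - b * k)]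
  rcases Int.eq_one_or_neg_one_of_mul_eq_one h4 with rfl | rfl
  · apply h1; linarith
  · apply h2; linarith

/-- an irreducible polynomial: the form does not vanish -/
lemma N_ne_zero (h : Root a b θ p q) (hirr : Irreducible (chi ℚ a b)) {x y z : ℤ}
    (h0 : ¬ (x = 0 ∧ y = 0 ∧ z = 0)) : N a b x y z ≠ 0 := by
  have hroot : aeval θ (chi ℚ a b) = 0 := by
    rw [aeval_def, ← eval_map, chi_map, chi_eval, h.ha, h.hb]
    linear_combination h.hθ
  have hmin : minpoly ℚ θ = chi ℚ a b :=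
    (minpoly.eq_of_irreducible_of_monic hirr hroot (chi_monic ℚ a b)).symm
  have hzero : ∀ u v w : ℤ, (u : ℝ) * θ ^ 2 + v * θ + w = 0 → u = 0 ∧ v = 0 ∧ w = 0 := by
    intro u v w huvw
    have h1 : aeval θ (C (u : ℚ) * X ^ 2 + C (v : ℚ) * X + C (w : ℚ)) = 0 := by
      simp only [map_add, map_mul, aeval_C, aeval_X, map_pow]
      simpa using huvw
    have h2 := minpoly.dvd ℚ θ h1
    have h3 : (C (u : ℚ) * X ^ 2 + C (v : ℚ) * X + C (w : ℚ)) = 0 := by
      apply Polynomial.eq_zero_of_dvd_of_natDegree_lt h2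
      rw [hmin, chi_natDegree]
      exact lt_of_le_of_lt natDegree_quadratic_le (by norm_num)
    have h4 := congrArg (fun f => f.eval 0) h3
    have h5 := congrArg (fun f => f.eval 1) h3
    have h6 := congrArg (fun f => f.eval (-1)) h3
    simp only [eval_add, eval_mul, eval_pow, eval_X, eval_C, eval_zero] at h4 h5 h6
    have g1 : (w : ℚ) = 0 := by linarith
    have g2 : (u : ℚ) = 0 := by linarith
    have g3 : (v : ℚ) = 0 := by linarith
    exact ⟨by exact_mod_cast g2, by exact_mod_cast g3, by exact_mod_cast g1⟩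
  intro hN
  apply h0
  have h1 := N_real h x y z
  rw [hN, Int.cast_zero] at h1
  have h2 := h.hθ
  rcases mul_eq_zero.1 h1.symm with h3 | h3
  · have := hzero z y x (by
      have e : (z : ℝ) * θ ^ 2 + y * θ + x = θ * ((y : ℝ) + z * θ + x * q) := by
        linear_combination (-(x : ℝ)) * h2
      rw [e, h3, mul_zero])
    exact ⟨this.2.2, this.2.1, this.1⟩
  · have hg := h.hg
    have e1 : 0 ≤ ((y : ℝ) + p / 2 * (z + x * θ)) ^ 2 := sq_nonneg _
    have e2 : 0 ≤ (q - p ^ 2 / 4) * ((z : ℝ) - x * θ) ^ 2 := by positivity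
    have e3 : (q - p ^ 2 / 4) * ((z : ℝ) - x * θ) ^ 2 = 0 := by linarith
    have e4 : ((z : ℝ) - x * θ) ^ 2 = 0 := by
      rcases mul_eq_zero.1 e3 with e5 | e5
      · exact absurd e5 hg.ne'
      · exact e5
    have e5 : (z : ℝ) - x * θ = 0 := by simpa using e4
    have h6 := hzero 0 (-x) z (by push_cast; linarith)
    have e7 : x = 0 := by omega
    have e8 : z = 0 := h6.2.2
    subst e7 e8
    have e9 : (y : ℝ) ^ 2 = 0 := by
      have : ((y : ℝ) + p / 2 * (((0 : ℤ) : ℝ) + ((0 : ℤ) : ℝ) * θ)) ^ 2 = 0 := by linarith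
      simpa using this
    refine ⟨rfl, ?_, rfl⟩
    have : (y : ℝ) = 0 := by simpa using e9
    exact_mod_cast this

/-- all exceptional pairs, in both cases -/
theorem main_list (h : Root (2 * a) (2 * b) θ p q) (h1 : θ ≠ 1) {x y z : ℤ} (hP : P x y z)
    (hN : |N (2 * a) (2 * b) x y z| = 4) :
    (2 * a, 2 * b) ∈ E6 ∨ (-(2 * b), -(2 * a)) ∈ E6 := by
  rcases lt_or_gt_of_ne h1 with h2 | h2
  · right
    have h3 := h.swap
    have hq : 1 < q := by
      have := h.hθ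
      have := h.q_pos
      by_contra hcon
      push Not at hcon
      nlinarith [h.θ_pos]
    have h4 : Root (2 * (-b)) (2 * (-a)) q (p * θ) θ := by
      have e1 : 2 * (-b) = -(2 * b) := by ring
      have e2 : 2 * (-a) = -(2 * a) := by ring
      rw [e1, e2]; exact h3
    have h5 := main_gt h4 hq ⟨-b, by ring⟩ (x := z) (y := y) (z := x)
      ⟨by obtain ⟨g1, g2⟩ := hP; omega, by obtain ⟨g1, g2⟩ := hP; omega⟩ (by
        have e1 : 2 * (-b) = -(2 * b) := by ring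
        have e2 : 2 * (-a) = -(2 * a) := by ring
        rw [e1, e2, N_swap]; exact hN)
    have e1 : 2 * (-b) = -(2 * b) := by ring
    have e2 : 2 * (-a) = -(2 * a) := by ring
    rw [e1, e2] at h5
    exact h5
  · left
    exact main_gt h h2 ⟨a, by ring⟩ hP hN

end Pool.Agent.R336.Hess
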