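import Pool.Agent.R336.HessA

/-!
# The finite check for the family of complexity twelve
-/

set_option autoImplicit false

namespace Pool.Agent.R336.Hess.C12

/-- the congruences for the two classes of pairs (`ε = 1` and `ε = -1`) -/
def PP (ε x y z : ℤ) : Prop := 3 ∣ x + z ∧ 6 ∣ y - ε * (x - z)

/-- `f k` for all `k < n` -/
def allTo (f : ℕ → Bool) : ℕ → Bool
  | 0 => true
  | n + 1 => allTo f n && f n

lemma allTo_spec {f : ℕ → Bool} {n : ℕ} (h : allTo f n = true) {k : ℕ} (hk : k < n) :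
    f k = true := by
  induction n with
  | zero => omega
  | succ n ih =>
    simp only [allTo, Bool.and_eq_true] at h
    rcases Nat.lt_succ_iff_lt_or_eq.1 hk with h1 | h1
    · exact ih h.1 h1
    · rw [h1]; exact h.2

/-- the value of the cubic polynomial is zero or at least `199` -/
def cell (c2 c1 c0 y : ℤ) : Bool :=
  Nat.beq (Int.natAbs (((y + c2) * y + c1) * y + c0)) 0 ||
    Nat.ble 199 (Int.natAbs (((y + c2) * y + c1) * y + c0))

def row2 (K : ℕ) (c2 c1 c0 c : ℤ) : Bool :=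
  allTo (fun k => cell c2 c1 c0 (c + 6 * Int.ofNat k)) (2 * K + 2)

def start (ε b : ℤ) (K : ℕ) (z x : ℤ) : ℤ :=
  b * x / 2 - (b * x / 2 - ε * (x - z)) % 6 - 6 * Int.ofNat K

def row (ε a b : ℤ) (K : ℕ) (z x : ℤ) : Bool :=
  row2 K (a * z - b * x) ((a * x - (a * b + 3) * z) * x - b * (z * z))
    ((x + (a * a + 2 * b) * z) * (x * x) + ((b * b - 2 * a) * x + z) * (z * z)) (start ε b K z x)

def slab (ε a b : ℤ) (X K : ℕ) (z : ℤ) : Bool :=
  allTo (fun j => row ε a b K z (-(Int.ofNat X) + (Int.ofNat X - z) % 3 + 3 * Int.ofNat j))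
    (2 * X / 3 + 1)

def box3 (ε a b : ℤ) (Z X K : ℕ) : Bool :=
  allTo (fun k => slab ε a b X K (Int.ofNat k)) (Z + 1)

lemma N_horner (a b x y z : ℤ) : N a b x y z =
    ((y + (a * z - b * x)) * y + ((a * x - (a * b + 3) * z) * x - b * (z * z))) * y +
      ((x + (a * a + 2 * b) * z) * (x * x) + ((b * b - 2 * a) * x + z) * (z * z)) := by
  unfold N; ring

lemma N_neg (a b x y z : ℤ) : N a b (-x) (-y) (-z) = -N a b x y z := by
  unfold N; ring

lemma box3_spec_nonneg {ε a b : ℤ} {Z X K R : ℕ} (h : box3 ε a b Z X K = true) (hK : R < 12 * K + 12)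
    {x y z : ℤ} (hP : PP ε x y z) (hz0 : 0 ≤ z) (hz : z ≤ Z) (hx : |x| ≤ X)
    (hy : |2 * y - b * x| ≤ R) : N a b x y z = 0 ∨ 199 ≤ |N a b x y z| := by
  rw [abs_le] at hx hy
  obtain ⟨h3, h6⟩ := hP
  have h1 := allTo_spec (k := z.toNat) h (by omega)
  have e1 : Int.ofNat z.toNat = z := by
    rw [Int.ofNat_eq_natCast]; omega
  rw [e1] at h1
  have h2 := allTo_spec (k := ((x + X - (X - z) % 3) / 3).toNat) h1 (by omega)
  have e2 : -(Int.ofNat X) + (Int.ofNat X - z) % 3 +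
      3 * Int.ofNat ((x + X - (X - z) % 3) / 3).toNat = x := by
    simp only [Int.ofNat_eq_natCast]; omega
  rw [e2] at h2
  unfold row row2 at h2
  obtain ⟨w, hw⟩ : ∃ w, w = b * x := ⟨_, rfl⟩
  obtain ⟨e, he⟩ : ∃ e, e = ε * (x - z) := ⟨_, rfl⟩
  rw [← he] at h6
  rw [← hw] at hy
  have h4 := allTo_spec (k := ((y - start ε b K z x) / 6).toNat) h2 (by
    unfold start
    rw [← hw, ← he]
    simp only [Int.ofNat_eq_natCast]
    omega)
  have e3 : start ε b K z x + 6 * Int.ofNat ((y - start ε b K z x) / 6).toNat = y := by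
    unfold start
    rw [← hw, ← he]
    simp only [Int.ofNat_eq_natCast]
    omega
  rw [e3] at h4
  unfold cell at h4
  rw [← N_horner, Bool.or_eq_true] at h4
  rcases h4 with h5 | h5
  · left
    have := Nat.eq_of_beq_eq_true h5
    omega
  · right
    have := Nat.le_of_ble_eq_true h5
    rw [Int.abs_eq_natAbs]
    exact_mod_cast this

lemma PP_neg {ε x y z : ℤ} (h : PP ε x y z) : PP ε (-x) (-y) (-z) := by
  obtain ⟨h1, h2⟩ := h
  have e : -y - ε * (-x - -z) = -(y - ε * (x - z)) := by ring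
  refine ⟨by omega, ?_⟩
  rw [e]
  exact (dvd_neg).2 h2

lemma box3_spec {ε a b : ℤ} {Z X K R : ℕ} (h : box3 ε a b Z X K = true) (hK : R < 12 * K + 12)
    {x y z : ℤ} (hP : PP ε x y z) (hz : |z| ≤ Z) (hx : |x| ≤ X)
    (hy : |2 * y - b * x| ≤ R) : N a b x y z = 0 ∨ 199 ≤ |N a b x y z| := by
  rcases le_or_gt 0 z with h0 | h0
  · exact box3_spec_nonneg h hK hP h0 (le_trans (le_abs_self _) hz) hx hy
  · have h1 := box3_spec_nonneg h hK (PP_neg hP) (by omega)
      (le_trans (neg_le_abs _) hz) (by rwa [abs_neg]) (by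
        have e : 2 * -y - b * -x = -(2 * y - b * x) := by ring
        rw [e, abs_neg]; exact hy)
    rw [N_neg, abs_neg, neg_eq_zero] at h1
    exact h1

/-- integer square root (no correctness proof is needed) -/
def isq (n : ℕ) : ℕ → ℕ → ℕ
  | 0, x => x
  | k + 1, x => isq n k ((x + n / x) / 2)

def sq (n : ℕ) : ℕ :=
  if Nat.ble (isq n 9 400 * isq n 9 400) n then isq n 9 400 else isq n 9 400 - 1

def cert5 (ε a b : ℤ) (a1 kn S U Z X R : ℕ) : Bool :=
  Nat.ble (S * S) (64 * a1) && Nat.ble (152064 * a1) (U * U * kn) &&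
  Nat.blt (3 * U * (S * S * S) + 1536 * U + 4680 * (S * S) + 3072 * (Z + 1) * S)
    ((3 * Z + 2) * (S * S * S * S)) &&
  Nat.blt (U * a1 + 8 * Z) (8 * a1 * (X + 1)) &&
  Nat.blt (195 * a1 * S + 4 * X * S + 64 * Z * a1) (4 * a1 * S * (R + 1)) &&
  box3 ε a b Z X (R / 12)

def cert4 (ε a b : ℤ) (a1 kn S U Z X : ℕ) : Bool :=
  cert5 ε a b a1 kn S U Z X ((195 * a1 * S + 4 * X * S + 64 * Z * a1) / (4 * a1 * S))

def cert3 (ε a b : ℤ) (a1 kn S U Z : ℕ) : Bool :=
  cert4 ε a b a1 kn S U Z ((U * a1 + 8 * Z) / (8 * a1))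

def cert2 (ε a b : ℤ) (a1 kn S U rhs S4 : ℕ) : Bool :=
  if Nat.blt (rhs + 3072 * S) (2 * S4) then cert3 ε a b a1 kn S U 0
  else cert3 ε a b a1 kn S U ((rhs + 3072 * S - 2 * S4) / (3 * S4 - 3072 * S) + 1)

def cert1 (ε a b : ℤ) (a1 kn S U : ℕ) : Bool :=
  cert2 ε a b a1 kn S U (3 * U * (S * S * S) + 1536 * U + 4680 * (S * S)) (S * S * S * S)

def cert0 (ε a b : ℤ) (a1 kn : ℕ) : Bool :=
  Nat.blt 0 kn && Nat.ble 2 a1 && cert1 ε a b a1 kn (sq (64 * a1)) (sq (152064 * a1 / kn) + 1)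

def kn (a b : ℤ) : ℕ :=
  match b with
  | Int.ofNat _ => ((4 * a - b * b) * (a - 1)).toNat
  | Int.negSucc _ => ((4 * a - b * b) * (a - 1) + 2 * b).toNat

def cert (ε a b : ℤ) : Bool := cert0 ε a b (a - 1).toNat (kn a b)

/-- comparison of integers -/
def ilt (u v : ℤ) : Bool :=
  match v - u with
  | Int.ofNat n => Nat.blt 0 n
  | Int.negSucc _ => false

lemma ilt_iff {u v : ℤ} : ilt u v = true ↔ u < v := by
  unfold ilt
  split
  · rename_i n h
    rw [Nat.blt_eq]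
    simp only [Int.ofNat_eq_natCast] at h
    omega
  · rename_i n h
    simp only [Bool.false_eq_true, false_iff]
    omega

def ieq (u v : ℤ) : Bool := Nat.beq (u - v).natAbs 0

lemma ieq_iff {u v : ℤ} : ieq u v = true ↔ u = v := by
  unfold ieq
  rw [Nat.beq_eq]
  omega

/-- membership in a list of pairs -/
def memL (a b : ℤ) : List (ℤ × ℤ) → Bool
  | [] => false
  | (u, v) :: l => (ieq a u && ieq b v) || memL a b l

lemma memL_iff {a b : ℤ} {l : List (ℤ × ℤ)} : memL a b l = true ↔ (a, b) ∈ l := by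
  induction l with
  | nil => simp [memL]
  | cons u l ih =>
    obtain ⟨u, v⟩ := u
    simp [memL, ieq_iff, ih]

def thr (a : ℤ) : ℤ :=
  if ilt 900 a then 7 else if ilt 625 a then 10 else if ilt 400 a then 17 else 24

def generic (a D : ℤ) : Bool := ilt 299 a && ilt (thr a - 1) D

/-- the test for one pair -/
def ok (ε : ℤ) (E : List (ℤ × ℤ)) (a b : ℤ) : Bool :=
  ilt (4 * a + 8) (b * b) || ilt (a + b) 1 || generic a (4 * a - b * b) ||
    ilt (-1) (a * a * (b * b) + 4 * (b * (b * b)) - 4 * (a * (a * a)) - 18 * (a * b) - 27) ||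
    memL a b E || cert ε a b

/-- the exceptional pairs of the first class -/
def E1 : List (ℤ × ℤ) :=
  [(4, 0), (7, -3), (7, 3), (10, -6), (10, 0), (10, 6), (13, -3), (13, 3), (16, -6), (16, 6),
    (25, -9), (82, -18), (82, 18)]

/-- the exceptional pairs of the second class -/
def E2 : List (ℤ × ℤ) :=
  [(102, 20), (33, 11), (24, 8), (18, 8), (15, 5), (9, 5), (12, 2), (6, 2), (9, -1), (3, -1),
    (12, -4), (6, -4), (15, -7), (66, -16)]

/-- first class: `a = 6 c - 2 - 3 b'`, `b = 3 b'` with `- 27 ≤ b' ≤ 27` -/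
def okAll1 (i0 n : ℕ) : Bool :=
  allTo (fun i => allTo (fun j => ok 1 E1 (3 * Int.ofNat (i0 + i) + 1)
    (3 * (2 * Int.ofNat j + (Int.ofNat (i0 + i) + 1) % 2 - 28))) 29) n

/-- second class: `a = 3 i`, `b = 3 b' - 1` -/
def okAll2 (i0 n : ℕ) : Bool :=
  allTo (fun i => allTo (fun j => ok (-1) E2 (3 * Int.ofNat (i0 + i))
    (3 * (2 * Int.ofNat j + (Int.ofNat (i0 + i) + 1) % 2 - 28) - 1)) 29) n

set_option maxRecDepth 100000 in
lemma okAll1_true : okAll1 0 534 = true := by decide +kernel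

set_option maxRecDepth 100000 in
lemma okAll2_true : okAll2 0 534 = true := by decide +kernel

end Pool.Agent.R336.Hess.C12
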