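import Pool.Agent.R336.HessE
import Pool.Agent.R336.HessF

/-!
# The family of complexity twelve: estimates
-/

set_option autoImplicit false

namespace Pool.Agent.R336.Hess.C12

variable {a b : ℤ} {θ p q : ℝ}

lemma abs_T' {t T c ν : ℝ} (hT : 0 ≤ T) (h : c * t ^ 2 ≤ ν) (hc : ν ≤ c * T ^ 2) (hc0 : 0 < c) :
    |t| ≤ T := by
  apply abs_le_of_sq_le_sq _ hT
  exact le_of_mul_le_mul_left (le_trans h hc) hc0

/-- the main estimate -/
lemma z_le (h : Root a b θ p q) (h1 : 1 < θ) (ha : 3 ≤ a) {x y z : ℤ}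
    (hN : |N a b x y z| ≤ 198) (hL1 : 1 / 3 ≤ |L θ q x y z|) (hL2 : |L θ q x y z| < θ / 3)
    {σ T Z : ℝ} (hZ0 : 0 ≤ Z) (hσ0 : 0 < σ) (hσ : σ ^ 2 ≤ a - 1) (hT0 : 0 ≤ T)
    (hT : 594 ≤ (θ ^ 2 * (q - p ^ 2 / 4)) * T ^ 2)
    (hF : 2 * (Z + 1) * (1 / σ) + T * (1 / σ) ^ 2 + T * σ + 195 / 8 < (Z + 2 / 3) * σ ^ 2) :
    |(z : ℝ)| < Z + 1 ∧ |(x : ℝ)| ≤ T + |(z : ℝ)| * q ∧
    |(y : ℝ) - (b : ℝ) / 2 * x| ≤ 195 / 8 + q / 2 * |(x : ℝ)| + 1 / σ * |(z : ℝ)| := by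
  have hab := h.ab h1
  have hlt := h.lt_θ (by omega) hab
  have haR : (3 : ℝ) ≤ a := by exact_mod_cast ha
  obtain ⟨s, hs0, hs⟩ : ∃ s : ℝ, 0 < s ∧ s ^ 2 = θ :=
    ⟨Real.sqrt θ, Real.sqrt_pos.2 h.θ_pos, Real.sq_sqrt h.θ_pos.le⟩
  obtain ⟨hp, hpθ, hsq⟩ := h.p_sq hs0 hs
  have hq := h.q_pos
  have hNr : |(N a b x y z : ℝ)| ≤ 198 := by
    have : ((|N a b x y z| : ℤ) : ℝ) ≤ 198 := by exact_mod_cast hN
    rwa [Int.cast_abs] at this
  obtain ⟨b1, b2, b3, b4⟩ := basic h hNr hL1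
  have hw : 0 < θ ^ 2 * (q - p ^ 2 / 4) := mul_pos (pow_pos h.θ_pos 2) h.hg
  have hTx : |(x : ℝ) - z * q| ≤ T := abs_T' hT0 b2 (by linarith) hw
  have hY : |(y : ℝ) + p / 2 * (z + x * θ)| ≤ 195 / 8 :=
    abs_le_of_sq_le_sq (le_trans b1 (by norm_num)) (by norm_num)
  obtain ⟨c1, c2, c3⟩ := bounds h hs0 hs hTx hY hL2 b3 b4
  have hσs : σ < s := lt_of_sq hs0 hs (by linarith)
  have hu : 1 / s ≤ 1 / σ := one_div_le_one_div_of_le hσ0 hσs.le
  have hu0 : 0 < 1 / s := by positivity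
  have hqs : q = (1 / s) ^ 2 := by
    have := h.hθ
    rw [← hs] at this
    field_simp
    linarith
  refine ⟨?_, c2, ?_⟩
  · by_contra hcon
    push Not at hcon
    have hs14 : 1.4142 < s := lt_of_sq hs0 hs (by norm_num; linarith)
    have hsi : 1 / s < 0.7072 := by
      rw [div_lt_iff₀ hs0]; linarith
    have e0 : 0 ≤ θ - 2 / s := by
      have : 2 / s = 2 * (1 / s) := by ring
      rw [this]; linarith
    have e1 : (Z + 1) * (θ - 2 / s) ≤ |(z : ℝ)| * (θ - 2 / s) :=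
      mul_le_mul_of_nonneg_right hcon e0
    have e2 : (Z + 1) * (θ - 2 / s) ≤ θ / 3 + T * (q + s) + 195 / 8 := le_trans e1 c1
    have e3 : (Z + 2 / 3) * s ^ 2 ≤ 2 * (Z + 1) * (1 / s) + T * (1 / s) ^ 2 + T * s + 195 / 8 := by
      rw [← hqs, hs]
      have : 2 / s = 2 * (1 / s) := by ring
      rw [this] at e2
      linarith
    have e4 : 2 * (Z + 1) * (1 / s) ≤ 2 * (Z + 1) * (1 / σ) :=
      mul_le_mul_of_nonneg_left hu (by linarith)
    have e5 : T * (1 / s) ^ 2 ≤ T * (1 / σ) ^ 2 :=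
      mul_le_mul_of_nonneg_left (pow_le_pow_left₀ hu0.le hu 2) hT0
    have hB : 0 ≤ 2 * (Z + 1) * (1 / σ) + T * (1 / σ) ^ 2 := by positivity
    have hA : 0 < (Z + 2 / 3) * σ - T := by
      by_contra hc
      push Not at hc
      have : ((Z + 2 / 3) * σ - T) * σ ≤ 0 := mul_nonpos_of_nonpos_of_nonneg hc hσ0.le
      linarith [(by ring : ((Z + 2 / 3) * σ - T) * σ = (Z + 2 / 3) * σ ^ 2 - T * σ)]
    have e6 : ((Z + 2 / 3) * σ - T) * σ ≤ ((Z + 2 / 3) * s - T) * s := by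
      apply mul_le_mul _ hσs.le hσ0.le
      · have : (Z + 2 / 3) * σ ≤ (Z + 2 / 3) * s := mul_le_mul_of_nonneg_left hσs.le (by linarith)
        linarith
      · have : (Z + 2 / 3) * σ ≤ (Z + 2 / 3) * s := mul_le_mul_of_nonneg_left hσs.le (by linarith)
        linarith
    linarith [(by ring : ((Z + 2 / 3) * σ - T) * σ = (Z + 2 / 3) * σ ^ 2 - T * σ),
      (by ring : ((Z + 2 / 3) * s - T) * s = (Z + 2 / 3) * s ^ 2 - T * s)]
  · have : 1 / s * |(z : ℝ)| ≤ 1 / σ * |(z : ℝ)| := mul_le_mul_of_nonneg_right hu (abs_nonneg _)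
    linarith

/-- bounds from a certificate -/
lemma xyz_bounds (h : Root a b θ p q) (h1 : 1 < θ) (ha : 3 ≤ a) {x y z : ℤ}
    (hN : |N a b x y z| ≤ 198) (hL1 : 1 / 3 ≤ |L θ q x y z|) (hL2 : |L θ q x y z| < θ / 3)
    {S U Z X R a1 k : ℕ} (ha1 : (a1 : ℤ) = a - 1)
    (hk : (k : ℝ) ≤ 4 * (θ ^ 2 * (q - p ^ 2 / 4)) * (a - 1))
    (hS : S * S ≤ 64 * a1) (hU : 152064 * a1 ≤ U * U * k)
    (hF : 3 * U * (S * S * S) + 1536 * U + 4680 * (S * S) + 3072 * (Z + 1) * S <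
      (3 * Z + 2) * (S * S * S * S))
    (hX : U * a1 + 8 * Z < 8 * a1 * (X + 1))
    (hR : 195 * a1 * S + 4 * X * S + 64 * Z * a1 < 4 * a1 * S * (R + 1)) :
    |z| ≤ Z ∧ |x| ≤ X ∧ |2 * y - b * x| ≤ R := by
  have hS0 : 0 < S := by
    rcases Nat.eq_zero_or_pos S with h0 | h0
    · subst h0; simp at hF
    · exact h0
  have hSR : (0 : ℝ) < S := by exact_mod_cast hS0
  have ha1R : (a1 : ℝ) = a - 1 := by exact_mod_cast ha1
  have haR : (3 : ℝ) ≤ a := by exact_mod_cast ha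
  have ha1pos : (0 : ℝ) < a1 := by rw [ha1R]; linarith
  have hZ0 : (0 : ℝ) ≤ Z := Nat.cast_nonneg Z
  have hU0 : (0 : ℝ) ≤ U := Nat.cast_nonneg U
  have hX0 : (0 : ℝ) ≤ X := Nat.cast_nonneg X
  have hσ : ((S : ℝ) / 8) ^ 2 ≤ a - 1 := by
    have : (S : ℝ) * S ≤ 64 * a1 := by exact_mod_cast hS
    rw [← ha1R]
    linarith [(by ring : ((S : ℝ) / 8) ^ 2 = S * S / 64)]
  have hT : 594 ≤ (θ ^ 2 * (q - p ^ 2 / 4)) * ((U : ℝ) / 8) ^ 2 := by
    have e1 : (152064 : ℝ) * a1 ≤ U * U * k := by exact_mod_cast hU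
    have e2 : (U : ℝ) * U * k ≤ U * U * (4 * (θ ^ 2 * (q - p ^ 2 / 4)) * (a - 1)) :=
      mul_le_mul_of_nonneg_left hk (by positivity)
    rw [← ha1R] at e2
    have e3 : (152064 : ℝ) * a1 ≤ (U * U * (4 * (θ ^ 2 * (q - p ^ 2 / 4)))) * a1 := by
      calc _ ≤ _ := e1
        _ ≤ _ := e2
        _ = _ := by ring
    have e4 := le_of_mul_le_mul_right e3 ha1pos
    linarith [(by ring : (θ ^ 2 * (q - p ^ 2 / 4)) * ((U : ℝ) / 8) ^ 2 =
      (U * U * (4 * (θ ^ 2 * (q - p ^ 2 / 4)))) / 256)]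
  have hFR : 2 * ((Z : ℝ) + 1) * (1 / (S / 8)) + (U / 8) * (1 / (S / 8)) ^ 2 + (U / 8) * (S / 8) +
      195 / 8 < (Z + 2 / 3) * ((S : ℝ) / 8) ^ 2 := by
    have e1 : (3 : ℝ) * U * (S * S * S) + 1536 * U + 4680 * (S * S) + 3072 * (Z + 1) * S <
      (3 * Z + 2) * (S * S * S * S) := by exact_mod_cast hF
    have e2 : (3 * (Z : ℝ) + 2) * (S * S * S * S) - (3 * U * (S * S * S) + 1536 * U +
        4680 * (S * S) + 3072 * (Z + 1) * S) = 192 * S ^ 2 * ((Z + 2 / 3) * ((S : ℝ) / 8) ^ 2 -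
        (2 * ((Z : ℝ) + 1) * (1 / (S / 8)) + (U / 8) * (1 / (S / 8)) ^ 2 + (U / 8) * (S / 8) +
      195 / 8)) := by
      field_simp
      ring
    have e3 : 0 < 192 * (S : ℝ) ^ 2 * ((Z + 2 / 3) * ((S : ℝ) / 8) ^ 2 -
        (2 * ((Z : ℝ) + 1) * (1 / (S / 8)) + (U / 8) * (1 / (S / 8)) ^ 2 + (U / 8) * (S / 8) +
      195 / 8)) := by rw [← e2]; linarith
    have e4 := (mul_pos_iff_of_pos_left (by positivity : (0:ℝ) < 192 * (S : ℝ) ^ 2)).1 e3
    linarith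
  obtain ⟨c1, c2, c3⟩ := z_le h h1 ha hN hL1 hL2 hZ0 (by positivity : (0 : ℝ) < S / 8) hσ
    (by positivity : (0 : ℝ) ≤ U / 8) hT hFR
  have hz : |z| ≤ (Z : ℕ) := cast_abs_le c1
  have hzR := abs_int_le hz
  have hq := h.q_pos
  have hlt := h.lt_θ (by omega) (h.ab h1)
  have hqa : q * a1 ≤ 1 := by
    rw [ha1R]
    calc q * (a - 1) ≤ q * θ := mul_le_mul_of_nonneg_left hlt.le hq.le
      _ = 1 := by rw [mul_comm]; exact h.hθ
  have hx : |x| ≤ (X : ℕ) := by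
    apply cast_abs_le
    have e1 : |(z : ℝ)| * q ≤ Z * q := mul_le_mul_of_nonneg_right hzR hq.le
    have e2 : (U : ℝ) * a1 + 8 * Z < 8 * a1 * (X + 1) := by exact_mod_cast hX
    have e3 : |(x : ℝ)| ≤ U / 8 + Z * q := le_trans c2 (by linarith)
    have e4 : (Z : ℝ) * (q * a1) ≤ Z * 1 := mul_le_mul_of_nonneg_left hqa hZ0
    have e5 : (U / 8 + Z * q) * a1 < (X + 1) * a1 := by
      linarith [(by ring : ((U : ℝ) / 8 + Z * q) * a1 = U * a1 / 8 + Z * (q * a1))]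
    exact lt_of_le_of_lt e3 (lt_of_mul_lt_mul_right e5 ha1pos.le)
  have hxR := abs_int_le hx
  refine ⟨hz, hx, ?_⟩
  apply cast_abs_le
  have e1 : |((2 * y - b * x : ℤ) : ℝ)| = 2 * |(y : ℝ) - (b : ℝ) / 2 * x| := by
    push_cast
    rw [← abs_of_pos (by norm_num : (0 : ℝ) < 2), ← abs_mul, abs_of_pos (by norm_num : (0 : ℝ) < 2)]
    congr 1; ring
  rw [e1]
  have e2 : q / 2 * |(x : ℝ)| ≤ q / 2 * X := mul_le_mul_of_nonneg_left hxR (by positivity)
  have e3 : 1 / ((S : ℝ) / 8) * |(z : ℝ)| ≤ 1 / ((S : ℝ) / 8) * Z :=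
    mul_le_mul_of_nonneg_left hzR (by positivity)
  have e4 : 2 * |(y : ℝ) - (b : ℝ) / 2 * x| ≤ 195 / 4 + q * X + 2 * (1 / ((S : ℝ) / 8) * Z) := by
    linarith
  have e5 : (195 : ℝ) * a1 * S + 4 * X * S + 64 * Z * a1 < 4 * a1 * S * (R + 1) := by
    exact_mod_cast hR
  have e6 : (195 / 4 + q * X + 2 * (1 / ((S : ℝ) / 8) * Z)) * (4 * a1 * S) < (R + 1) * (4 * a1 * S) := by
    have e7 : (195 / 4 + q * X + 2 * (1 / ((S : ℝ) / 8) * Z)) * (4 * a1 * S) =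
        195 * a1 * S + 4 * (X * S) * (q * a1) + 64 * Z * a1 := by
      field_simp
      ring
    rw [e7]
    have e8 : 4 * ((X : ℝ) * S) * (q * a1) ≤ 4 * (X * S) * 1 :=
      mul_le_mul_of_nonneg_left hqa (by positivity)
    linarith
  exact lt_of_le_of_lt e4 (lt_of_mul_lt_mul_right e6 (by positivity))

/-- `κ (a - 1)` -/
lemma kn_le (h : Root a b θ p q) (h1 : 1 < θ) (ha : 3 ≤ a) (hk : 0 < kn a b) :
    (kn a b : ℝ) ≤ 4 * (θ ^ 2 * (q - p ^ 2 / 4)) * (a - 1) := by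
  rw [four_w h]
  have hlt := h.lt_θ (by omega) (h.ab h1)
  have hq := h.q_pos
  have haR : (3 : ℝ) ≤ a := by exact_mod_cast ha
  have hqa : q * (a - 1) ≤ 1 := by
    calc q * (a - 1) ≤ q * θ := mul_le_mul_of_nonneg_left hlt.le hq.le
      _ = 1 := by rw [mul_comm]; exact h.hθ
  have e2 : 0 ≤ 3 * q ^ 2 * ((a : ℝ) - 1) := by
    have : (0 : ℝ) ≤ a - 1 := by linarith
    positivity
  rcases b with n | n
  · have e0 : kn a (Int.ofNat n) = ((4 * a - (Int.ofNat n) * (Int.ofNat n)) * (a - 1)).toNat := rfl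
    rw [e0] at hk ⊢
    simp only [Int.ofNat_eq_natCast] at hk ⊢
    have e1 : ((((4 * a - (n : ℤ) * n) * (a - 1)).toNat : ℤ)) = (4 * a - (n : ℤ) * n) * (a - 1) := by
      omega
    have e3 : ((((4 * a - (n : ℤ) * n) * (a - 1)).toNat : ℕ) : ℝ) =
        (4 * a - (n : ℝ) * n) * (a - 1) := by exact_mod_cast e1
    rw [e3]
    push_cast
    have e4 : 0 ≤ 2 * (n : ℝ) * q * (a - 1) := by
      have : (0 : ℝ) ≤ a - 1 := by linarith
      positivity
    linarith [(by ring : ((4 * (a : ℝ) - (n : ℝ) ^ 2) + 2 * n * q + 3 * q ^ 2) * (a - 1) =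
      (4 * (a : ℝ) - (n : ℝ) * n) * (a - 1) + 2 * (n : ℝ) * q * (a - 1) +
        3 * q ^ 2 * ((a : ℝ) - 1))]
  · obtain ⟨b, hb⟩ : ∃ b, b = Int.negSucc n := ⟨_, rfl⟩
    have hb0 : b < 0 := by rw [hb]; exact Int.negSucc_lt_zero n
    have hbR : (b : ℝ) < 0 := by exact_mod_cast hb0
    have e0 : kn a (Int.negSucc n) = ((4 * a - b * b) * (a - 1) + 2 * b).toNat := by
      rw [hb]; rfl
    rw [e0] at hk ⊢
    rw [← hb]
    have e1 : ((((4 * a - b * b) * (a - 1) + 2 * b).toNat : ℤ)) =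
        (4 * a - b * b) * (a - 1) + 2 * b := by
      omega
    have e3 : ((((4 * a - b * b) * (a - 1) + 2 * b).toNat : ℕ) : ℝ) =
        (4 * a - (b : ℝ) * b) * (a - 1) + 2 * b := by exact_mod_cast e1
    rw [e3]
    push_cast
    have e4 : 2 * (b : ℝ) ≤ 2 * b * (q * (a - 1)) := by
      calc 2 * (b : ℝ) = 2 * b * 1 := by ring
        _ ≤ _ := mul_le_mul_of_nonpos_left hqa (by linarith)
    linarith [(by ring : ((4 * (a : ℝ) - (b : ℝ) ^ 2) + 2 * b * q + 3 * q ^ 2) * (a - 1) =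
      (4 * (a : ℝ) - (b : ℝ) * b) * (a - 1) + 2 * (b : ℝ) * (q * (a - 1)) +
        3 * q ^ 2 * ((a : ℝ) - 1))]

lemma cert_false (h : Root a b θ p q) (h1 : 1 < θ) {ε x y z : ℤ} (hP : PP ε x y z)
    (hN : |N a b x y z| ≤ 198) (hN0 : N a b x y z ≠ 0)
    (hL1 : 1 / 3 ≤ |L θ q x y z|) (hL2 : |L θ q x y z| < θ / 3)
    (hc : cert ε a b = true) : False := by
  unfold cert cert0 at hc
  simp only [Bool.and_eq_true] at hc
  obtain ⟨⟨hk, ha⟩, hc⟩ := hc
  rw [Nat.blt_eq] at hk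
  have ha := Nat.le_of_ble_eq_true ha
  have ha3 : 3 ≤ a := by omega
  unfold cert1 cert2 at hc
  obtain ⟨Z, hc⟩ : ∃ Z, cert3 ε a b (a - 1).toNat (kn a b) (sq (64 * (a - 1).toNat))
      (sq (152064 * (a - 1).toNat / kn a b) + 1) Z = true := by
    split_ifs at hc
    · exact ⟨_, hc⟩
    · exact ⟨_, hc⟩
  unfold cert3 cert4 at hc
  obtain ⟨S, hS⟩ : ∃ S, S = sq (64 * (a - 1).toNat) := ⟨_, rfl⟩
  obtain ⟨U, hU⟩ : ∃ U, U = sq (152064 * (a - 1).toNat / kn a b) + 1 := ⟨_, rfl⟩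
  rw [← hS, ← hU] at hc
  obtain ⟨X, hX⟩ : ∃ X, X = (U * (a - 1).toNat + 8 * Z) / (8 * (a - 1).toNat) := ⟨_, rfl⟩
  rw [← hX] at hc
  obtain ⟨R, hR⟩ : ∃ R, R = (195 * (a - 1).toNat * S + 4 * X * S + 64 * Z * (a - 1).toNat) /
      (4 * (a - 1).toNat * S) := ⟨_, rfl⟩
  rw [← hR] at hc
  unfold cert5 at hc
  simp only [Bool.and_eq_true, Nat.blt_eq] at hc
  obtain ⟨⟨⟨⟨⟨g1, g2⟩, g3⟩, g4⟩, g5⟩, g6⟩ := hc
  have g1 := Nat.le_of_ble_eq_true g1
  have g2 := Nat.le_of_ble_eq_true g2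
  obtain ⟨k1, k2, k3⟩ := xyz_bounds h h1 ha3 hN hL1 hL2 (by omega)
    (kn_le h h1 ha3 hk) g1 g2 g3 g4 g5
  rcases box3_spec g6 (by omega) hP k1 k2 k3 with k4 | k4
  · exact hN0 k4
  · omega

/-- the case `z = 0` -/
lemma z0_false (h : Root a b θ p q) (h1 : 299 < θ) {ε x y z : ℤ} (hε : ε = 1 ∨ ε = -1)
    (hP : PP ε x y z) (hz : z = 0)
    (hN : |N a b x y z| ≤ 198) (hN0 : N a b x y z ≠ 0)
    (hL1 : 1 / 3 ≤ |L θ q x y z|) (hκ : 3.8 ≤ 4 * (θ ^ 2 * (q - p ^ 2 / 4))) : False := by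
  subst hz
  obtain ⟨g1, g2⟩ := hP
  by_cases hx : x = 0
  · subst hx
    obtain ⟨y', rfl⟩ : ∃ y', y = 6 * y' := by
      obtain ⟨c, hc⟩ := g2
      exact ⟨c, by rcases hε with rfl | rfl <;> omega⟩
    have e1 : N a b 0 (6 * y') 0 = 216 * y' ^ 3 := by unfold N; ring
    rw [e1] at hN hN0
    rw [abs_le] at hN
    have : y' ^ 3 ≠ 0 := by
      intro h0; apply hN0; rw [h0]; ring
    omega
  · have hx3 : 3 ≤ |x| := by
      rcases abs_cases x with ⟨e1, e2⟩ | ⟨e1, e2⟩ <;> rw [e1] <;> omega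
    have hx3R : (3 : ℝ) ≤ |(x : ℝ)| := by
      rw [← Int.cast_abs]; exact_mod_cast hx3
    have hx9 : (9 : ℝ) ≤ (x : ℝ) ^ 2 := by
      rw [← sq_abs]
      calc (9 : ℝ) = 3 ^ 2 := by norm_num
        _ ≤ _ := pow_le_pow_left₀ (by norm_num) hx3R 2
    have hNr : |(N a b x y 0 : ℝ)| ≤ 198 := by
      have : ((|N a b x y 0| : ℤ) : ℝ) ≤ 198 := by exact_mod_cast hN
      rwa [Int.cast_abs] at this
    have hθ := h.hθ
    have hq := h.q_pos
    have hr := N_real h x y 0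
    have hLd : L θ q x y 0 = (y : ℝ) + ((0 : ℤ) : ℝ) * θ + x * q := rfl
    rw [← hLd] at hr
    obtain ⟨Λ, hΛ⟩ : ∃ Λ, Λ = L θ q x y 0 := ⟨_, rfl⟩
    rw [← hΛ] at hr hL1 hLd
    obtain ⟨w, hw⟩ : ∃ w, w = θ ^ 2 * (q - p ^ 2 / 4) := ⟨_, rfl⟩
    obtain ⟨Y0, hY0⟩ : ∃ Y0, Y0 = (y : ℝ) + p / 2 * (((0 : ℤ) : ℝ) + x * θ) := ⟨_, rfl⟩
    rw [← hY0] at hr
    have e1 : (q - p ^ 2 / 4) * (((0 : ℤ) : ℝ) - x * θ) ^ 2 = w * x ^ 2 := by
      rw [hw]; push_cast; ring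
    rw [e1] at hr
    rw [← hw] at hκ
    have hW0 : 0 ≤ Y0 ^ 2 + w * (x : ℝ) ^ 2 := by
      have : 0 ≤ w * (x : ℝ) ^ 2 := mul_nonneg (by linarith) (sq_nonneg _)
      linarith [sq_nonneg Y0]
    rw [hr, abs_mul, abs_of_nonneg hW0] at hNr
    have hW : Y0 ^ 2 + w * (x : ℝ) ^ 2 ≤ 594 := by
      have := mul_le_mul_of_nonneg_right hL1 hW0
      linarith
    have hwx : 8.55 ≤ w * (x : ℝ) ^ 2 := by
      calc (8.55 : ℝ) = 0.95 * 9 := by norm_num
        _ ≤ w * (x : ℝ) ^ 2 := mul_le_mul (by linarith) hx9 (by norm_num) (by linarith)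
    have hΛ2 : |Λ| ≤ 23.2 := by
      have e2 : |Λ| * 8.55 ≤ |Λ| * (Y0 ^ 2 + w * (x : ℝ) ^ 2) :=
        mul_le_mul_of_nonneg_left (by linarith [sq_nonneg Y0]) (abs_nonneg _)
      linarith
    have hY : |Y0| ≤ 24.4 := by
      apply abs_le_of_sq_le_sq _ (by norm_num)
      have : 0 ≤ w * (x : ℝ) ^ 2 := by linarith
      linarith
    have hxb : |(x : ℝ)| ≤ 26 := by
      apply abs_le_of_sq_le_sq _ (by norm_num)
      have e2 : 0.95 * (x : ℝ) ^ 2 ≤ w * (x : ℝ) ^ 2 :=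
        mul_le_mul_of_nonneg_right (by linarith) (sq_nonneg _)
      linarith [sq_nonneg Y0]
    have hqq : q < 1 / 299 := q_lt hq hθ (by norm_num) h1
    have hxq : |(x : ℝ) * q| ≤ 0.1 := by
      rw [abs_mul, abs_of_pos hq]
      calc |(x : ℝ)| * q ≤ 26 * (1 / 299) := mul_le_mul hxb hqq.le hq.le (by norm_num)
        _ ≤ 0.1 := by norm_num
    have key : θ * (x : ℝ) ^ 2 = w * x ^ 2 + (Y0 + (x * q - Λ)) ^ 2 := by
      rw [hw, hY0, hLd]
      push_cast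
      linear_combination (-((x : ℝ) ^ 2 * θ)) * hθ
    obtain ⟨c, hc⟩ : ∃ c, c = (x : ℝ) * q - Λ := ⟨_, rfl⟩
    rw [← hc] at key
    have hcb : |c| ≤ 23.4 := by
      rw [hc]
      refine le_trans (abs_sub _ _) ?_
      linarith
    have e3 : (Y0 + c) ^ 2 ≤ Y0 ^ 2 + 1700 := by
      have e4 : Y0 * c ≤ 24.4 * 23.4 := by
        calc Y0 * c ≤ |Y0 * c| := le_abs_self _
          _ = |Y0| * |c| := abs_mul _ _
          _ ≤ 24.4 * 23.4 := mul_le_mul hY hcb (abs_nonneg _) (by norm_num)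
      have e5 : c ^ 2 ≤ 23.4 ^ 2 := by
        rw [← sq_abs c]; exact pow_le_pow_left₀ (abs_nonneg _) hcb 2
      linarith [(by ring : (Y0 + c) ^ 2 = Y0 ^ 2 + 2 * (Y0 * c) + c ^ 2)]
    have e6 : θ * 9 ≤ θ * (x : ℝ) ^ 2 := mul_le_mul_of_nonneg_left hx9 (by linarith)
    linarith

/-- `2 b q + 3 q² ≥ - 4 / s` and the bound for the discriminant -/
lemma kappa_ge (h : Root a b θ p q) {σ : ℝ} (hσ0 : 0 < σ) (hσ : σ ^ 2 ≤ θ) :
    ((4 * a - b * b : ℤ) : ℝ) - 4 * (1 / σ) ≤ 4 * (θ ^ 2 * (q - p ^ 2 / 4)) := by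
  obtain ⟨s, hs0, hs⟩ : ∃ s : ℝ, 0 < s ∧ s ^ 2 = θ :=
    ⟨Real.sqrt θ, Real.sqrt_pos.2 h.θ_pos, Real.sq_sqrt h.θ_pos.le⟩
  obtain ⟨hp, hpθ, hsq⟩ := h.p_sq hs0 hs
  have hq := h.q_pos
  have hσs : σ ≤ s := by
    rw [← hs] at hσ
    exact (abs_le_of_sq_le_sq' hσ hs0.le).2
  have hu : 1 / s ≤ 1 / σ := one_div_le_one_div_of_le hσ0 hσs
  have hbq : -(2 * (1 / s)) - q ^ 2 ≤ (b : ℝ) * q := by
    have e : (b : ℝ) * q = -(2 * ((p * θ / 2) * q)) - q ^ 2 := by rw [h.hb]; ring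
    rw [e]
    have : p * θ / 2 * q ≤ s * q := mul_le_mul_of_nonneg_right (abs_le.1 hpθ).2 hq.le
    rw [hsq] at this
    linarith
  rw [four_w h]
  push_cast
  have : 0 ≤ q ^ 2 := sq_nonneg q
  linarith [(by ring : (b : ℝ) ^ 2 = b * b)]

/-- for large `a` we have `z = 0`, which is impossible -/
lemma generic_false (h : Root a b θ p q) (h1 : 1 < θ) (ha : 300 ≤ a) {ε x y z : ℤ}
    (hε : ε = 1 ∨ ε = -1) (hP : PP ε x y z)
    (hN : |N a b x y z| ≤ 198) (hN0 : N a b x y z ≠ 0)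
    (hL1 : 1 / 3 ≤ |L θ q x y z|) (hL2 : |L θ q x y z| < θ / 3)
    {σ T D : ℝ} (hσ0 : 0 < σ) (hσ : σ ^ 2 ≤ a - 1) (hT0 : 0 ≤ T)
    (hD : D ≤ ((4 * a - b * b : ℤ) : ℝ)) (hD4 : 3.8 ≤ D - 4 * (1 / σ))
    (hT : 2376 ≤ (D - 4 * (1 / σ)) * T ^ 2)
    (hF : 2 * (1 / σ) + T * (1 / σ) ^ 2 + T * σ + 195 / 8 < 2 / 3 * σ ^ 2) : False := by
  have hlt := h.lt_θ (by omega) (h.ab h1)
  have haR : (300 : ℝ) ≤ a := by exact_mod_cast ha
  have hκ := kappa_ge h hσ0 (by linarith)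
  have hT2 : (D - 4 * (1 / σ)) * T ^ 2 ≤ 4 * (θ ^ 2 * (q - p ^ 2 / 4)) * T ^ 2 :=
    mul_le_mul_of_nonneg_right (by linarith) (sq_nonneg T)
  obtain ⟨c1, -, -⟩ := z_le h h1 (by omega) hN hL1 hL2 (le_refl (0 : ℝ)) hσ0 hσ hT0
    (by linarith) (by linarith)
  have hz : z = 0 := by
    have h2 : |z| ≤ (0 : ℕ) := cast_abs_le (by push_cast; linarith)
    rw [abs_le] at h2
    push_cast at h2
    omega
  exact z0_false h (by linarith) hε hP hz hN hN0 hL1 (by linarith)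

/-- the general statement, given the finite check -/
theorem main_of (h : Root a b θ p q) (h1 : 1 < θ) {ε : ℤ} {E : List (ℤ × ℤ)}
    (hε : ε = 1 ∨ ε = -1) (hpres : Pres a b (PP ε))
    (hok : 0 ≤ a → a ≤ 1600 → b * b ≤ 4 * a + 8 → ok ε E a b = true)
    (hcl : 0 ≤ 4 * a - b * b → 4 ≤ 4 * a - b * b) {x y z : ℤ} (hP : PP ε x y z)
    (hN : |N a b x y z| ≤ 198) (hN0 : N a b x y z ≠ 0) : (a, b) ∈ E := by
  obtain ⟨x, y, z, hP, hN', hL1, hL2⟩ := normalize h h1 hpres hP hN0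
  rw [← hN'] at hN hN0
  have hw : 0 < θ ^ 2 * (q - p ^ 2 / 4) := mul_pos (pow_pos h.θ_pos 2) h.hg
  have hθ := h.hθ
  have hq := h.q_pos
  have hq1 : q < 1 := by
    by_contra hcon
    push Not at hcon
    have : 1 * 1 < θ * q := mul_lt_mul h1 hcon (by norm_num) (by linarith)
    linarith
  obtain ⟨s, hs0, hs⟩ : ∃ s : ℝ, 0 < s ∧ s ^ 2 = θ :=
    ⟨Real.sqrt θ, Real.sqrt_pos.2 h.θ_pos, Real.sq_sqrt h.θ_pos.le⟩
  obtain ⟨hp, hpθ, hsq⟩ := h.p_sq hs0 hs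
  have hs1 : 1 < s := lt_of_sq hs0 hs (by linarith)
  have hu1 : 1 / s < 1 := by rw [div_lt_one hs0]; exact hs1
  have hbq : (b : ℝ) * q ≤ 2 * (1 / s) := by
    have e : (b : ℝ) * q = -(2 * ((p * θ / 2) * q)) - q ^ 2 := by rw [h.hb]; ring
    rw [e]
    have : -(s * q) ≤ p * θ / 2 * q := by
      have := mul_le_mul_of_nonneg_right (abs_le.1 hpθ).1 hq.le
      linarith
    rw [hsq] at this
    linarith [sq_nonneg q]
  have h4 := four_w h
  have hq2 : q ^ 2 < 1 := by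
    rw [pow_two]
    calc q * q < 1 * 1 := mul_lt_mul hq1 hq1.le hq (by norm_num)
      _ = 1 := by norm_num
  have hDR : (-9 : ℝ) < ((4 * a - b * b : ℤ) : ℝ) := by
    push_cast at h4 ⊢
    have e1 := h4
    have : (b : ℝ) ^ 2 = b * b := by ring
    have hb2 : 2 * (b : ℝ) * q ≤ 4 := by linarith
    rw [this] at e1
    linarith
  have hD : -9 < 4 * a - b * b := by exact_mod_cast hDR
  have ha0 : 0 ≤ a := by
    have e1 := h.ha
    have e2 := (abs_le.1 hp).1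
    have e3 : 2 / s = 2 * (1 / s) := by ring
    have e4 : (-1 : ℝ) < a := by rw [e1]; linarith
    have e5 : -1 < a := by exact_mod_cast e4
    omega
  by_cases ha : a ≤ 1600
  · have hok := hok ha0 ha (by omega)
    unfold ok at hok
    simp only [Bool.or_eq_true, ilt_iff, memL_iff] at hok
    rcases hok with ((((g | g) | g) | g) | g) | g
    · omega
    · have := h.ab h1
      omega
    · exfalso
      unfold generic at g
      simp only [Bool.and_eq_true, ilt_iff] at g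
      obtain ⟨g1, g2⟩ := g
      unfold thr at g2
      simp only [ilt_iff] at g2
      split_ifs at g2 with k1 k2 k3
      · have haR : (901 : ℝ) ≤ a := by exact_mod_cast k1
        have hD7 : (7 : ℝ) ≤ ((4 * a - b * b : ℤ) : ℝ) := by
          have : 7 ≤ 4 * a - b * b := by omega
          exact_mod_cast this
        exact generic_false h h1 (by omega) hε hP hN hN0 hL1 hL2 (σ := 30) (T := 18.603) (D := 7)
          (by norm_num) (by linarith) (by norm_num) hD7 (by norm_num) (by norm_num) (by norm_num)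
      · have haR : (626 : ℝ) ≤ a := by exact_mod_cast k2
        have hD7 : (10 : ℝ) ≤ ((4 * a - b * b : ℤ) : ℝ) := by
          have : 10 ≤ 4 * a - b * b := by omega
          exact_mod_cast this
        exact generic_false h h1 (by omega) hε hP hN hN0 hL1 hL2 (σ := 25) (T := 15.54) (D := 10)
          (by norm_num) (by linarith) (by norm_num) hD7 (by norm_num) (by norm_num) (by norm_num)
      · have haR : (401 : ℝ) ≤ a := by exact_mod_cast k3
        have hD7 : (17 : ℝ) ≤ ((4 * a - b * b : ℤ) : ℝ) := by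
          have : 17 ≤ 4 * a - b * b := by omega
          exact_mod_cast this
        exact generic_false h h1 (by omega) hε hP hN hN0 hL1 hL2 (σ := 20) (T := 11.895) (D := 17)
          (by norm_num) (by linarith) (by norm_num) hD7 (by norm_num) (by norm_num) (by norm_num)
      · have haR : (300 : ℝ) ≤ a := by exact_mod_cast g1
        have hD7 : (24 : ℝ) ≤ ((4 * a - b * b : ℤ) : ℝ) := by
          have : 24 ≤ 4 * a - b * b := by omega
          exact_mod_cast this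
        exact generic_false h h1 (by omega) hε hP hN hN0 hL1 hL2 (σ := 17.29) (T := 10) (D := 24)
          (by norm_num) (by linarith) (by norm_num) hD7 (by norm_num) (by norm_num) (by norm_num)
    · exfalso
      have e1 := h.disc_neg
      unfold disc at e1
      have e2 : a ^ 2 * b ^ 2 + 4 * b ^ 3 - 4 * a ^ 3 - 18 * a * b - 27 =
        a * a * (b * b) + 4 * (b * (b * b)) - 4 * (a * (a * a)) - 18 * (a * b) - 27 := by ring
      rw [e2] at e1
      omega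
    · exact g
    · exact (cert_false h h1 hP hN hN0 hL1 hL2 g).elim
  · exfalso
    push Not at ha
    have haR : (1601 : ℝ) ≤ a := by exact_mod_cast ha
    have hlt := h.lt_θ (by omega) (h.ab h1)
    have hs40 : 40 < s := lt_of_sq hs0 hs (by linarith)
    have hu40 : 1 / s < 1 / 40 := one_div_lt_one_div_of_lt (by norm_num) hs40
    have hqq : q < 1 / 1600 := q_lt hq hθ (by norm_num) (by linarith)
    have hq3 : q ^ 2 ≤ 1 / 1600 := by
      rw [pow_two]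
      calc q * q ≤ 1 / 1600 * 1 := mul_le_mul hqq.le hq1.le hq.le (by norm_num)
        _ = 1 / 1600 := by norm_num
    have hDR : (-1 : ℝ) < ((4 * a - b * b : ℤ) : ℝ) := by
      push_cast at h4 ⊢
      have e1 := h4
      have : (b : ℝ) ^ 2 = b * b := by ring
      have hb2 : 2 * (b : ℝ) * q ≤ 0.1 := by linarith
      rw [this] at e1
      linarith
    have hD0 : -1 < 4 * a - b * b := by exact_mod_cast hDR
    have hD4 := hcl (by omega)
    have hD4R : (4 : ℝ) ≤ ((4 * a - b * b : ℤ) : ℝ) := by exact_mod_cast hD4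
    exact generic_false h h1 (by omega) hε hP hN hN0 hL1 hL2 (σ := 40) (T := 24.69) (D := 4)
          (by norm_num) (by linarith) (by norm_num) hD4R (by norm_num) (by norm_num) (by norm_num)

/-- first class -/
theorem main1 {c b' : ℤ} (ha : a = 6 * c - 2 - 3 * b') (hb : b = 3 * b')
    (h : Root a b θ p q) (h1 : 1 < θ) {x y z : ℤ} (hP : PP 1 x y z)
    (hN : |N a b x y z| ≤ 198) (hN0 : N a b x y z ≠ 0) : (a, b) ∈ E1 := by
  refine main_of h h1 (Or.inl rfl) ?_ ?_ ?_ hP hN hN0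
  · constructor
    · rintro x y z ⟨h1, h2⟩
      have e1 : b * z = 3 * (b' * z) := by rw [hb]; ring
      have e2 : a * z = 6 * (c * z) - 2 * z - 3 * (b' * z) := by rw [ha]; ring
      rw [e1, e2]
      constructor <;> omega
    · rintro x y z ⟨h1, h2⟩
      have e1 : b * x = 3 * (b' * x) := by rw [hb]; ring
      have e2 : a * x = 6 * (c * x) - 2 * x - 3 * (b' * x) := by rw [ha]; ring
      rw [e1, e2]
      constructor <;> omega
  · intro g1 g2 g3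
    have g4 : |b| ≤ 81 := by
      apply abs_le_of_sq_le_sq _ (by norm_num)
      rw [pow_two]
      by_contra hcon
      push Not at hcon
      omega
    rw [abs_le] at g4
    have h2 := okAll1_true
    unfold okAll1 at h2
    have h3 := allTo_spec (k := ((a - 1) / 3).toNat) h2 (by omega)
    have h4 := allTo_spec (k := ((b' + 28) / 2).toNat) h3 (by omega)
    have e1 : 3 * Int.ofNat (0 + ((a - 1) / 3).toNat) + 1 = a := by
      simp only [Int.ofNat_eq_natCast]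
      omega
    have e2 : 3 * (2 * Int.ofNat ((b' + 28) / 2).toNat +
        (Int.ofNat (0 + ((a - 1) / 3).toNat) + 1) % 2 - 28) = b := by
      simp only [Int.ofNat_eq_natCast]
      omega
    rw [e1, e2] at h4
    exact h4
  · intro g
    have e1 : b * b = 9 * (b' * b') := by rw [hb]; ring
    rcases Int.even_or_odd' b' with ⟨k, hk | hk⟩
    · have e2 : b' * b' = 4 * (k * k) := by rw [hk]; ring
      omega
    · have e2 : b' * b' = 4 * (k * k + k) + 1 := by rw [hk]; ring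
      omega

/-- second class -/
theorem main2 {c b' : ℤ} (ha : a = 6 * c + 3 - 3 * b') (hb : b = 3 * b' - 1)
    (h : Root a b θ p q) (h1 : 1 < θ) {x y z : ℤ} (hP : PP (-1) x y z)
    (hN : |N a b x y z| ≤ 198) (hN0 : N a b x y z ≠ 0) : (a, b) ∈ E2 := by
  refine main_of h h1 (Or.inr rfl) ?_ ?_ ?_ hP hN hN0
  · constructor
    · rintro x y z ⟨h1, h2⟩
      have e1 : b * z = 3 * (b' * z) - z := by rw [hb]; ring
      have e2 : a * z = 6 * (c * z) + 3 * z - 3 * (b' * z) := by rw [ha]; ring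
      rw [e1, e2]
      constructor <;> omega
    · rintro x y z ⟨h1, h2⟩
      have e1 : b * x = 3 * (b' * x) - x := by rw [hb]; ring
      have e2 : a * x = 6 * (c * x) + 3 * x - 3 * (b' * x) := by rw [ha]; ring
      rw [e1, e2]
      constructor <;> omega
  · intro g1 g2 g3
    have g4 : |b| ≤ 81 := by
      apply abs_le_of_sq_le_sq _ (by norm_num)
      rw [pow_two]
      by_contra hcon
      push Not at hcon
      omega
    rw [abs_le] at g4
    have h2 := okAll2_true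
    unfold okAll2 at h2
    have h3 := allTo_spec (k := (a / 3).toNat) h2 (by omega)
    have h4 := allTo_spec (k := ((b' + 28) / 2).toNat) h3 (by omega)
    have e1 : 3 * Int.ofNat (0 + (a / 3).toNat) = a := by
      simp only [Int.ofNat_eq_natCast]
      omega
    have e2 : 3 * (2 * Int.ofNat ((b' + 28) / 2).toNat +
        (Int.ofNat (0 + (a / 3).toNat) + 1) % 2 - 28) - 1 = b := by
      simp only [Int.ofNat_eq_natCast]
      omega
    rw [e1, e2] at h4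
    exact h4
  · intro g
    have e1 : b * b = 9 * (b' * b') - 6 * b' + 1 := by rw [hb]; ring
    rcases Int.even_or_odd' b' with ⟨k, hk | hk⟩
    · have e2 : b' * b' = 4 * (k * k) := by rw [hk]; ring
      omega
    · have e2 : b' * b' = 4 * (k * k + k) + 1 := by rw [hk]; ring
      omega

/-- both cases together, for a pair of the first class -/
theorem main {c b' : ℤ} (ha : a = 6 * c - 2 - 3 * b') (hb : b = 3 * b')
    (h : Root a b θ p q) (h1 : θ ≠ 1) {x y z : ℤ} (hP : PP 1 x y z)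
    (hN : |N a b x y z| ≤ 198) (hN0 : N a b x y z ≠ 0) :
    (a, b) ∈ E1 ∨ (-b, -a) ∈ E2 := by
  rcases lt_or_gt_of_ne h1 with h2 | h2
  · right
    have hq : 1 < q := by
      have := h.hθ
      have := h.q_pos
      by_contra hcon
      push Not at hcon
      nlinarith [h.θ_pos]
    refine main2 (c := -c) (b' := -(2 * c - 1 - b')) ?_ ?_ h.swap hq (x := z) (y := y) (z := x)
      ?_ (by rw [N_swap]; exact hN) (by rw [N_swap]; exact hN0)
    · rw [hb]; ring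
    · rw [ha]; ring
    · obtain ⟨g1, g2⟩ := hP
      constructor <;> omega
  · left
    exact main1 ha hb h h2 hP hN hN0

end Pool.Agent.R336.Hess.C12
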